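import Pool.Agent.H49.TF.Base

/-!
The invariant of a complex: the sum of the fourth powers of the degrees of the 3-sets, and its fast
evaluation on bitsets.
-/

set_option autoImplicit false

namespace Pool.Agent.H49.TF

open Finset

/-- the sum of the fourth powers of the degrees of the 3-sets -/
def inv3 (K : Cx) : ℕ :=
  ∑ s ∈ powersetCard 3 (univ : Finset (Fin 15)), (K.filter fun f => s ⊆ f).card ^ 4

theorem inv3_relabel (σ : Equiv.Perm (Fin 15)) (K : Cx) : inv3 (relabel σ K) = inv3 K := by
  unfold inv3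
  symm
  refine Finset.sum_bij' (fun s _ => s.image σ) (fun s _ => s.image σ.symm) ?_ ?_ ?_ ?_ ?_
  · intro s hs
    rw [Finset.mem_powersetCard_univ] at hs ⊢
    rw [Finset.card_image_of_injective _ σ.injective, hs]
  · intro s hs
    rw [Finset.mem_powersetCard_univ] at hs ⊢
    rw [Finset.card_image_of_injective _ σ.symm.injective, hs]
  · intro s _
    simp [Finset.image_image]
  · intro s _
    simp [Finset.image_image]
  · intro s _
    have : (relabel σ K).filter (fun f => s.image σ ⊆ f) =
        (K.filter fun f => s ⊆ f).image (fun f => f.image σ) := by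
      ext f
      simp only [relabel, Finset.mem_filter, Finset.mem_image]
      constructor
      · rintro ⟨⟨g, hg, rfl⟩, h⟩
        exact ⟨g, ⟨hg, (Finset.image_subset_image_iff σ.injective).1 h⟩, rfl⟩
      · rintro ⟨g, ⟨hg, h⟩, rfl⟩
        exact ⟨⟨g, hg, rfl⟩, Finset.image_subset_image h⟩
    rw [this, Finset.card_image_of_injective _ (Finset.image_injective σ.injective)]

/-! ### The list of the masks -/

theorem mem_toL (k N o m : ℕ) :
    m ∈ toL k N o ↔ ∃ x, x < 2 ^ k ∧ N.testBit x = true ∧ m = o + x := by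
  induction k generalizing N o with
  | zero =>
    have h0 : N.testBit 0 = decide (N % 2 = 1) := Nat.testBit_zero N
    unfold toL
    by_cases h : N % 2 = 1
    · rw [if_pos h, List.mem_singleton]
      constructor
      · rintro rfl
        exact ⟨0, by norm_num, by rw [h0]; simpa using h, rfl⟩
      · rintro ⟨x, hx, -, rfl⟩
        have : x = 0 := by
          simp only [pow_zero] at hx
          omega
        rw [this, add_zero]
    · rw [if_neg h]
      constructor
      · intro hm
        exact absurd hm List.not_mem_nil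
      · rintro ⟨x, hx, hb, -⟩
        have : x = 0 := by
          simp only [pow_zero] at hx
          omega
        rw [this, h0] at hb
        exact absurd (by simpa using hb) h
  | succ k ih =>
    have hp : 2 ^ (k + 1) = 2 ^ k + 2 ^ k := by rw [pow_succ]; ring
    unfold toL
    by_cases h : N = 0
    · rw [if_pos h]
      constructor
      · intro hm
        exact absurd hm List.not_mem_nil
      · rintro ⟨x, -, hb, -⟩
        rw [h, Nat.zero_testBit] at hb
        exact absurd hb (by simp)
    · rw [if_neg h, List.mem_append, ih, ih]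
      constructor
      · rintro (⟨x, hx, hb, rfl⟩ | ⟨x, hx, hb, rfl⟩)
        · rw [Nat.testBit_mod_two_pow] at hb
          have hb' : N.testBit x = true := by
            rw [Bool.and_eq_true] at hb
            exact hb.2
          exact ⟨x, by omega, hb', rfl⟩
        · rw [Nat.testBit_shiftRight] at hb
          exact ⟨2 ^ k + x, by omega, hb, by omega⟩
      · rintro ⟨x, hx, hb, rfl⟩
        by_cases hk : x < 2 ^ k
        · left
          refine ⟨x, hk, ?_, rfl⟩
          rw [Nat.testBit_mod_two_pow, hb]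
          simpa using hk
        · right
          refine ⟨x - 2 ^ k, by omega, ?_, by omega⟩
          rw [Nat.testBit_shiftRight]
          have : 2 ^ k + (x - 2 ^ k) = x := by omega
          rw [this]
          exact hb

theorem nodup_toL (k N o : ℕ) : (toL k N o).Nodup := by
  induction k generalizing N o with
  | zero =>
    unfold toL
    by_cases h : N % 2 = 1
    · rw [if_pos h]
      exact List.nodup_singleton o
    · rw [if_neg h]
      exact List.nodup_nil
  | succ k ih =>
    unfold toL
    by_cases h : N = 0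
    · rw [if_pos h]
      exact List.nodup_nil
    · rw [if_neg h, List.nodup_append]
      refine ⟨ih _ _, ih _ _, ?_⟩
      intro a ha b hb hab
      rw [mem_toL] at ha hb
      obtain ⟨x, hx, -, e1⟩ := ha
      obtain ⟨y, hy, -, e2⟩ := hb
      omega

theorem toL_spec (N : ℕ) : (toL 15 N 0).Nodup ∧
    ∀ m, m ∈ toL 15 N 0 ↔ m < 32768 ∧ N.testBit m = true := by
  refine ⟨nodup_toL _ _ _, fun m => ?_⟩
  rw [mem_toL]
  constructor
  · rintro ⟨x, hx, hb, rfl⟩
    rw [zero_add]
    exact ⟨by simpa using hx, hb⟩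
  · rintro ⟨h1, h2⟩
    exact ⟨m, by simpa using h1, h2, by rw [zero_add]⟩

/-! ### The fast invariant -/

/-- the bits of the masks, spread by the factor 16 -/
def spread (L : List ℕ) : ℕ := (L.map fun m => 2 ^ (16 * m)).sum

/-- the number with the bits `x < 2 ^ 19` such that `x / 16` contains the bit `i` -/
def Mg (i : ℕ) : ℕ :=
  ((2 ^ (2 ^ (i + 4)) - 1) * 2 ^ (2 ^ (i + 4))) * ((2 ^ 524288 - 1) / (2 ^ (2 ^ (i + 5)) - 1))

/-- the spread bits of the masks containing `t` -/
def cnt (P t : ℕ) : ℕ :=
  (List.range 15).foldl (fun acc i => if t.testBit i then acc &&& Mg i else acc) P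

/-- the masks with three elements, literally -/
def T3lit : List ℕ :=
  [7, 11, 13, 14, 19, 21, 22, 25, 26, 28, 35, 37, 38, 41, 42, 44, 49, 50, 52, 56, 67, 69, 70, 73,
    74, 76, 81, 82, 84, 88, 97, 98, 100, 104, 112, 131, 133, 134, 137, 138, 140, 145, 146, 148,
    152, 161, 162, 164, 168, 176, 193, 194, 196, 200, 208, 224, 259, 261, 262, 265, 266, 268, 273,
    274, 276, 280, 289, 290, 292, 296, 304, 321, 322, 324, 328, 336, 352, 385, 386, 388, 392, 400,
    416, 448, 515, 517, 518, 521, 522, 524, 529, 530, 532, 536, 545, 546, 548, 552, 560, 577, 578,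
    580, 584, 592, 608, 641, 642, 644, 648, 656, 672, 704, 769, 770, 772, 776, 784, 800, 832, 896,
    1027, 1029, 1030, 1033, 1034, 1036, 1041, 1042, 1044, 1048, 1057, 1058, 1060, 1064, 1072,
    1089, 1090, 1092, 1096, 1104, 1120, 1153, 1154, 1156, 1160, 1168, 1184, 1216, 1281, 1282,
    1284, 1288, 1296, 1312, 1344, 1408, 1537, 1538, 1540, 1544, 1552, 1568, 1600, 1664, 1792,
    2051, 2053, 2054, 2057, 2058, 2060, 2065, 2066, 2068, 2072, 2081, 2082, 2084, 2088, 2096,
    2113, 2114, 2116, 2120, 2128, 2144, 2177, 2178, 2180, 2184, 2192, 2208, 2240, 2305, 2306,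
    2308, 2312, 2320, 2336, 2368, 2432, 2561, 2562, 2564, 2568, 2576, 2592, 2624, 2688, 2816,
    3073, 3074, 3076, 3080, 3088, 3104, 3136, 3200, 3328, 3584, 4099, 4101, 4102, 4105, 4106,
    4108, 4113, 4114, 4116, 4120, 4129, 4130, 4132, 4136, 4144, 4161, 4162, 4164, 4168, 4176,
    4192, 4225, 4226, 4228, 4232, 4240, 4256, 4288, 4353, 4354, 4356, 4360, 4368, 4384, 4416,
    4480, 4609, 4610, 4612, 4616, 4624, 4640, 4672, 4736, 4864, 5121, 5122, 5124, 5128, 5136,
    5152, 5184, 5248, 5376, 5632, 6145, 6146, 6148, 6152, 6160, 6176, 6208, 6272, 6400, 6656,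
    7168, 8195, 8197, 8198, 8201, 8202, 8204, 8209, 8210, 8212, 8216, 8225, 8226, 8228, 8232,
    8240, 8257, 8258, 8260, 8264, 8272, 8288, 8321, 8322, 8324, 8328, 8336, 8352, 8384, 8449,
    8450, 8452, 8456, 8464, 8480, 8512, 8576, 8705, 8706, 8708, 8712, 8720, 8736, 8768, 8832,
    8960, 9217, 9218, 9220, 9224, 9232, 9248, 9280, 9344, 9472, 9728, 10241, 10242, 10244, 10248,
    10256, 10272, 10304, 10368, 10496, 10752, 11264, 12289, 12290, 12292, 12296, 12304, 12320,
    12352, 12416, 12544, 12800, 13312, 14336, 16387, 16389, 16390, 16393, 16394, 16396, 16401,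
    16402, 16404, 16408, 16417, 16418, 16420, 16424, 16432, 16449, 16450, 16452, 16456, 16464,
    16480, 16513, 16514, 16516, 16520, 16528, 16544, 16576, 16641, 16642, 16644, 16648, 16656,
    16672, 16704, 16768, 16897, 16898, 16900, 16904, 16912, 16928, 16960, 17024, 17152, 17409,
    17410, 17412, 17416, 17424, 17440, 17472, 17536, 17664, 17920, 18433, 18434, 18436, 18440,
    18448, 18464, 18496, 18560, 18688, 18944, 19456, 20481, 20482, 20484, 20488, 20496, 20512,
    20544, 20608, 20736, 20992, 21504, 22528, 24577, 24578, 24580, 24584, 24592, 24608, 24640,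
    24704, 24832, 25088, 25600, 26624, 28672]

/-- the invariant, from the spread bits -/
def invP (P : ℕ) : ℕ := (T3lit.map fun t => (cnt P t % 65535) ^ 4).sum

/-- the invariant of a bitset -/
def invF (N : ℕ) : ℕ := invP (spread (toL 15 N 0))

/-- general block masks -/
def GG (k i : ℕ) : ℕ :=
  ((2 ^ (2 ^ i) - 1) * 2 ^ (2 ^ i)) * ((2 ^ (2 ^ k) - 1) / (2 ^ (2 ^ (i + 1)) - 1))

theorem GG_succ {k i : ℕ} (h : i < k) : GG (k + 1) i = 2 ^ (2 ^ k) * GG k i + GG k i := by
  have hd : (2 ^ (2 ^ (i + 1)) - 1) ∣ (2 ^ (2 ^ k) - 1) := by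
    have e : (2 : ℕ) ^ (2 ^ k) = (2 ^ (2 ^ (i + 1))) ^ (2 ^ (k - (i + 1))) := by
      rw [← pow_mul, ← pow_add]
      congr 2
      omega
    have := Nat.sub_dvd_pow_sub_pow (2 ^ (2 ^ (i + 1))) 1 (2 ^ (k - (i + 1)))
    rwa [one_pow, ← e] at this
  have e2 : 2 ^ (2 ^ (k + 1)) - 1 = (2 ^ (2 ^ k) - 1) * (2 ^ (2 ^ k) + 1) := by
    have e3 : (2 : ℕ) ^ (2 ^ (k + 1)) = 2 ^ (2 ^ k) * 2 ^ (2 ^ k) := by
      rw [← pow_add]
      congr 1
      rw [pow_succ]
      ring
    rw [e3]
    have hp : 1 ≤ 2 ^ (2 ^ k) := Nat.one_le_two_pow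
    obtain ⟨c, hc⟩ : ∃ c, 2 ^ (2 ^ k) = c + 1 := ⟨2 ^ (2 ^ k) - 1, by omega⟩
    rw [hc]
    have : (c + 1) * (c + 1) - 1 = c * (c + 2) := by
      have : (c + 1) * (c + 1) = c * (c + 2) + 1 := by ring
      omega
    rw [this]
    simp
  unfold GG
  rw [e2, Nat.mul_comm (2 ^ (2 ^ k) - 1) (2 ^ (2 ^ k) + 1), Nat.mul_div_assoc _ hd]
  ring

theorem testBit_GG {k i : ℕ} (h : i < k) (x : ℕ) :
    (GG k i).testBit x = (decide (x < 2 ^ k) && x.testBit i) := by
  obtain ⟨n, rfl⟩ : ∃ n, k = i + 1 + n := ⟨k - (i + 1), by omega⟩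
  clear h
  induction n generalizing x with
  | zero =>
    have hpos : 0 < 2 ^ (2 ^ (i + 1)) - 1 := by
      have : 2 ^ 1 ≤ 2 ^ (2 ^ (i + 1)) := Nat.pow_le_pow_right (by norm_num) Nat.one_le_two_pow
      omega
    unfold GG
    rw [add_zero, Nat.div_self hpos, mul_one, Nat.testBit_mul_two_pow, Nat.testBit_two_pow_sub_one]
    have hp : 2 ^ (i + 1) = 2 ^ i + 2 ^ i := by rw [pow_succ]; ring
    by_cases h1 : x < 2 ^ i
    · have : x.testBit i = false := Nat.testBit_lt_two_pow h1
      rw [this]
      simp [h1]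
    · by_cases h2 : x < 2 ^ (i + 1)
      · have : x = 2 ^ i + (x - 2 ^ i) := by omega
        have hb : x.testBit i = true := by
          rw [this, Nat.testBit_two_pow_add_eq, Nat.testBit_lt_two_pow (by omega)]
          rfl
        rw [hb]
        simp [h2]
        omega
      · have h3 : ¬ (x - 2 ^ i < 2 ^ i) := by omega
        simp [h2, h3]
  | succ n ih =>
    have hlt : GG (i + 1 + n) i < 2 ^ (2 ^ (i + 1 + n)) := by
      apply Nat.lt_pow_two_of_testBit
      intro j hj
      rw [ih]
      have : ¬ (j < 2 ^ (i + 1 + n)) := by omega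
      simp [this]
    rw [show i + 1 + (n + 1) = (i + 1 + n) + 1 by ring, GG_succ (by omega),
      Nat.testBit_two_pow_mul_add _ hlt]
    have hp : 2 ^ (i + 1 + n + 1) = 2 ^ (i + 1 + n) + 2 ^ (i + 1 + n) := by rw [pow_succ]; ring
    by_cases h1 : x < 2 ^ (i + 1 + n)
    · have h2 : x < 2 ^ (i + 1 + n + 1) := by omega
      rw [if_pos h1, ih]
      simp [h1, h2]
    · rw [if_neg h1, ih]
      have e : x = 2 ^ (i + 1 + n) + (x - 2 ^ (i + 1 + n)) := by omega
      have hb : x.testBit i = (x - 2 ^ (i + 1 + n)).testBit i := by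
        conv_lhs => rw [e]
        rw [Nat.testBit_two_pow_add_gt (by omega)]
      rw [hb]
      congr 1
      rw [decide_eq_decide]
      omega

theorem testBit_Mg {i : ℕ} (hi : i < 15) (x : ℕ) :
    (Mg i).testBit x = (decide (x < 524288) && x.testBit (i + 4)) := by
  have h := testBit_GG (k := 19) (i := i + 4) (by omega) x
  have e : (2 : ℕ) ^ 19 = 524288 := by norm_num
  have e2 : Mg i = GG 19 (i + 4) := by
    unfold Mg GG
    rw [e, show i + 4 + 1 = i + 5 by ring]
  rw [e2, h, e]

theorem testBit_sum_pow (s : Finset ℕ) (x : ℕ) :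
    (∑ i ∈ s, 2 ^ i).testBit x = decide (x ∈ s) := by
  have h := Finset.toFinset_bitIndices_sum_two_pow s
  rw [Bool.eq_iff_iff, ← Nat.mem_bitIndices, ← List.mem_toFinset, h]
  simp

theorem spread_eq {L : List ℕ} (hL : L.Nodup) :
    spread L = ∑ x ∈ L.toFinset.image (fun m => 16 * m), 2 ^ x := by
  rw [Finset.sum_image (fun a _ b _ hab => by
    have : 16 * a = 16 * b := hab
    omega)]
  unfold spread
  rw [List.sum_toFinset _ hL]

theorem testBit_cnt (P t x : ℕ) : (cnt P t).testBit x = true ↔
    (P.testBit x = true ∧ ∀ i < 15, t.testBit i = true → (Mg i).testBit x = true) := by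
  have key : ∀ (l : List ℕ) (P : ℕ),
      ((l.foldl (fun acc i => if t.testBit i then acc &&& Mg i else acc) P).testBit x = true ↔
      (P.testBit x = true ∧ ∀ i ∈ l, t.testBit i = true → (Mg i).testBit x = true)) := by
    intro l
    induction l with
    | nil => intro P; simp
    | cons a l ih =>
      intro P
      rw [List.foldl_cons, ih]
      by_cases h : t.testBit a = true
      · rw [if_pos h, Nat.testBit_and, Bool.and_eq_true]
        constructor
        · rintro ⟨⟨h1, h2⟩, h3⟩
          refine ⟨h1, fun i hi hti => ?_⟩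
          rcases List.mem_cons.1 hi with rfl | hi
          · exact h2
          · exact h3 i hi hti
        · rintro ⟨h1, h2⟩
          exact ⟨⟨h1, h2 a List.mem_cons_self h⟩, fun i hi => h2 i (List.mem_cons_of_mem _ hi)⟩
      · rw [if_neg h]
        constructor
        · rintro ⟨h1, h2⟩
          refine ⟨h1, fun i hi hti => ?_⟩
          rcases List.mem_cons.1 hi with rfl | hi
          · exact absurd hti h
          · exact h2 i hi hti
        · rintro ⟨h1, h2⟩
          exact ⟨h1, fun i hi => h2 i (List.mem_cons_of_mem _ hi)⟩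
  have := key (List.range 15) P
  simp only [List.mem_range] at this
  exact this

theorem dec_subset {t m : ℕ} : dec t ⊆ dec m ↔ ∀ i < 15, t.testBit i = true → m.testBit i = true := by
  constructor
  · intro h i hi ht
    have : (⟨i, hi⟩ : Fin 15) ∈ dec t := by simpa [dec] using ht
    simpa [dec] using h this
  · intro h i hi
    simp only [dec, Finset.mem_filter, Finset.mem_univ, true_and] at hi ⊢
    exact h i i.2 hi

theorem cnt_spread {L : List ℕ} (hL : L.Nodup) (hl : ∀ m ∈ L, m < 32768) (t : ℕ) :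
    cnt (spread L) t =
      ∑ x ∈ (L.toFinset.filter fun m => dec t ⊆ dec m).image (fun m => 16 * m), 2 ^ x := by
  apply Nat.eq_of_testBit_eq
  intro x
  rw [Bool.eq_iff_iff, testBit_cnt, testBit_sum_pow, spread_eq hL, testBit_sum_pow]
  simp only [decide_eq_true_eq, Finset.mem_image, Finset.mem_filter, List.mem_toFinset, dec_subset]
  constructor
  · rintro ⟨⟨m, hm, rfl⟩, h⟩
    refine ⟨m, ⟨hm, fun i hi ht => ?_⟩, rfl⟩
    have := h i hi ht
    rw [testBit_Mg hi, Bool.and_eq_true] at this
    have h2 := this.2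
    rw [show 16 * m = 2 ^ 4 * m by norm_num, Nat.testBit_two_pow_mul, Bool.and_eq_true] at h2
    simpa using h2.2
  · rintro ⟨m, ⟨hm, h⟩, rfl⟩
    refine ⟨⟨m, hm, rfl⟩, fun i hi ht => ?_⟩
    rw [testBit_Mg hi, Bool.and_eq_true]
    have hlt := hl m hm
    refine ⟨by simp only [decide_eq_true_eq]; omega, ?_⟩
    rw [show 16 * m = 2 ^ 4 * m by norm_num, Nat.testBit_two_pow_mul, Bool.and_eq_true]
    exact ⟨by simp, by simpa using h i hi ht⟩

theorem sum_mod (S : Finset ℕ) (h : S.card < 65535) :
    (∑ x ∈ S.image (fun m => 16 * m), 2 ^ x) % 65535 = S.card := by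
  rw [Finset.sum_image (fun a _ b _ hab => by
    have : 16 * a = 16 * b := hab
    omega), Finset.sum_nat_mod]
  have e : ∀ m ∈ S, 2 ^ (16 * m) % 65535 = 1 := by
    intro m _
    rw [pow_mul, Nat.pow_mod]
    norm_num
  rw [Finset.sum_congr rfl e]
  simp only [Finset.sum_const, smul_eq_mul, mul_one]
  exact Nat.mod_eq_of_lt h

theorem T3lit_nodup : T3lit.Nodup := by decide +kernel

theorem T3lit_length : T3lit.length = 455 := by decide +kernel

theorem T3lit_lt : ∀ t ∈ T3lit, t < 32768 := by decide +kernel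

theorem T3lit_card : ∀ t ∈ T3lit, (dec t).card = 3 := by decide +kernel

theorem image_code : (powersetCard 3 (univ : Finset (Fin 15))).image code = T3lit.toFinset := by
  symm
  apply Finset.eq_of_subset_of_card_le
  · intro t ht
    rw [List.mem_toFinset] at ht
    rw [Finset.mem_image]
    exact ⟨dec t, by rw [Finset.mem_powersetCard_univ]; exact T3lit_card t ht,
      code_dec (T3lit_lt t ht)⟩
  · rw [List.toFinset_card_of_nodup T3lit_nodup, T3lit_length]
    refine Finset.card_image_le.trans ?_
    rw [Finset.card_powersetCard, Finset.card_univ, Fintype.card_fin]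
    decide

theorem card_filter_cx (N t : ℕ) :
    ((toL 15 N 0).toFinset.filter fun m => dec t ⊆ dec m).card =
      ((cx N).filter fun f => dec t ⊆ f).card := by
  have hs := toL_spec N
  have : (toL 15 N 0).toFinset.filter (fun m => dec t ⊆ dec m) =
      ((cx N).filter fun f => dec t ⊆ f).image code := by
    ext m
    simp only [Finset.mem_filter, List.mem_toFinset, Finset.mem_image, hs.2, mem_cx]
    constructor
    · rintro ⟨⟨h1, h2⟩, h3⟩
      exact ⟨dec m, ⟨by rw [code_dec h1]; exact h2, h3⟩, code_dec h1⟩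
    · rintro ⟨f, ⟨h1, h2⟩, rfl⟩
      rw [dec_code]
      exact ⟨⟨code_lt f, h1⟩, h2⟩
  rw [this, Finset.card_image_of_injective]
  intro f g h
  rw [← dec_code f, ← dec_code g]
  exact congrArg dec h

/-- the invariant of the complex of a bitset -/
theorem inv3_cx (N : ℕ) : inv3 (cx N) = invF N := by
  have hs := toL_spec N
  have key : ∀ t, ((cx N).filter fun f => dec t ⊆ f).card =
      cnt (spread (toL 15 N 0)) t % 65535 := by
    intro t
    rw [cnt_spread hs.1 (fun m hm => ((hs.2 m).1 hm).1) t, sum_mod, card_filter_cx]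
    calc ((toL 15 N 0).toFinset.filter fun m => dec t ⊆ dec m).card
        ≤ (Finset.range 32768).card := by
          apply Finset.card_le_card
          intro m hm
          rw [Finset.mem_filter, List.mem_toFinset, hs.2] at hm
          exact Finset.mem_range.2 hm.1.1
      _ < 65535 := by rw [Finset.card_range]; norm_num
  have e1 : inv3 (cx N) =
      ∑ t ∈ (powersetCard 3 (univ : Finset (Fin 15))).image code,
        (cnt (spread (toL 15 N 0)) t % 65535) ^ 4 := by
    rw [Finset.sum_image (fun a _ b _ hab => by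
      have : code a = code b := hab
      rw [← dec_code a, ← dec_code b, this])]
    unfold inv3
    refine Finset.sum_congr rfl fun s _ => ?_
    rw [← key, dec_code]
  rw [e1, image_code, List.sum_toFinset _ T3lit_nodup]
  rfl

end Pool.Agent.H49.TF
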