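import Pool.Agent.H49.TF.Run
import Pool.Agent.H49.TF.Inv

/-!
From a list of bitsets to the statement.
-/

set_option autoImplicit false

namespace Pool.Agent.H49.TF

theorem assemble (L : List ℕ) (n : ℕ) (hl : L.length = n) (N0 : ℕ) (h0 : InM (cx N0))
    (hc : ∀ N ∈ L, Relation.EqvGen Step (cx N0) (cx N))
    (ha : ∀ N ∈ L, 3 < Nat.card {σ : Equiv.Perm (Fin 15) // relabel σ (cx N) = cx N})
    (M : List ℕ) (hM : L.map (fun N => inv3 (cx N)) = M) (hn : M.Nodup) :
    ∃ K : Fin n → Cx,
      (∀ i, InM (K i) ∧ 3 < Nat.card {σ : Equiv.Perm (Fin 15) // relabel σ (K i) = K i}) ∧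
      (∀ i j, i ≠ j → ∀ σ : Equiv.Perm (Fin 15), relabel σ (K i) ≠ K j) ∧
      ∀ i j, Relation.EqvGen Step (K i) (K j) := by
  subst hl
  subst hM
  refine ⟨fun i => cx (L.get i), fun i => ⟨?_, ha _ (List.get_mem _ _)⟩, ?_, ?_⟩
  · exact (InM.eqvGen (hc _ (List.get_mem _ _))).mp h0
  · intro i j hij σ h
    apply hij
    have hlen : (L.map fun N => inv3 (cx N)).length = L.length := List.length_map _
    have hinj := List.nodup_iff_injective_get.mp hn
    have : (L.map fun N => inv3 (cx N)).get (i.cast hlen.symm) =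
        (L.map fun N => inv3 (cx N)).get (j.cast hlen.symm) := by
      simp only [List.get_eq_getElem, List.getElem_map, Fin.val_cast]
      have h2 := congrArg inv3 h
      rw [inv3_relabel] at h2
      simpa only [List.get_eq_getElem] using h2
    have h3 := hinj this
    exact Fin.ext (by simpa using congrArg Fin.val h3)
  · intro i j
    exact Relation.EqvGen.trans _ _ _ (Relation.EqvGen.symm _ _ (hc _ (List.get_mem _ _)))
      (hc _ (List.get_mem _ _))

end Pool.Agent.H49.TF
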