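import Pool.Agent.H49.TF.Swap
import Pool.Agent.H49.TF.Dat

/-!
Automorphisms of the 70 complexes.
-/

set_option autoImplicit false

namespace Pool.Agent.H49.TF

theorem aut0 : 3 < Nat.card {σ : Equiv.Perm (Fin 15) // relabel σ (cx n0) = cx n0} :=
  card_aut n0
    [(0, 1), (0, 14), (2, 7), (3, 13), (4, 5), (4, 8), (6, 9), (0, 2), (4, 6), (3, 10), (10, 11),
    (11, 12)]
    [(0, 2), (1, 7), (0, 1), (3, 11), (4, 6), (5, 9), (4, 5), (0, 14), (4, 8), (10, 12), (3, 13),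
    (3, 10)]
    [(0, 7), (0, 1), (2, 14), (3, 10), (4, 9), (4, 5), (6, 8), (1, 2), (5, 6), (3, 11), (3, 12),
    (3, 13)]
    (by decide +kernel) (by decide +kernel) (by decide +kernel) (by decide +kernel)
    (by decide +kernel)

theorem aut1 : 3 < Nat.card {σ : Equiv.Perm (Fin 15) // relabel σ (cx n1) = cx n1} :=
  card_aut n1
    [(0, 1), (0, 14), (2, 7), (3, 13), (4, 5), (4, 8), (6, 9), (0, 2), (4, 6), (3, 10), (10, 11),
    (11, 12)]
    [(0, 2), (1, 7), (0, 1), (3, 11), (4, 6), (5, 9), (4, 5), (0, 14), (4, 8), (10, 12), (3, 13),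
    (3, 10)]
    [(0, 7), (0, 1), (2, 14), (3, 10), (4, 9), (4, 5), (6, 8), (1, 2), (5, 6), (3, 11), (3, 12),
    (3, 13)]
    (by decide +kernel) (by decide +kernel) (by decide +kernel) (by decide +kernel)
    (by decide +kernel)

theorem aut2 : 3 < Nat.card {σ : Equiv.Perm (Fin 15) // relabel σ (cx n2) = cx n2} :=
  card_aut n2
    [(0, 1), (0, 14), (2, 7), (3, 13), (4, 5), (4, 8), (6, 9), (0, 2), (4, 6), (3, 10), (10, 11),
    (11, 12)]
    [(0, 2), (1, 7), (0, 1), (3, 11), (4, 6), (5, 9), (4, 5), (0, 14), (4, 8), (10, 12), (3, 13),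
    (3, 10)]
    [(0, 7), (0, 1), (2, 14), (3, 10), (4, 9), (4, 5), (6, 8), (1, 2), (5, 6), (3, 11), (3, 12),
    (3, 13)]
    (by decide +kernel) (by decide +kernel) (by decide +kernel) (by decide +kernel)
    (by decide +kernel)

theorem aut3 : 3 < Nat.card {σ : Equiv.Perm (Fin 15) // relabel σ (cx n3) = cx n3} :=
  card_aut n3
    [(0, 1), (0, 14), (2, 7), (3, 13), (4, 5), (4, 8), (6, 9), (0, 2), (4, 6), (3, 10), (10, 11),
    (11, 12)]
    [(0, 2), (1, 7), (0, 1), (3, 11), (4, 6), (5, 9), (4, 5), (0, 14), (4, 8), (10, 12), (3, 13),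
    (3, 10)]
    [(0, 7), (0, 1), (2, 14), (3, 10), (4, 9), (4, 5), (6, 8), (1, 2), (5, 6), (3, 11), (3, 12),
    (3, 13)]
    (by decide +kernel) (by decide +kernel) (by decide +kernel) (by decide +kernel)
    (by decide +kernel)

theorem aut4 : 3 < Nat.card {σ : Equiv.Perm (Fin 15) // relabel σ (cx n4) = cx n4} :=
  card_aut n4
    [(0, 1), (0, 14), (2, 7), (3, 13), (4, 5), (4, 8), (6, 9), (0, 2), (4, 6), (3, 10), (10, 11),
    (11, 12)]
    [(0, 2), (1, 7), (0, 1), (3, 11), (4, 6), (5, 9), (4, 5), (0, 14), (4, 8), (10, 12), (3, 13),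
    (3, 10)]
    [(0, 7), (0, 1), (2, 14), (3, 10), (4, 9), (4, 5), (6, 8), (1, 2), (5, 6), (3, 11), (3, 12),
    (3, 13)]
    (by decide +kernel) (by decide +kernel) (by decide +kernel) (by decide +kernel)
    (by decide +kernel)

theorem aut5 : 3 < Nat.card {σ : Equiv.Perm (Fin 15) // relabel σ (cx n5) = cx n5} :=
  card_aut n5
    [(0, 1), (0, 14), (2, 7), (3, 13), (4, 5), (4, 8), (6, 9), (0, 2), (4, 6), (3, 10), (10, 11),
    (11, 12)]
    [(0, 2), (1, 7), (0, 1), (3, 11), (4, 6), (5, 9), (4, 5), (0, 14), (4, 8), (10, 12), (3, 13),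
    (3, 10)]
    [(0, 7), (0, 1), (2, 14), (3, 10), (4, 9), (4, 5), (6, 8), (1, 2), (5, 6), (3, 11), (3, 12),
    (3, 13)]
    (by decide +kernel) (by decide +kernel) (by decide +kernel) (by decide +kernel)
    (by decide +kernel)

theorem aut6 : 3 < Nat.card {σ : Equiv.Perm (Fin 15) // relabel σ (cx n6) = cx n6} :=
  card_aut n6
    [(0, 1), (0, 14), (2, 7), (3, 13), (4, 5), (4, 8), (6, 9), (0, 2), (4, 6), (3, 10), (10, 11),
    (11, 12)]
    [(0, 2), (1, 7), (0, 1), (3, 11), (4, 6), (5, 9), (4, 5), (0, 14), (4, 8), (10, 12), (3, 13),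
    (3, 10)]
    [(0, 7), (0, 1), (2, 14), (3, 10), (4, 9), (4, 5), (6, 8), (1, 2), (5, 6), (3, 11), (3, 12),
    (3, 13)]
    (by decide +kernel) (by decide +kernel) (by decide +kernel) (by decide +kernel)
    (by decide +kernel)

theorem aut7 : 3 < Nat.card {σ : Equiv.Perm (Fin 15) // relabel σ (cx n7) = cx n7} :=
  card_aut n7
    [(0, 1), (0, 14), (2, 7), (3, 13), (4, 5), (4, 8), (6, 9), (0, 2), (4, 6), (3, 10), (10, 11),
    (11, 12)]
    [(0, 2), (1, 7), (0, 1), (3, 11), (4, 6), (5, 9), (4, 5), (0, 14), (4, 8), (10, 12), (3, 13),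
    (3, 10)]
    [(0, 7), (0, 1), (2, 14), (3, 10), (4, 9), (4, 5), (6, 8), (1, 2), (5, 6), (3, 11), (3, 12),
    (3, 13)]
    (by decide +kernel) (by decide +kernel) (by decide +kernel) (by decide +kernel)
    (by decide +kernel)

theorem aut8 : 3 < Nat.card {σ : Equiv.Perm (Fin 15) // relabel σ (cx n8) = cx n8} :=
  card_aut n8
    [(0, 1), (0, 14), (2, 7), (3, 13), (4, 5), (4, 8), (6, 9), (0, 2), (4, 6), (3, 10), (10, 11),
    (11, 12)]
    [(0, 2), (1, 7), (0, 1), (3, 11), (4, 6), (5, 9), (4, 5), (0, 14), (4, 8), (10, 12), (3, 13),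
    (3, 10)]
    [(0, 7), (0, 1), (2, 14), (3, 10), (4, 9), (4, 5), (6, 8), (1, 2), (5, 6), (3, 11), (3, 12),
    (3, 13)]
    (by decide +kernel) (by decide +kernel) (by decide +kernel) (by decide +kernel)
    (by decide +kernel)

theorem aut9 : 3 < Nat.card {σ : Equiv.Perm (Fin 15) // relabel σ (cx n9) = cx n9} :=
  card_aut n9
    [(0, 1), (0, 14), (2, 7), (3, 13), (4, 5), (4, 8), (6, 9), (0, 2), (4, 6), (3, 10), (10, 11),
    (11, 12)]
    [(0, 2), (1, 7), (0, 1), (3, 11), (4, 6), (5, 9), (4, 5), (0, 14), (4, 8), (10, 12), (3, 13),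
    (3, 10)]
    [(0, 7), (0, 1), (2, 14), (3, 10), (4, 9), (4, 5), (6, 8), (1, 2), (5, 6), (3, 11), (3, 12),
    (3, 13)]
    (by decide +kernel) (by decide +kernel) (by decide +kernel) (by decide +kernel)
    (by decide +kernel)

theorem aut10 : 3 < Nat.card {σ : Equiv.Perm (Fin 15) // relabel σ (cx n10) = cx n10} :=
  card_aut n10
    [(0, 1), (0, 14), (2, 7), (3, 13), (4, 5), (4, 8), (6, 9), (0, 2), (4, 6), (3, 10), (10, 11),
    (11, 12)]
    [(0, 2), (1, 7), (0, 1), (3, 11), (4, 6), (5, 9), (4, 5), (0, 14), (4, 8), (10, 12), (3, 13),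
    (3, 10)]
    [(0, 7), (0, 1), (2, 14), (3, 10), (4, 9), (4, 5), (6, 8), (1, 2), (5, 6), (3, 11), (3, 12),
    (3, 13)]
    (by decide +kernel) (by decide +kernel) (by decide +kernel) (by decide +kernel)
    (by decide +kernel)

theorem aut11 : 3 < Nat.card {σ : Equiv.Perm (Fin 15) // relabel σ (cx n11) = cx n11} :=
  card_aut n11
    [(0, 1), (0, 14), (2, 7), (3, 13), (4, 5), (4, 8), (6, 9), (0, 2), (4, 6), (3, 10), (10, 11),
    (11, 12)]
    [(0, 2), (1, 7), (0, 1), (3, 11), (4, 6), (5, 9), (4, 5), (0, 14), (4, 8), (10, 12), (3, 13),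
    (3, 10)]
    [(0, 7), (0, 1), (2, 14), (3, 10), (4, 9), (4, 5), (6, 8), (1, 2), (5, 6), (3, 11), (3, 12),
    (3, 13)]
    (by decide +kernel) (by decide +kernel) (by decide +kernel) (by decide +kernel)
    (by decide +kernel)

theorem aut12 : 3 < Nat.card {σ : Equiv.Perm (Fin 15) // relabel σ (cx n12) = cx n12} :=
  card_aut n12
    [(0, 1), (0, 14), (2, 7), (3, 13), (4, 5), (4, 8), (6, 9), (0, 2), (4, 6), (3, 10), (10, 11),
    (11, 12)]
    [(0, 2), (1, 7), (0, 1), (3, 11), (4, 6), (5, 9), (4, 5), (0, 14), (4, 8), (10, 12), (3, 13),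
    (3, 10)]
    [(0, 7), (0, 1), (2, 14), (3, 10), (4, 9), (4, 5), (6, 8), (1, 2), (5, 6), (3, 11), (3, 12),
    (3, 13)]
    (by decide +kernel) (by decide +kernel) (by decide +kernel) (by decide +kernel)
    (by decide +kernel)

theorem aut13 : 3 < Nat.card {σ : Equiv.Perm (Fin 15) // relabel σ (cx n13) = cx n13} :=
  card_aut n13
    [(0, 1), (0, 14), (2, 7), (3, 13), (4, 5), (4, 8), (6, 9), (0, 2), (4, 6), (3, 10), (10, 11),
    (11, 12)]
    [(0, 2), (1, 7), (0, 1), (3, 11), (4, 6), (5, 9), (4, 5), (0, 14), (4, 8), (10, 12), (3, 13),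
    (3, 10)]
    [(0, 7), (0, 1), (2, 14), (3, 10), (4, 9), (4, 5), (6, 8), (1, 2), (5, 6), (3, 11), (3, 12),
    (3, 13)]
    (by decide +kernel) (by decide +kernel) (by decide +kernel) (by decide +kernel)
    (by decide +kernel)

theorem aut14 : 3 < Nat.card {σ : Equiv.Perm (Fin 15) // relabel σ (cx n14) = cx n14} :=
  card_aut n14
    [(0, 1), (0, 14), (2, 7), (3, 13), (4, 5), (4, 8), (6, 9), (0, 2), (4, 6), (3, 10), (10, 11),
    (11, 12)]
    [(0, 2), (1, 7), (0, 1), (3, 11), (4, 6), (5, 9), (4, 5), (0, 14), (4, 8), (10, 12), (3, 13),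
    (3, 10)]
    [(0, 7), (0, 1), (2, 14), (3, 10), (4, 9), (4, 5), (6, 8), (1, 2), (5, 6), (3, 11), (3, 12),
    (3, 13)]
    (by decide +kernel) (by decide +kernel) (by decide +kernel) (by decide +kernel)
    (by decide +kernel)

theorem aut15 : 3 < Nat.card {σ : Equiv.Perm (Fin 15) // relabel σ (cx n15) = cx n15} :=
  card_aut n15
    [(0, 1), (0, 14), (2, 7), (3, 13), (4, 5), (4, 8), (6, 9), (0, 2), (4, 6), (3, 10), (10, 11),
    (11, 12)]
    [(0, 2), (1, 7), (0, 1), (3, 11), (4, 6), (5, 9), (4, 5), (0, 14), (4, 8), (10, 12), (3, 13),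
    (3, 10)]
    [(0, 7), (0, 1), (2, 14), (3, 10), (4, 9), (4, 5), (6, 8), (1, 2), (5, 6), (3, 11), (3, 12),
    (3, 13)]
    (by decide +kernel) (by decide +kernel) (by decide +kernel) (by decide +kernel)
    (by decide +kernel)

theorem aut16 : 3 < Nat.card {σ : Equiv.Perm (Fin 15) // relabel σ (cx n16) = cx n16} :=
  card_aut n16
    [(0, 1), (0, 14), (2, 7), (3, 13), (4, 5), (4, 8), (6, 9), (0, 2), (4, 6), (3, 10), (10, 11),
    (11, 12)]
    [(0, 2), (1, 7), (0, 1), (3, 11), (4, 6), (5, 9), (4, 5), (0, 14), (4, 8), (10, 12), (3, 13),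
    (3, 10)]
    [(0, 7), (0, 1), (2, 14), (3, 10), (4, 9), (4, 5), (6, 8), (1, 2), (5, 6), (3, 11), (3, 12),
    (3, 13)]
    (by decide +kernel) (by decide +kernel) (by decide +kernel) (by decide +kernel)
    (by decide +kernel)

theorem aut17 : 3 < Nat.card {σ : Equiv.Perm (Fin 15) // relabel σ (cx n17) = cx n17} :=
  card_aut n17
    [(0, 1), (0, 14), (2, 7), (3, 13), (4, 5), (4, 8), (6, 9), (0, 2), (4, 6), (3, 10), (10, 11),
    (11, 12)]
    [(0, 2), (1, 7), (0, 1), (3, 11), (4, 6), (5, 9), (4, 5), (0, 14), (4, 8), (10, 12), (3, 13),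
    (3, 10)]
    [(0, 7), (0, 1), (2, 14), (3, 10), (4, 9), (4, 5), (6, 8), (1, 2), (5, 6), (3, 11), (3, 12),
    (3, 13)]
    (by decide +kernel) (by decide +kernel) (by decide +kernel) (by decide +kernel)
    (by decide +kernel)

end Pool.Agent.H49.TF
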