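import Pool.Agent.H49.TF.Swap
import Pool.Agent.H49.TF.Dat

/-!
Automorphisms of the 70 complexes.
-/

set_option autoImplicit false

namespace Pool.Agent.H49.TF

theorem aut18 : 3 < Nat.card {σ : Equiv.Perm (Fin 15) // relabel σ (cx n18) = cx n18} :=
  card_aut n18
    [(0, 1), (0, 14), (2, 7), (3, 13), (4, 5), (4, 8), (6, 9), (0, 2), (4, 6), (3, 10), (10, 11),
    (11, 12)]
    [(0, 2), (1, 7), (0, 1), (3, 11), (4, 6), (5, 9), (4, 5), (0, 14), (4, 8), (10, 12), (3, 13),
    (3, 10)]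
    [(0, 7), (0, 1), (2, 14), (3, 10), (4, 9), (4, 5), (6, 8), (1, 2), (5, 6), (3, 11), (3, 12),
    (3, 13)]
    (by decide +kernel) (by decide +kernel) (by decide +kernel) (by decide +kernel)
    (by decide +kernel)

theorem aut19 : 3 < Nat.card {σ : Equiv.Perm (Fin 15) // relabel σ (cx n19) = cx n19} :=
  card_aut n19
    [(0, 1), (0, 14), (2, 7), (3, 13), (4, 5), (4, 8), (6, 9), (0, 2), (4, 6), (3, 10), (10, 11),
    (11, 12)]
    [(0, 2), (1, 7), (0, 1), (3, 11), (4, 6), (5, 9), (4, 5), (0, 14), (4, 8), (10, 12), (3, 13),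
    (3, 10)]
    [(0, 7), (0, 1), (2, 14), (3, 10), (4, 9), (4, 5), (6, 8), (1, 2), (5, 6), (3, 11), (3, 12),
    (3, 13)]
    (by decide +kernel) (by decide +kernel) (by decide +kernel) (by decide +kernel)
    (by decide +kernel)

theorem aut20 : 3 < Nat.card {σ : Equiv.Perm (Fin 15) // relabel σ (cx n20) = cx n20} :=
  card_aut n20
    [(0, 1), (0, 14), (2, 7), (3, 13), (4, 5), (4, 8), (6, 9), (0, 2), (4, 6), (3, 10), (10, 11),
    (11, 12)]
    [(0, 2), (1, 7), (0, 1), (3, 11), (4, 6), (5, 9), (4, 5), (0, 14), (4, 8), (10, 12), (3, 13),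
    (3, 10)]
    [(0, 7), (0, 1), (2, 14), (3, 10), (4, 9), (4, 5), (6, 8), (1, 2), (5, 6), (3, 11), (3, 12),
    (3, 13)]
    (by decide +kernel) (by decide +kernel) (by decide +kernel) (by decide +kernel)
    (by decide +kernel)

theorem aut21 : 3 < Nat.card {σ : Equiv.Perm (Fin 15) // relabel σ (cx n21) = cx n21} :=
  card_aut n21
    [(0, 1), (0, 14), (2, 7), (3, 13), (4, 5), (4, 8), (6, 9), (0, 2), (4, 6), (3, 10), (10, 11),
    (11, 12)]
    [(0, 2), (1, 7), (0, 1), (3, 11), (4, 6), (5, 9), (4, 5), (0, 14), (4, 8), (10, 12), (3, 13),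
    (3, 10)]
    [(0, 7), (0, 1), (2, 14), (3, 10), (4, 9), (4, 5), (6, 8), (1, 2), (5, 6), (3, 11), (3, 12),
    (3, 13)]
    (by decide +kernel) (by decide +kernel) (by decide +kernel) (by decide +kernel)
    (by decide +kernel)

theorem aut22 : 3 < Nat.card {σ : Equiv.Perm (Fin 15) // relabel σ (cx n22) = cx n22} :=
  card_aut n22
    [(0, 1), (0, 14), (2, 7), (3, 13), (4, 5), (4, 8), (6, 9), (0, 2), (4, 6), (3, 10), (10, 11),
    (11, 12)]
    [(0, 2), (1, 7), (0, 1), (3, 11), (4, 6), (5, 9), (4, 5), (0, 14), (4, 8), (10, 12), (3, 13),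
    (3, 10)]
    [(0, 7), (0, 1), (2, 14), (3, 10), (4, 9), (4, 5), (6, 8), (1, 2), (5, 6), (3, 11), (3, 12),
    (3, 13)]
    (by decide +kernel) (by decide +kernel) (by decide +kernel) (by decide +kernel)
    (by decide +kernel)

theorem aut23 : 3 < Nat.card {σ : Equiv.Perm (Fin 15) // relabel σ (cx n23) = cx n23} :=
  card_aut n23
    [(0, 1), (0, 14), (2, 7), (3, 13), (4, 5), (4, 8), (6, 9), (0, 2), (4, 6), (3, 10), (10, 11),
    (11, 12)]
    [(0, 2), (1, 7), (0, 1), (3, 11), (4, 6), (5, 9), (4, 5), (0, 14), (4, 8), (10, 12), (3, 13),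
    (3, 10)]
    [(0, 7), (0, 1), (2, 14), (3, 10), (4, 9), (4, 5), (6, 8), (1, 2), (5, 6), (3, 11), (3, 12),
    (3, 13)]
    (by decide +kernel) (by decide +kernel) (by decide +kernel) (by decide +kernel)
    (by decide +kernel)

theorem aut24 : 3 < Nat.card {σ : Equiv.Perm (Fin 15) // relabel σ (cx n24) = cx n24} :=
  card_aut n24
    [(0, 1), (0, 14), (2, 7), (3, 13), (4, 5), (4, 8), (6, 9), (0, 2), (4, 6), (3, 10), (10, 11),
    (11, 12)]
    [(0, 2), (1, 7), (0, 1), (3, 11), (4, 6), (5, 9), (4, 5), (0, 14), (4, 8), (10, 12), (3, 13),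
    (3, 10)]
    [(0, 7), (0, 1), (2, 14), (3, 10), (4, 9), (4, 5), (6, 8), (1, 2), (5, 6), (3, 11), (3, 12),
    (3, 13)]
    (by decide +kernel) (by decide +kernel) (by decide +kernel) (by decide +kernel)
    (by decide +kernel)

theorem aut25 : 3 < Nat.card {σ : Equiv.Perm (Fin 15) // relabel σ (cx n25) = cx n25} :=
  card_aut n25
    [(0, 1), (0, 14), (2, 7), (3, 13), (4, 5), (4, 8), (6, 9), (0, 2), (4, 6), (3, 10), (10, 11),
    (11, 12)]
    [(0, 2), (1, 7), (0, 1), (3, 11), (4, 6), (5, 9), (4, 5), (0, 14), (4, 8), (10, 12), (3, 13),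
    (3, 10)]
    [(0, 7), (0, 1), (2, 14), (3, 10), (4, 9), (4, 5), (6, 8), (1, 2), (5, 6), (3, 11), (3, 12),
    (3, 13)]
    (by decide +kernel) (by decide +kernel) (by decide +kernel) (by decide +kernel)
    (by decide +kernel)

theorem aut26 : 3 < Nat.card {σ : Equiv.Perm (Fin 15) // relabel σ (cx n26) = cx n26} :=
  card_aut n26
    [(0, 7), (1, 8), (2, 9), (3, 10), (4, 11), (5, 6)]
    [(0, 2), (1, 3), (0, 4), (1, 5), (6, 8), (7, 9), (6, 10), (7, 11), (12, 14), (12, 13)]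
    [(0, 4), (1, 5), (0, 2), (1, 3), (6, 10), (7, 11), (6, 8), (7, 9), (12, 13), (12, 14)]
    (by decide +kernel) (by decide +kernel) (by decide +kernel) (by decide +kernel)
    (by decide +kernel)

theorem aut27 : 3 < Nat.card {σ : Equiv.Perm (Fin 15) // relabel σ (cx n27) = cx n27} :=
  card_aut n27
    [(0, 7), (1, 8), (2, 9), (3, 10), (4, 11), (5, 6)]
    [(0, 2), (1, 3), (0, 4), (1, 5), (6, 8), (7, 9), (6, 10), (7, 11), (12, 14), (12, 13)]
    [(0, 4), (1, 5), (0, 2), (1, 3), (6, 10), (7, 11), (6, 8), (7, 9), (12, 13), (12, 14)]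
    (by decide +kernel) (by decide +kernel) (by decide +kernel) (by decide +kernel)
    (by decide +kernel)

theorem aut28 : 3 < Nat.card {σ : Equiv.Perm (Fin 15) // relabel σ (cx n28) = cx n28} :=
  card_aut n28
    [(0, 7), (1, 8), (2, 9), (3, 10), (4, 11), (5, 6)]
    [(0, 2), (1, 3), (0, 4), (1, 5), (6, 8), (7, 9), (6, 10), (7, 11), (12, 14), (12, 13)]
    [(0, 4), (1, 5), (0, 2), (1, 3), (6, 10), (7, 11), (6, 8), (7, 9), (12, 13), (12, 14)]
    (by decide +kernel) (by decide +kernel) (by decide +kernel) (by decide +kernel)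
    (by decide +kernel)

theorem aut29 : 3 < Nat.card {σ : Equiv.Perm (Fin 15) // relabel σ (cx n29) = cx n29} :=
  card_aut n29
    [(0, 3), (1, 4), (2, 5), (6, 9), (7, 10), (8, 11)]
    [(0, 2), (1, 3), (0, 4), (1, 5), (6, 8), (7, 9), (6, 10), (7, 11), (12, 14), (12, 13)]
    [(0, 4), (1, 5), (0, 2), (1, 3), (6, 10), (7, 11), (6, 8), (7, 9), (12, 13), (12, 14)]
    (by decide +kernel) (by decide +kernel) (by decide +kernel) (by decide +kernel)
    (by decide +kernel)

theorem aut30 : 3 < Nat.card {σ : Equiv.Perm (Fin 15) // relabel σ (cx n30) = cx n30} :=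
  card_aut n30
    [(0, 3), (1, 4), (2, 5), (6, 9), (7, 10), (8, 11)]
    [(0, 7), (1, 8), (2, 9), (3, 10), (4, 11), (5, 6)]
    [(0, 10), (1, 11), (2, 6), (3, 7), (4, 8), (5, 9)]
    (by decide +kernel) (by decide +kernel) (by decide +kernel) (by decide +kernel)
    (by decide +kernel)

theorem aut31 : 3 < Nat.card {σ : Equiv.Perm (Fin 15) // relabel σ (cx n31) = cx n31} :=
  card_aut n31
    [(0, 7), (1, 8), (2, 9), (3, 10), (4, 11), (5, 6)]
    [(0, 2), (1, 3), (0, 4), (1, 5), (6, 8), (7, 9), (6, 10), (7, 11), (12, 14), (12, 13)]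
    [(0, 4), (1, 5), (0, 2), (1, 3), (6, 10), (7, 11), (6, 8), (7, 9), (12, 13), (12, 14)]
    (by decide +kernel) (by decide +kernel) (by decide +kernel) (by decide +kernel)
    (by decide +kernel)

theorem aut32 : 3 < Nat.card {σ : Equiv.Perm (Fin 15) // relabel σ (cx n32) = cx n32} :=
  card_aut n32
    [(0, 7), (1, 8), (2, 9), (3, 10), (4, 11), (5, 6)]
    [(0, 2), (1, 3), (0, 4), (1, 5), (6, 8), (7, 9), (6, 10), (7, 11), (12, 14), (12, 13)]
    [(0, 4), (1, 5), (0, 2), (1, 3), (6, 10), (7, 11), (6, 8), (7, 9), (12, 13), (12, 14)]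
    (by decide +kernel) (by decide +kernel) (by decide +kernel) (by decide +kernel)
    (by decide +kernel)

theorem aut33 : 3 < Nat.card {σ : Equiv.Perm (Fin 15) // relabel σ (cx n33) = cx n33} :=
  card_aut n33
    [(0, 10), (1, 11), (2, 6), (3, 7), (4, 8), (5, 9)]
    [(0, 2), (1, 3), (0, 4), (1, 5), (6, 8), (7, 9), (6, 10), (7, 11), (12, 14), (12, 13)]
    [(0, 4), (1, 5), (0, 2), (1, 3), (6, 10), (7, 11), (6, 8), (7, 9), (12, 13), (12, 14)]
    (by decide +kernel) (by decide +kernel) (by decide +kernel) (by decide +kernel)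
    (by decide +kernel)

theorem aut34 : 3 < Nat.card {σ : Equiv.Perm (Fin 15) // relabel σ (cx n34) = cx n34} :=
  card_aut n34
    [(0, 7), (1, 8), (2, 9), (3, 10), (4, 11), (5, 6)]
    [(0, 2), (1, 3), (0, 4), (1, 5), (6, 8), (7, 9), (6, 10), (7, 11), (12, 14), (12, 13)]
    [(0, 4), (1, 5), (0, 2), (1, 3), (6, 10), (7, 11), (6, 8), (7, 9), (12, 13), (12, 14)]
    (by decide +kernel) (by decide +kernel) (by decide +kernel) (by decide +kernel)
    (by decide +kernel)

theorem aut35 : 3 < Nat.card {σ : Equiv.Perm (Fin 15) // relabel σ (cx n35) = cx n35} :=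
  card_aut n35
    [(0, 3), (1, 4), (2, 5), (6, 9), (7, 10), (8, 11)]
    [(0, 2), (1, 3), (0, 4), (1, 5), (6, 8), (7, 9), (6, 10), (7, 11), (12, 14), (12, 13)]
    [(0, 4), (1, 5), (0, 2), (1, 3), (6, 10), (7, 11), (6, 8), (7, 9), (12, 13), (12, 14)]
    (by decide +kernel) (by decide +kernel) (by decide +kernel) (by decide +kernel)
    (by decide +kernel)

end Pool.Agent.H49.TF
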