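import Pool.Agent.H49.TF.Swap
import Pool.Agent.H49.TF.Dat

/-!
Automorphisms of the 70 complexes.
-/

set_option autoImplicit false

namespace Pool.Agent.H49.TF

theorem aut36 : 3 < Nat.card {σ : Equiv.Perm (Fin 15) // relabel σ (cx n36) = cx n36} :=
  card_aut n36
    [(1, 6), (2, 11), (3, 5), (4, 10), (7, 8), (9, 13)]
    [(0, 12), (1, 5), (2, 10), (3, 7), (4, 9), (1, 8), (3, 6), (4, 11), (2, 13), (0, 14)]
    [(0, 14), (1, 8), (2, 13), (3, 6), (4, 11), (1, 5), (3, 7), (4, 9), (2, 10), (0, 12)]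
    (by decide +kernel) (by decide +kernel) (by decide +kernel) (by decide +kernel)
    (by decide +kernel)

theorem aut37 : 3 < Nat.card {σ : Equiv.Perm (Fin 15) // relabel σ (cx n37) = cx n37} :=
  card_aut n37
    [(1, 6), (2, 11), (3, 5), (4, 10), (7, 8), (9, 13)]
    [(0, 12), (1, 5), (2, 10), (3, 7), (4, 9), (1, 8), (3, 6), (4, 11), (2, 13), (0, 14)]
    [(0, 14), (1, 8), (2, 13), (3, 6), (4, 11), (1, 5), (3, 7), (4, 9), (2, 10), (0, 12)]
    (by decide +kernel) (by decide +kernel) (by decide +kernel) (by decide +kernel)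
    (by decide +kernel)

theorem aut38 : 3 < Nat.card {σ : Equiv.Perm (Fin 15) // relabel σ (cx n38) = cx n38} :=
  card_aut n38
    [(0, 7), (1, 8), (2, 9), (3, 10), (4, 11), (5, 6)]
    [(0, 2), (1, 3), (0, 4), (1, 5), (6, 8), (7, 9), (6, 10), (7, 11), (12, 14), (12, 13)]
    [(0, 4), (1, 5), (0, 2), (1, 3), (6, 10), (7, 11), (6, 8), (7, 9), (12, 13), (12, 14)]
    (by decide +kernel) (by decide +kernel) (by decide +kernel) (by decide +kernel)
    (by decide +kernel)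

theorem aut39 : 3 < Nat.card {σ : Equiv.Perm (Fin 15) // relabel σ (cx n39) = cx n39} :=
  card_aut n39
    [(1, 6), (2, 11), (3, 5), (4, 10), (7, 8), (9, 13)]
    [(0, 12), (1, 5), (2, 10), (3, 7), (4, 9), (1, 8), (3, 6), (4, 11), (2, 13), (0, 14)]
    [(0, 14), (1, 8), (2, 13), (3, 6), (4, 11), (1, 5), (3, 7), (4, 9), (2, 10), (0, 12)]
    (by decide +kernel) (by decide +kernel) (by decide +kernel) (by decide +kernel)
    (by decide +kernel)

theorem aut40 : 3 < Nat.card {σ : Equiv.Perm (Fin 15) // relabel σ (cx n40) = cx n40} :=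
  card_aut n40
    [(1, 6), (2, 11), (3, 5), (4, 10), (7, 8), (9, 13)]
    [(0, 12), (1, 5), (2, 10), (3, 7), (4, 9), (1, 8), (3, 6), (4, 11), (2, 13), (0, 14)]
    [(0, 14), (1, 8), (2, 13), (3, 6), (4, 11), (1, 5), (3, 7), (4, 9), (2, 10), (0, 12)]
    (by decide +kernel) (by decide +kernel) (by decide +kernel) (by decide +kernel)
    (by decide +kernel)

theorem aut41 : 3 < Nat.card {σ : Equiv.Perm (Fin 15) // relabel σ (cx n41) = cx n41} :=
  card_aut n41
    [(0, 1), (0, 11), (3, 7), (4, 14), (3, 5), (6, 8), (5, 6), (5, 12), (5, 9), (4, 10), (0, 13),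
    (0, 10)]
    [(0, 4), (1, 14), (3, 9), (0, 13), (5, 12), (3, 6), (5, 7), (7, 8), (6, 8), (10, 11), (0,
    10), (1, 10)]
    [(0, 10), (1, 4), (3, 12), (1, 11), (5, 8), (5, 6), (7, 9), (3, 6), (6, 7), (0, 1), (0, 14),
    (0, 13)]
    (by decide +kernel) (by decide +kernel) (by decide +kernel) (by decide +kernel)
    (by decide +kernel)

theorem aut42 : 3 < Nat.card {σ : Equiv.Perm (Fin 15) // relabel σ (cx n42) = cx n42} :=
  card_aut n42
    [(0, 2), (0, 8), (3, 4), (3, 12), (5, 7), (0, 6), (3, 5), (6, 9), (6, 10), (6, 14), (5, 11),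
    (11, 13)]
    [(0, 6), (0, 2), (3, 7), (3, 4), (5, 11), (2, 14), (4, 5), (2, 8), (8, 9), (9, 10), (4, 13),
    (4, 12)]
    [(0, 8), (2, 9), (3, 12), (4, 13), (3, 5), (2, 6), (4, 7), (0, 10), (6, 14), (0, 6), (7, 11),
    (5, 11)]
    (by decide +kernel) (by decide +kernel) (by decide +kernel) (by decide +kernel)
    (by decide +kernel)

theorem aut43 : 3 < Nat.card {σ : Equiv.Perm (Fin 15) // relabel σ (cx n43) = cx n43} :=
  card_aut n43
    [(0, 2), (0, 8), (3, 4), (3, 12), (5, 7), (0, 6), (3, 5), (6, 9), (6, 10), (6, 14), (5, 11),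
    (11, 13)]
    [(0, 6), (0, 2), (3, 7), (3, 4), (5, 11), (2, 14), (4, 5), (2, 8), (8, 9), (9, 10), (4, 13),
    (4, 12)]
    [(0, 8), (2, 9), (3, 12), (4, 13), (3, 5), (2, 6), (4, 7), (0, 10), (6, 14), (0, 6), (7, 11),
    (5, 11)]
    (by decide +kernel) (by decide +kernel) (by decide +kernel) (by decide +kernel)
    (by decide +kernel)

theorem aut44 : 3 < Nat.card {σ : Equiv.Perm (Fin 15) // relabel σ (cx n44) = cx n44} :=
  card_aut n44
    [(0, 2), (0, 8), (3, 4), (3, 12), (5, 7), (0, 6), (3, 5), (6, 9), (6, 10), (6, 14), (5, 11),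
    (11, 13)]
    [(0, 6), (0, 2), (3, 7), (3, 4), (5, 11), (2, 14), (4, 5), (2, 8), (8, 9), (9, 10), (4, 13),
    (4, 12)]
    [(0, 8), (2, 9), (3, 12), (4, 13), (3, 5), (2, 6), (4, 7), (0, 10), (6, 14), (0, 6), (7, 11),
    (5, 11)]
    (by decide +kernel) (by decide +kernel) (by decide +kernel) (by decide +kernel)
    (by decide +kernel)

theorem aut45 : 3 < Nat.card {σ : Equiv.Perm (Fin 15) // relabel σ (cx n45) = cx n45} :=
  card_aut n45
    [(0, 1), (0, 11), (3, 7), (4, 14), (3, 5), (6, 8), (5, 6), (5, 12), (5, 9), (4, 10), (0, 13),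
    (0, 10)]
    [(0, 4), (1, 14), (3, 9), (0, 13), (5, 12), (3, 6), (5, 7), (7, 8), (6, 8), (10, 11), (0,
    10), (1, 10)]
    [(0, 10), (1, 4), (3, 12), (1, 11), (5, 8), (5, 6), (7, 9), (3, 6), (6, 7), (0, 1), (0, 14),
    (0, 13)]
    (by decide +kernel) (by decide +kernel) (by decide +kernel) (by decide +kernel)
    (by decide +kernel)

theorem aut46 : 3 < Nat.card {σ : Equiv.Perm (Fin 15) // relabel σ (cx n46) = cx n46} :=
  card_aut n46
    [(0, 2), (0, 8), (3, 4), (3, 12), (5, 7), (0, 6), (3, 5), (6, 9), (6, 10), (6, 14), (5, 11),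
    (11, 13)]
    [(0, 6), (0, 2), (3, 7), (3, 4), (5, 11), (2, 14), (4, 5), (2, 8), (8, 9), (9, 10), (4, 13),
    (4, 12)]
    [(0, 8), (2, 9), (3, 12), (4, 13), (3, 5), (2, 6), (4, 7), (0, 10), (6, 14), (0, 6), (7, 11),
    (5, 11)]
    (by decide +kernel) (by decide +kernel) (by decide +kernel) (by decide +kernel)
    (by decide +kernel)

theorem aut47 : 3 < Nat.card {σ : Equiv.Perm (Fin 15) // relabel σ (cx n47) = cx n47} :=
  card_aut n47
    [(0, 2), (0, 8), (3, 4), (3, 12), (5, 7), (0, 6), (3, 5), (6, 9), (6, 10), (6, 14), (5, 11),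
    (11, 13)]
    [(0, 6), (0, 2), (3, 7), (3, 4), (5, 11), (2, 14), (4, 5), (2, 8), (8, 9), (9, 10), (4, 13),
    (4, 12)]
    [(0, 8), (2, 9), (3, 12), (4, 13), (3, 5), (2, 6), (4, 7), (0, 10), (6, 14), (0, 6), (7, 11),
    (5, 11)]
    (by decide +kernel) (by decide +kernel) (by decide +kernel) (by decide +kernel)
    (by decide +kernel)

theorem aut48 : 3 < Nat.card {σ : Equiv.Perm (Fin 15) // relabel σ (cx n48) = cx n48} :=
  card_aut n48
    [(0, 2), (0, 8), (3, 4), (3, 12), (5, 7), (0, 6), (3, 5), (6, 9), (6, 10), (6, 14), (5, 11),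
    (11, 13)]
    [(0, 6), (0, 2), (3, 7), (3, 4), (5, 11), (2, 14), (4, 5), (2, 8), (8, 9), (9, 10), (4, 13),
    (4, 12)]
    [(0, 8), (2, 9), (3, 12), (4, 13), (3, 5), (2, 6), (4, 7), (0, 10), (6, 14), (0, 6), (7, 11),
    (5, 11)]
    (by decide +kernel) (by decide +kernel) (by decide +kernel) (by decide +kernel)
    (by decide +kernel)

theorem aut49 : 3 < Nat.card {σ : Equiv.Perm (Fin 15) // relabel σ (cx n49) = cx n49} :=
  card_aut n49
    [(0, 1), (0, 11), (3, 7), (4, 14), (3, 5), (6, 8), (5, 6), (5, 12), (5, 9), (4, 10), (0, 13),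
    (0, 10)]
    [(0, 4), (1, 14), (3, 9), (0, 13), (5, 12), (3, 6), (5, 7), (7, 8), (6, 8), (10, 11), (0,
    10), (1, 10)]
    [(0, 10), (1, 4), (3, 12), (1, 11), (5, 8), (5, 6), (7, 9), (3, 6), (6, 7), (0, 1), (0, 14),
    (0, 13)]
    (by decide +kernel) (by decide +kernel) (by decide +kernel) (by decide +kernel)
    (by decide +kernel)

theorem aut50 : 3 < Nat.card {σ : Equiv.Perm (Fin 15) // relabel σ (cx n50) = cx n50} :=
  card_aut n50
    [(0, 2), (0, 8), (3, 4), (3, 12), (5, 7), (0, 6), (3, 5), (6, 9), (6, 10), (6, 14), (5, 11),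
    (11, 13)]
    [(0, 6), (0, 2), (3, 7), (3, 4), (5, 11), (2, 14), (4, 5), (2, 8), (8, 9), (9, 10), (4, 13),
    (4, 12)]
    [(0, 8), (2, 9), (3, 12), (4, 13), (3, 5), (2, 6), (4, 7), (0, 10), (6, 14), (0, 6), (7, 11),
    (5, 11)]
    (by decide +kernel) (by decide +kernel) (by decide +kernel) (by decide +kernel)
    (by decide +kernel)

theorem aut51 : 3 < Nat.card {σ : Equiv.Perm (Fin 15) // relabel σ (cx n51) = cx n51} :=
  card_aut n51
    [(0, 2), (0, 8), (3, 4), (3, 12), (5, 7), (0, 6), (3, 5), (6, 9), (6, 10), (6, 14), (5, 11),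
    (11, 13)]
    [(0, 6), (0, 2), (3, 7), (3, 4), (5, 11), (2, 14), (4, 5), (2, 8), (8, 9), (9, 10), (4, 13),
    (4, 12)]
    [(0, 8), (2, 9), (3, 12), (4, 13), (3, 5), (2, 6), (4, 7), (0, 10), (6, 14), (0, 6), (7, 11),
    (5, 11)]
    (by decide +kernel) (by decide +kernel) (by decide +kernel) (by decide +kernel)
    (by decide +kernel)

theorem aut52 : 3 < Nat.card {σ : Equiv.Perm (Fin 15) // relabel σ (cx n52) = cx n52} :=
  card_aut n52
    [(0, 2), (0, 8), (3, 4), (3, 12), (5, 7), (0, 6), (3, 5), (6, 9), (6, 10), (6, 14), (5, 11),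
    (11, 13)]
    [(0, 6), (0, 2), (3, 7), (3, 4), (5, 11), (2, 14), (4, 5), (2, 8), (8, 9), (9, 10), (4, 13),
    (4, 12)]
    [(0, 8), (2, 9), (3, 12), (4, 13), (3, 5), (2, 6), (4, 7), (0, 10), (6, 14), (0, 6), (7, 11),
    (5, 11)]
    (by decide +kernel) (by decide +kernel) (by decide +kernel) (by decide +kernel)
    (by decide +kernel)

theorem aut53 : 3 < Nat.card {σ : Equiv.Perm (Fin 15) // relabel σ (cx n53) = cx n53} :=
  card_aut n53
    [(0, 1), (0, 11), (3, 7), (4, 14), (3, 5), (6, 8), (5, 6), (5, 12), (5, 9), (4, 10), (0, 13),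
    (0, 10)]
    [(0, 4), (1, 14), (3, 9), (0, 13), (5, 12), (3, 6), (5, 7), (7, 8), (6, 8), (10, 11), (0,
    10), (1, 10)]
    [(0, 10), (1, 4), (3, 12), (1, 11), (5, 8), (5, 6), (7, 9), (3, 6), (6, 7), (0, 1), (0, 14),
    (0, 13)]
    (by decide +kernel) (by decide +kernel) (by decide +kernel) (by decide +kernel)
    (by decide +kernel)

end Pool.Agent.H49.TF
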