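import Pool.Agent.H49.TF.Swap
import Pool.Agent.H49.TF.Dat

/-!
Automorphisms of the 70 complexes.
-/

set_option autoImplicit false

namespace Pool.Agent.H49.TF

theorem aut54 : 3 < Nat.card {σ : Equiv.Perm (Fin 15) // relabel σ (cx n54) = cx n54} :=
  card_aut n54
    [(0, 1), (0, 11), (3, 7), (4, 14), (3, 5), (6, 8), (5, 6), (5, 12), (5, 9), (4, 10), (0, 13),
    (0, 10)]
    [(0, 4), (1, 14), (3, 9), (0, 13), (5, 12), (3, 6), (5, 7), (7, 8), (6, 8), (10, 11), (0,
    10), (1, 10)]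
    [(0, 10), (1, 4), (3, 12), (1, 11), (5, 8), (5, 6), (7, 9), (3, 6), (6, 7), (0, 1), (0, 14),
    (0, 13)]
    (by decide +kernel) (by decide +kernel) (by decide +kernel) (by decide +kernel)
    (by decide +kernel)

theorem aut55 : 3 < Nat.card {σ : Equiv.Perm (Fin 15) // relabel σ (cx n55) = cx n55} :=
  card_aut n55
    [(0, 1), (0, 11), (3, 7), (4, 14), (3, 5), (6, 8), (5, 6), (5, 12), (5, 9), (4, 10), (0, 13),
    (0, 10)]
    [(0, 4), (1, 14), (3, 9), (0, 13), (5, 12), (3, 6), (5, 7), (7, 8), (6, 8), (10, 11), (0,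
    10), (1, 10)]
    [(0, 10), (1, 4), (3, 12), (1, 11), (5, 8), (5, 6), (7, 9), (3, 6), (6, 7), (0, 1), (0, 14),
    (0, 13)]
    (by decide +kernel) (by decide +kernel) (by decide +kernel) (by decide +kernel)
    (by decide +kernel)

theorem aut56 : 3 < Nat.card {σ : Equiv.Perm (Fin 15) // relabel σ (cx n56) = cx n56} :=
  card_aut n56
    [(0, 1), (0, 11), (3, 7), (4, 14), (3, 5), (6, 8), (5, 6), (5, 12), (5, 9), (4, 10), (0, 13),
    (0, 10)]
    [(0, 4), (1, 14), (3, 9), (0, 13), (5, 12), (3, 6), (5, 7), (7, 8), (6, 8), (10, 11), (0,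
    10), (1, 10)]
    [(0, 10), (1, 4), (3, 12), (1, 11), (5, 8), (5, 6), (7, 9), (3, 6), (6, 7), (0, 1), (0, 14),
    (0, 13)]
    (by decide +kernel) (by decide +kernel) (by decide +kernel) (by decide +kernel)
    (by decide +kernel)

theorem aut57 : 3 < Nat.card {σ : Equiv.Perm (Fin 15) // relabel σ (cx n57) = cx n57} :=
  card_aut n57
    [(0, 1), (0, 11), (3, 7), (4, 14), (3, 5), (6, 8), (5, 6), (5, 12), (5, 9), (4, 10), (0, 13),
    (0, 10)]
    [(0, 4), (1, 14), (3, 9), (0, 13), (5, 12), (3, 6), (5, 7), (7, 8), (6, 8), (10, 11), (0,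
    10), (1, 10)]
    [(0, 10), (1, 4), (3, 12), (1, 11), (5, 8), (5, 6), (7, 9), (3, 6), (6, 7), (0, 1), (0, 14),
    (0, 13)]
    (by decide +kernel) (by decide +kernel) (by decide +kernel) (by decide +kernel)
    (by decide +kernel)

theorem aut58 : 3 < Nat.card {σ : Equiv.Perm (Fin 15) // relabel σ (cx n58) = cx n58} :=
  card_aut n58
    [(0, 1), (0, 11), (3, 7), (4, 14), (3, 5), (6, 8), (5, 6), (5, 12), (5, 9), (4, 10), (0, 13),
    (0, 10)]
    [(0, 4), (1, 14), (3, 9), (0, 13), (5, 12), (3, 6), (5, 7), (7, 8), (6, 8), (10, 11), (0,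
    10), (1, 10)]
    [(0, 10), (1, 4), (3, 12), (1, 11), (5, 8), (5, 6), (7, 9), (3, 6), (6, 7), (0, 1), (0, 14),
    (0, 13)]
    (by decide +kernel) (by decide +kernel) (by decide +kernel) (by decide +kernel)
    (by decide +kernel)

theorem aut59 : 3 < Nat.card {σ : Equiv.Perm (Fin 15) // relabel σ (cx n59) = cx n59} :=
  card_aut n59
    [(0, 1), (0, 11), (3, 7), (4, 14), (3, 5), (6, 8), (5, 6), (5, 12), (5, 9), (4, 10), (0, 13),
    (0, 10)]
    [(0, 4), (1, 14), (3, 9), (0, 13), (5, 12), (3, 6), (5, 7), (7, 8), (6, 8), (10, 11), (0,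
    10), (1, 10)]
    [(0, 10), (1, 4), (3, 12), (1, 11), (5, 8), (5, 6), (7, 9), (3, 6), (6, 7), (0, 1), (0, 14),
    (0, 13)]
    (by decide +kernel) (by decide +kernel) (by decide +kernel) (by decide +kernel)
    (by decide +kernel)

theorem aut60 : 3 < Nat.card {σ : Equiv.Perm (Fin 15) // relabel σ (cx n60) = cx n60} :=
  card_aut n60
    [(1, 3), (2, 13), (4, 5), (6, 14), (7, 12), (9, 11)]
    [(0, 1), (2, 12), (4, 8), (6, 7), (9, 10), (13, 14)]
    [(0, 3), (2, 6), (5, 8), (7, 13), (10, 11), (12, 14)]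
    (by decide +kernel) (by decide +kernel) (by decide +kernel) (by decide +kernel)
    (by decide +kernel)

theorem aut61 : 3 < Nat.card {σ : Equiv.Perm (Fin 15) // relabel σ (cx n61) = cx n61} :=
  card_aut n61
    [(1, 3), (2, 13), (4, 5), (6, 14), (7, 12), (9, 11)]
    [(0, 1), (2, 12), (4, 8), (6, 7), (9, 10), (13, 14)]
    [(0, 3), (2, 6), (5, 8), (7, 13), (10, 11), (12, 14)]
    (by decide +kernel) (by decide +kernel) (by decide +kernel) (by decide +kernel)
    (by decide +kernel)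

theorem aut62 : 3 < Nat.card {σ : Equiv.Perm (Fin 15) // relabel σ (cx n62) = cx n62} :=
  card_aut n62
    [(1, 8), (2, 11), (3, 7), (4, 13), (9, 10), (12, 14)]
    [(0, 12), (2, 4), (3, 6), (5, 8), (9, 13), (10, 11)]
    [(0, 14), (1, 5), (2, 9), (4, 10), (6, 7), (11, 13)]
    (by decide +kernel) (by decide +kernel) (by decide +kernel) (by decide +kernel)
    (by decide +kernel)

theorem aut63 : 3 < Nat.card {σ : Equiv.Perm (Fin 15) // relabel σ (cx n63) = cx n63} :=
  card_aut n63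
    [(1, 3), (2, 7), (4, 5), (6, 10), (9, 12), (11, 13)]
    [(0, 1), (4, 8), (6, 9), (7, 14), (10, 13), (11, 12)]
    [(0, 3), (2, 14), (5, 8), (6, 11), (9, 13), (10, 12)]
    (by decide +kernel) (by decide +kernel) (by decide +kernel) (by decide +kernel)
    (by decide +kernel)

theorem aut64 : 3 < Nat.card {σ : Equiv.Perm (Fin 15) // relabel σ (cx n64) = cx n64} :=
  card_aut n64
    [(1, 3), (2, 7), (4, 5), (6, 10), (9, 12), (11, 13)]
    [(0, 1), (4, 8), (6, 9), (7, 14), (10, 13), (11, 12)]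
    [(0, 3), (2, 14), (5, 8), (6, 11), (9, 13), (10, 12)]
    (by decide +kernel) (by decide +kernel) (by decide +kernel) (by decide +kernel)
    (by decide +kernel)

theorem aut65 : 3 < Nat.card {σ : Equiv.Perm (Fin 15) // relabel σ (cx n65) = cx n65} :=
  card_aut n65
    [(1, 3), (2, 7), (4, 5), (6, 10), (9, 12), (11, 13)]
    [(0, 1), (4, 8), (6, 9), (7, 14), (10, 13), (11, 12)]
    [(0, 3), (2, 14), (5, 8), (6, 11), (9, 13), (10, 12)]
    (by decide +kernel) (by decide +kernel) (by decide +kernel) (by decide +kernel)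
    (by decide +kernel)

theorem aut66 : 3 < Nat.card {σ : Equiv.Perm (Fin 15) // relabel σ (cx n66) = cx n66} :=
  card_aut n66
    [(1, 3), (2, 7), (4, 5), (6, 10), (9, 12), (11, 13)]
    [(0, 1), (4, 8), (6, 9), (7, 14), (10, 13), (11, 12)]
    [(0, 3), (2, 14), (5, 8), (6, 11), (9, 13), (10, 12)]
    (by decide +kernel) (by decide +kernel) (by decide +kernel) (by decide +kernel)
    (by decide +kernel)

theorem aut67 : 3 < Nat.card {σ : Equiv.Perm (Fin 15) // relabel σ (cx n67) = cx n67} :=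
  card_aut n67
    [(1, 10), (2, 5), (3, 7), (4, 9), (8, 13), (12, 14)]
    [(0, 12), (1, 13), (2, 8), (3, 6), (4, 11), (5, 10)]
    [(0, 14), (1, 2), (5, 13), (6, 7), (8, 10), (9, 11)]
    (by decide +kernel) (by decide +kernel) (by decide +kernel) (by decide +kernel)
    (by decide +kernel)

theorem aut68 : 3 < Nat.card {σ : Equiv.Perm (Fin 15) // relabel σ (cx n68) = cx n68} :=
  card_aut n68
    [(1, 8), (2, 11), (3, 7), (4, 13), (9, 10), (12, 14)]
    [(0, 12), (2, 4), (3, 6), (5, 8), (9, 13), (10, 11)]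
    [(0, 14), (1, 5), (2, 9), (4, 10), (6, 7), (11, 13)]
    (by decide +kernel) (by decide +kernel) (by decide +kernel) (by decide +kernel)
    (by decide +kernel)

theorem aut69 : 3 < Nat.card {σ : Equiv.Perm (Fin 15) // relabel σ (cx n69) = cx n69} :=
  card_aut n69
    [(1, 8), (2, 11), (3, 7), (4, 13), (9, 10), (12, 14)]
    [(0, 12), (2, 4), (3, 6), (5, 8), (9, 13), (10, 11)]
    [(0, 14), (1, 5), (2, 9), (4, 10), (6, 7), (11, 13)]
    (by decide +kernel) (by decide +kernel) (by decide +kernel) (by decide +kernel)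
    (by decide +kernel)

end Pool.Agent.H49.TF
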