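import Pool.Agent.H49.TF.Bits

/-!
Basic facts on masks and bitsets.
-/

set_option autoImplicit false

namespace Pool.Agent.H49.TF

open Finset

theorem code_lt_of {s : Finset (Fin 15)} {n : ℕ} (h : ∀ i ∈ s, (i : ℕ) < n) : code s < 2 ^ n := by
  have : code s = ∑ k ∈ s.map Fin.valEmbedding, 2 ^ k := by simp [code]
  rw [this]
  refine Nat.geomSum_lt le_rfl ?_
  intro k hk
  simp only [mem_map, Fin.valEmbedding_apply] at hk
  obtain ⟨i, hi, rfl⟩ := hk
  exact h i hi

theorem code_lt (s : Finset (Fin 15)) : code s < 32768 := by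
  have := code_lt_of (s := s) (n := 15) fun i _ => i.2
  simpa using this

theorem code_insert_max {s : Finset (Fin 15)} {a : Fin 15} (h : ∀ i ∈ s, i < a) :
    code (insert a s) = 2 ^ (a : ℕ) ||| code s := by
  have ha : a ∉ s := fun h' => lt_irrefl _ (h a h')
  have hlt : code s < 2 ^ (a : ℕ) := code_lt_of fun i hi => h i hi
  have := Nat.two_pow_add_eq_or_of_lt hlt 1
  rw [code, sum_insert ha, ← code]
  simpa using this

theorem testBit_code (s : Finset (Fin 15)) (i : Fin 15) :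
    (code s).testBit (i : ℕ) = decide (i ∈ s) := by
  induction s using Finset.induction_on_max with
  | empty => simp [code]
  | insert a s h ih =>
    rw [code_insert_max h, Nat.testBit_or, ih, Nat.testBit_two_pow]
    by_cases hia : i = a
    · subst hia; simp
    · have : (a : ℕ) ≠ i := fun h' => hia (Fin.ext h'.symm)
      simp [hia, this]

theorem testBit_code_ge (s : Finset (Fin 15)) {i : ℕ} (hi : 15 ≤ i) :
    (code s).testBit i = false := by
  apply Nat.testBit_lt_two_pow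
  calc code s < 32768 := code_lt s
    _ = 2 ^ 15 := by norm_num
    _ ≤ 2 ^ i := Nat.pow_le_pow_right (by norm_num) hi

theorem mem_dec {m : ℕ} {i : Fin 15} : i ∈ dec m ↔ m.testBit i = true := by
  simp [dec]

theorem dec_code (s : Finset (Fin 15)) : dec (code s) = s := by
  ext i
  rw [mem_dec, testBit_code]
  simp

theorem code_dec {m : ℕ} (h : m < 32768) : code (dec m) = m := by
  apply Nat.eq_of_testBit_eq
  intro i
  by_cases hi : i < 15
  · have := testBit_code (dec m) ⟨i, hi⟩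
    simp only [mem_dec] at this
    rw [this]
    simp
  · rw [testBit_code_ge _ (not_lt.mp hi)]
    symm
    apply Nat.testBit_lt_two_pow
    calc m < 32768 := h
      _ = 2 ^ 15 := by norm_num
      _ ≤ 2 ^ i := Nat.pow_le_pow_right (by norm_num) (not_lt.mp hi)

theorem code_inj {s t : Finset (Fin 15)} : code s = code t ↔ s = t :=
  ⟨fun h => by rw [← dec_code s, h, dec_code], fun h => by rw [h]⟩

theorem mem_cx {N : ℕ} {f : Finset (Fin 15)} : f ∈ cx N ↔ N.testBit (code f) = true := by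
  simp [cx]

/-- periodic repetition -/
theorem testBit_rep (p c : ℕ) (hc : c < 2 ^ p) (K m : ℕ) :
    (c * ((2 ^ (p * K) - 1) / (2 ^ p - 1))).testBit m =
      (decide (m < p * K) && c.testBit (m % p)) := by
  rcases Nat.eq_zero_or_pos p with rfl | hp
  · simp
  have h2 : 2 ≤ 2 ^ p := by
    calc 2 = 2 ^ 1 := by norm_num
      _ ≤ 2 ^ p := Nat.pow_le_pow_right (by norm_num) hp
  have hgeom : ∀ K, (2 ^ (p * K) - 1) / (2 ^ p - 1) = ∑ j ∈ range K, (2 ^ p) ^ j := by
    intro K
    rw [Nat.geomSum_eq h2, pow_mul]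
  rw [hgeom]
  induction K generalizing m with
  | zero => simp
  | succ K ih =>
    have : c * ∑ j ∈ range (K + 1), (2 ^ p) ^ j
        = 2 ^ p * (c * ∑ j ∈ range K, (2 ^ p) ^ j) + c := by
      rw [sum_range_succ', mul_add]
      simp only [pow_succ, pow_zero, mul_one, ← sum_mul]
      ring
    rw [this, Nat.testBit_two_pow_mul_add _ hc]
    split_ifs with hm
    · have h1 : m < p * (K + 1) := by nlinarith
      rw [Nat.mod_eq_of_lt hm]
      simp [h1]
    · rw [ih (m - p)]
      have hm' : p ≤ m := not_lt.mp hm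
      congr 1
      · rw [decide_eq_decide, mul_add, mul_one]
        omega
      · congr 1
        rw [← Nat.mod_eq_sub_mod hm']

theorem Mf_eq {i K : ℕ} (hK : 2 ^ (i + 1) * K = 32768) :
    Mf i = ((2 ^ (2 ^ i) - 1) * 2 ^ (2 ^ i)) *
      ((2 ^ (2 ^ (i + 1) * K) - 1) / (2 ^ (2 ^ (i + 1)) - 1)) := by
  rw [hK]; rfl

theorem testBit_Mf {i : ℕ} (hi : i < 15) (m : ℕ) :
    (Mf i).testBit m = (decide (m < 32768) && m.testBit i) := by
  have hK : 2 ^ (i + 1) * 2 ^ (14 - i) = 32768 := by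
    rw [← pow_add]
    have : i + 1 + (14 - i) = 15 := by omega
    rw [this]; norm_num
  have hc : (2 ^ (2 ^ i) - 1) * 2 ^ (2 ^ i) < 2 ^ (2 ^ (i + 1)) := by
    have h1 : 2 ^ (2 ^ (i + 1)) = 2 ^ (2 ^ i) * 2 ^ (2 ^ i) := by
      rw [← pow_add]; congr 1; rw [pow_succ]; ring
    rw [h1]
    apply Nat.mul_lt_mul_of_pos_right
    · have : 0 < 2 ^ (2 ^ i) := by positivity
      omega
    · positivity
  have := testBit_rep (2 ^ (i + 1)) ((2 ^ (2 ^ i) - 1) * 2 ^ (2 ^ i)) hc (2 ^ (14 - i)) m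
  rw [Mf_eq hK, this, hK]
  congr 1
  rw [Nat.testBit_mul_two_pow, Nat.testBit_two_pow_sub_one, Nat.testBit_eq_decide_div_mod_eq]
  have hmod : m % 2 ^ (i + 1) < 2 ^ (i + 1) := Nat.mod_lt _ (by positivity)
  have hp : 2 ^ (i + 1) = 2 * 2 ^ i := by rw [pow_succ]; ring
  have hpos : 0 < 2 ^ i := by positivity
  have h2 : m / 2 ^ i % 2 = m % 2 ^ (i + 1) / 2 ^ i := by
    rw [hp, mul_comm 2, Nat.mod_mul_right_div_self]
  rw [h2]
  rw [hp] at hmod ⊢
  set r := m % (2 * 2 ^ i)
  have h3 : r / 2 ^ i = 1 ↔ 2 ^ i ≤ r := by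
    rw [Nat.div_eq_iff hpos]
    constructor
    · rintro ⟨h, _⟩; linarith
    · intro h; constructor <;> omega
  by_cases hr : 2 ^ i ≤ r
  · simp only [hr, h3.mpr hr, decide_true, Bool.true_and]
    rw [decide_eq_true_iff]; omega
  · have : ¬ r / 2 ^ i = 1 := fun h => hr (h3.mp h)
    simp [hr, this]

end Pool.Agent.H49.TF
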