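import Pool.Agent.H49.TF.Euler
import Pool.Agent.H49.TF.Link1
import Pool.Agent.H49.TF.Link2
import Pool.Agent.H49.TF.Link3

/-!
The complex `n30` is a combinatorial 8-manifold with Euler characteristic 3.
-/

set_option autoImplicit false

namespace Pool.Agent.H49.TF

open Finset

/-- the bitset of a list of masks -/
def orL (l : List ℕ) : ℕ := l.foldr (fun m acc => acc ||| 1 <<< m) 0

theorem testBit_orL (l : List ℕ) (m : ℕ) : (orL l).testBit m = true ↔ m ∈ l := by
  induction l with
  | nil => simp [orL]
  | cons a l ih =>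
    have : orL (a :: l) = orL l ||| 1 <<< a := rfl
    rw [this, Nat.testBit_or, Bool.or_eq_true, ih, Nat.one_shiftLeft, Nat.testBit_two_pow,
      List.mem_cons, decide_eq_true_eq, eq_comm (a := a)]
    tauto

/-- the masks of the facets of `n30` -/
def FL : List ℕ := [
  1407, 2751, 4053, 4074, 4575, 4990, 5054, 5311, 5343, 5367, 5439, 5471, 5502, 5595, 5597, 5819,
  5822, 5998, 6099, 6335, 6463, 6559, 6575, 6590, 6775, 6839, 6843, 6901, 6999, 7030, 7034, 7063,
  7094, 7098, 7125, 7130, 7145, 7156, 7160, 7287, 7479, 7483, 7485, 7511, 7542, 7546, 7579, 7581,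
  7595, 7629, 7637, 7642, 7644, 7739, 7835, 7851, 7898, 8007, 8013, 8019, 8038, 8042, 8083, 8099,
  8105, 8106, 8137, 8138, 8145, 8146, 8575, 8831, 9055, 9085, 9086, 9150, 9455, 9583, 9591, 9707,
  9917, 9965, 9966, 9973, 10045, 10093, 10094, 10101, 10195, 10217, 10218, 10225, 10228, 10479,
  10559, 10671, 10686, 10815, 10863, 10871, 10875, 10941, 10942, 10989, 10990, 10997, 11095,
  11126, 11130, 11190, 11194, 11226, 11242, 11252, 11256, 11383, 11575, 11581, 11607, 11638,
  11764, 11933, 11981, 11982, 11989, 11994, 12006, 12103, 12115, 12117, 12134, 12198, 12242,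
  12244, 12258, 12260, 12719, 13214, 13230, 13244, 13267, 13274, 13289, 13304, 13487, 13501,
  13519, 13543, 13557, 13615, 13647, 13739, 13771, 13998, 14009, 14012, 14035, 14042, 14126,
  14151, 14157, 14158, 14249, 14250, 14275, 14281, 14282, 14525, 14581, 14759, 14765, 14780,
  14840, 15033, 15081, 15089, 15096, 15421, 15463, 15475, 15477, 15517, 15565, 15573, 15655,
  15661, 15676, 15943, 15949, 15955, 15962, 16025, 16073, 16081, 16088, 16135, 16863, 17023,
  17087, 17247, 17277, 17535, 17599, 17631, 17647, 17655, 17787, 17789, 17883, 17885, 17899,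
  18107, 18109, 18110, 18157, 18158, 18165, 18237, 18285, 18293, 18389, 18409, 18417, 18420,
  18671, 18847, 19055, 19067, 19103, 19119, 19181, 19182, 19351, 19433, 19771, 19834, 19867,
  19869, 19883, 19917, 19930, 19932, 19946, 19956, 20027, 20123, 20125, 20139, 20173, 20174,
  20198, 20202, 20301, 20371, 20373, 20387, 20390, 20393, 20421, 20425, 20452, 20456, 20727,
  20943, 20951, 20958, 21111, 21118, 21175, 21237, 21335, 21342, 21372, 21399, 21461, 21492,
  21630, 21726, 21747, 21750, 21884, 22078, 22126, 22174, 22195, 22198, 22380, 22435, 22989,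
  23004, 23017, 23028, 23143, 23155, 23162, 23207, 23269, 23373, 23401, 23431, 23459, 23462,
  23493, 23521, 23524, 23674, 23772, 23900, 23924, 23928, 24115, 24121, 24122, 24166, 24170,
  24333, 24355, 24358, 24361, 24396, 24420, 24424, 24955, 25067, 25375, 25423, 25435, 25465,
  25585, 25971, 26067, 26083, 26097, 26397, 26425, 26428, 26515, 26534, 26545, 26548, 26747,
  26831, 26855, 26859, 26911, 26939, 27002, 27023, 27038, 27051, 27098, 27114, 27167, 27215,
  27227, 27257, 27294, 27415, 27542, 27854, 27866, 27878, 27892, 27933, 27955, 27961, 28018,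
  28070, 28084, 28114, 28130, 28144, 28189, 28238, 28302, 28314, 28316, 28435, 28437, 28550,
  28562, 28564, 28879, 28903, 29007, 29071, 29086, 29131, 29139, 29146, 29161, 29342, 29425,
  29470, 29500, 29511, 29517, 29518, 29523, 29530, 29545, 29560, 29587, 29590, 29606, 29620,
  29649, 29665, 29680, 29811, 29902, 29907, 29914, 29923, 29926, 29937, 29940, 30012, 30115,
  30265, 30268, 30286, 30350, 30355, 30362, 30364, 30374, 30385, 30388, 30477, 30502, 30505,
  30508, 30595, 30625, 30626, 30823, 30835, 30887, 30925, 30949, 30953, 30964, 31096, 31111,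
  31117, 31132, 31139, 31142, 31145, 31156, 31192, 31208, 31216, 31289, 31303, 31309, 31315,
  31322, 31337, 31345, 31352, 31495, 31795, 31801, 31834, 31846, 31858, 31860, 31900, 31948,
  31956, 31960, 32013, 32028, 32035, 32038, 32041, 32052, 32056, 32269, 32275, 32281, 32282,
  32326, 32330, 32332, 32515, 32517, 32518]

theorem orFL : orL FL = n30 := by decide +kernel

theorem popFL : ∀ m ∈ FL, pop m = 9 := by decide +kernel

theorem card_base : ∀ f ∈ cx n30, f.card = 9 := by
  intro f hf
  rw [mem_cx, ← orFL, testBit_orL] at hf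
  have := popFL _ hf
  rwa [pop_eq, dec_code] at this

theorem nbase_lt : n30 < 2 ^ 32768 := by decide +kernel

theorem euler_base : (cloN n30).testBit 0 = true ∧ altN 15 (cloN n30) = -2 := by decide +kernel

theorem link_base : ∀ v : Fin 15, PLSphere 7 (vLink v (cx n30)) := by
  intro v
  rw [vLink_cx nbase_lt]
  fin_cases v
  · exact runB_sound _ _ _ lk0 (simplex_sound (by norm_num) pS0)
  · exact runB_sound _ _ _ lk1 (simplex_sound (by norm_num) pS1)
  · exact runB_sound _ _ _ lk2 (simplex_sound (by norm_num) pS2)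
  · exact runB_sound _ _ _ lk3 (simplex_sound (by norm_num) pS3)
  · exact runB_sound _ _ _ lk4 (simplex_sound (by norm_num) pS4)
  · exact runB_sound _ _ _ lk5 (simplex_sound (by norm_num) pS5)
  · exact runB_sound _ _ _ lk6 (simplex_sound (by norm_num) pS6)
  · exact runB_sound _ _ _ lk7 (simplex_sound (by norm_num) pS7)
  · exact runB_sound _ _ _ lk8 (simplex_sound (by norm_num) pS8)
  · exact runB_sound _ _ _ lk9 (simplex_sound (by norm_num) pS9)
  · exact runB_sound _ _ _ lk10 (simplex_sound (by norm_num) pS10)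
  · exact runB_sound _ _ _ lk11 (simplex_sound (by norm_num) pS11)
  · exact runB_sound _ _ _ lk12 (simplex_sound (by norm_num) pS12)
  · exact runB_sound _ _ _ lk13 (simplex_sound (by norm_num) pS13)
  · exact runB_sound _ _ _ lk14 (simplex_sound (by norm_num) pS14)

theorem inM_base : InM (cx n30) := by
  refine ⟨card_base, link_base, ?_⟩
  rw [eulerChar_cx nbase_lt euler_base.1, euler_base.2]
  norm_num

end Pool.Agent.H49.TF
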