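import Pool.Agent.H49.TF.Defs

/-!
Bitsets: a set of vertices is a mask `m < 2 ^ 15`, a complex is one number `N < 2 ^ 32768` whose
bit `m` says whether the set with mask `m` is a facet. This file has the definitions only.
-/

set_option autoImplicit false

namespace Pool.Agent.H49.TF

open Finset

/-- the mask of a set -/
def code (s : Finset (Fin 15)) : ℕ := ∑ i ∈ s, 2 ^ (i : ℕ)

/-- the set of a mask -/
def dec (m : ℕ) : Finset (Fin 15) := univ.filter fun i => m.testBit i

/-- the complex of a bitset -/
def cx (N : ℕ) : Cx := univ.filter fun f => N.testBit (code f)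

/-- the bitset of all masks containing the bit `i` -/
def Mf (i : ℕ) : ℕ :=
  ((2 ^ (2 ^ i) - 1) * 2 ^ (2 ^ i)) * ((2 ^ 32768 - 1) / (2 ^ (2 ^ (i + 1)) - 1))

/-- the bitset of all masks containing `A` -/
def supM (A : ℕ) : ℕ :=
  (List.range 15).foldl (fun acc i => if A.testBit i then acc &&& Mf i else acc) (2 ^ 32768 - 1)

/-- the bitset of `A * ∂B` -/
def jb (A B : ℕ) : ℕ :=
  (List.range 15).foldl
    (fun acc i => if B.testBit i then acc ||| (1 <<< (A + (B - 2 ^ i))) else acc) 0

/-- number of elements of a mask -/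
def pop (A : ℕ) : ℕ := ((List.range 15).filter fun i => A.testBit i).length

/-- `(A, B, C)` is a distinguished triple -/
def tripleOk (N A B C : ℕ) : Bool :=
  decide (A < 32768) && decide (B < 32768) && decide (C < 32768) &&
    pop A == 5 && pop B == 5 && pop C == 5 && A &&& B == 0 && B &&& C == 0 && A &&& C == 0 &&
    N &&& supM A == jb A B && N &&& supM B == jb B C && N &&& supM C == jb C A

/-- the triple flip -/
def flipN (N A B C : ℕ) : ℕ :=
  (N ^^^ (jb A B ||| jb B C ||| jb C A)) ||| (jb B A ||| jb C B ||| jb A C)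

/-- a sequence of triple flips; `C` is the complement of `A` and `B` -/
def run : List (ℕ × ℕ) → ℕ → Option ℕ
  | [], N => some N
  | (A, B) :: l, N =>
    if tripleOk N A B (32767 - A - B) then run l (flipN N A B (32767 - A - B)) else none

/-- one bistellar flip of a 7-dimensional complex -/
def bistOk (L A B : ℕ) : Bool :=
  decide (A < 32768) && decide (B < 32768) && A != 0 && B != 0 && A &&& B == 0 &&
    pop A + pop B == 9 && L &&& supM A == jb A B && L &&& supM B == 0

/-- a sequence of bistellar flips -/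
def runB : List (ℕ × ℕ) → ℕ → Option ℕ
  | [], L => some L
  | (A, B) :: l, L =>
    if bistOk L A B then runB l ((L ^^^ jb A B) ||| jb B A) else none

/-- the link of the vertex `v` -/
def lkN (v N : ℕ) : ℕ := (N &&& Mf v) >>> 2 ^ v

/-- exchanging the vertices `i < j` -/
def swapN (i j N : ℕ) : ℕ :=
  (N ^^^ (N &&& (Mf i ^^^ Mf j))) |||
    ((N &&& (Mf i ^^^ (Mf i &&& Mf j))) <<< (2 ^ j - 2 ^ i)) |||
    ((N &&& (Mf j ^^^ (Mf i &&& Mf j))) >>> (2 ^ j - 2 ^ i))

/-- a sequence of exchanges -/
def swapsN : List (ℕ × ℕ) → ℕ → ℕ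
  | [], N => N
  | (i, j) :: l, N => swapsN l (swapN i j N)

/-- the list of the masks in a bitset of length `2 ^ k`, shifted by `o` -/
def toL : ℕ → ℕ → ℕ → List ℕ
  | 0, N, o => if N % 2 = 1 then [o] else []
  | k + 1, N, o => if N = 0 then [] else
      toL k (N % 2 ^ (2 ^ k)) o ++ toL k (N >>> 2 ^ k) (o + 2 ^ k)

/-- the masks with three elements -/
def T3 : List ℕ := (List.range 32768).filter fun m => pop m = 3

/-- the invariant: the sum of the fourth powers of the degrees of the 3-sets -/
def invN (T : List ℕ) (L : List ℕ) : ℕ :=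
  (T.map fun t => (L.filter fun m => m &&& t == t).length ^ 4).sum

end Pool.Agent.H49.TF
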