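import Pool.Agent.H49.TF.Bits
import Pool.Agent.H49.TF.Dat

/-!
Paths of triple flips between the 70 complexes.
-/

set_option autoImplicit false

namespace Pool.Agent.H49.TF

theorem run26 : run [
  (2243, 24620), (2140, 21888), (16568, 1543), (6158, 433), (19521, 908), (8644, 3632)]
    n30 = some n26 := by decide +kernel

theorem run29 : run [
  (1414, 27168), (2828, 21569), (2401, 21128), (4619, 3248), (18476, 707), (16677, 1624)]
    n30 = some n29 := by decide +kernel

theorem run27 : run [
  (1414, 27168), (3116, 12561), (1624, 14466), (2401, 21128), (11016, 242), (7328, 779)]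
    n26 = some n27 := by decide +kernel

theorem run33 : run [
  (2243, 5904), (908, 19521), (3632, 8644), (17288, 3169), (6338, 1816), (11808, 454)]
    n26 = some n33 := by decide +kernel

theorem run35 : run [
  (1547, 18608), (21776, 2156), (22658, 805), (14880, 217), (25224, 3094), (25665, 434)]
    n29 = some n35 := by decide +kernel

theorem run48 : run [
  (1624, 16677), (2401, 9238), (2140, 21888), (1816, 24613), (9496, 18469), (433, 26176),
  (2380, 21633), (12310, 17288), (6155, 1456), (1558, 20648), (1444, 27200), (5652, 24744),
  (12820, 16808), (6282, 1840), (722, 11528), (25154, 4377), (2258, 25864), (4125, 11424),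
  (7298, 817), (12564, 18600), (8754, 21633), (2380, 21633)]
    n29 = some n48 := by decide +kernel

theorem run28 : run [
  (18753, 4748), (16684, 5712), (18516, 5536), (18992, 4171), (8593, 17986), (10568, 16562)]
    n27 = some n28 := by decide +kernel

theorem run31 : run [
  (2840, 4322), (217, 17670), (25224, 3094), (12372, 3233), (20753, 710), (22658, 805)]
    n27 = some n31 := by decide +kernel

theorem run34 : run [
  (908, 19521), (3632, 8644), (24620, 2243), (21888, 2140), (26176, 433), (14656, 1543)]
    n27 = some n34 := by decide +kernel

theorem run47 : run [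
  (817, 7298), (25864, 2258), (2385, 5764), (19024, 4139), (21633, 2380), (8342, 19208),
  (1648, 24709)]
    n48 = some n47 := by decide +kernel

theorem run32 : run [
  (2840, 4322), (217, 17670), (805, 9304), (3233, 17162), (25224, 3094), (20753, 710)]
    n28 = some n32 := by decide +kernel

theorem run38 : run [
  (908, 19521), (2140, 8739), (26176, 433), (14656, 1543), (20491, 3632), (24620, 2243)]
    n31 = some n38 := by decide +kernel

theorem run50 : run [
  (20517, 11528), (2140, 8739), (18992, 5131), (24713, 6466), (25160, 4401), (3153, 12932),
  (2825, 5344)]
    n47 = some n50 := by decide +kernel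

theorem run42 : run [
  (4748, 16690), (433, 3086), (484, 23056), (21776, 2156), (1564, 26753), (905, 13408),
  (4802, 18469)]
    n50 = some n42 := by decide +kernel

theorem run43 : run [
  (20617, 2374), (24680, 6417), (18984, 5187), (2257, 12836), (6920, 1264), (16978, 4141),
  (23680, 8284)]
    n42 = some n43 := by decide +kernel

theorem run44 : run [
  (1700, 24649), (17800, 2133), (5201, 9092), (4235, 10564), (242, 28677), (2849, 21696),
  (16984, 4389)]
    n43 = some n44 := by decide +kernel

theorem run52 : run [
  (9496, 18469), (484, 9227), (13408, 905), (1564, 4450), (8835, 2156), (433, 29248),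
  (16690, 4748)]
    n43 = some n52 := by decide +kernel

theorem run46 : run [
  (2156, 21776), (26753, 1564), (11329, 16690), (18469, 4802), (13408, 905), (433, 29248),
  (9227, 23056)]
    n44 = some n46 := by decide +kernel

end Pool.Agent.H49.TF
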