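import Pool.Agent.H49.TF.Bits
import Pool.Agent.H49.TF.Dat

/-!
Paths of triple flips between the 70 complexes.
-/

set_option autoImplicit false

namespace Pool.Agent.H49.TF

theorem run51 : run [
  (6928, 1252), (16777, 2134), (5393, 8838), (29188, 3338), (5314, 8476), (4237, 11584),
  (27776, 604)]
    n46 = some n51 := by decide +kernel

theorem run69 : run [
  (1617, 24964), (23056, 9227), (16777, 2134), (24649, 1700), (29188, 3338), (721, 28932),
  (4237, 11584), (31232, 1291), (4237, 16946), (1039, 16624), (2404, 22032), (604, 4387),
  (10386, 17224), (8432, 6920), (11584, 16946), (8624, 23048), (1670, 6417), (30208, 395),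
  (24680, 6417), (29186, 409), (3210, 16977), (1095, 23048), (8624, 23048), (12578, 19592),
  (19588, 849), (9283, 16816), (13600, 18569), (12930, 1305)]
    n46 = some n69 := by decide +kernel

theorem run62 : run [
  (6418, 1700), (18569, 13600), (2849, 8222), (4237, 16946), (3624, 4305), (10640, 21064)]
    n69 = some n62 := by decide +kernel

theorem run68 : run [
  (2187, 628), (6417, 24680), (18977, 5314), (21010, 397), (3848, 24583), (10386, 5157)]
    n69 = some n68 := by decide +kernel

theorem run67 : run [
  (21064, 10640), (6418, 24649), (16946, 4237), (21064, 1063), (6417, 24680), (21010, 397),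
  (17000, 1159), (2849, 21696), (2441, 13408), (6666, 9297), (457, 13856), (16616, 1047),
  (425, 30208), (16490, 5141), (18608, 12812), (16804, 9297), (5314, 8476), (1347, 12812),
  (4306, 24844), (4298, 26884), (16442, 5253), (4546, 26629), (929, 29760), (6466, 24589)]
    n62 = some n67 := by decide +kernel

theorem run37 : run [
  (19600, 835), (841, 13348), (24589, 6466), (6668, 16816), (8785, 6186), (25860, 625),
  (6920, 16624), (29760, 929), (29760, 2078), (18577, 844), (1305, 12930), (4689, 3210),
  (1816, 12482), (23048, 8432), (929, 2078), (21064, 8624), (4305, 3114), (29186, 2164),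
  (5393, 10882), (18453, 1864), (16442, 11072), (18569, 838), (31232, 244), (5649, 10378)]
    n67 = some n37 := by decide +kernel

theorem run57 : run [
  (29760, 929), (30208, 425), (457, 18454), (12812, 1347), (1305, 12930), (1816, 12482),
  (5393, 10882), (24589, 6466), (5253, 16442), (9297, 16804), (25665, 932), (4294, 18977),
  (19588, 12330), (12301, 3394), (6157, 17730), (16918, 13408), (4684, 1315), (21010, 11360),
  (19592, 12578), (8250, 2881)]
    n67 = some n57 := by decide +kernel

theorem run36 : run [
  (8771, 6188)]
    n37 = some n36 := by decide +kernel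

theorem run56 : run [
  (3210, 12580), (11360, 21010), (16675, 10448), (9496, 18977), (692, 6155), (10882, 5393),
  (21648, 8235)]
    n57 = some n56 := by decide +kernel

theorem run59 : run [
  (17730, 6157), (29186, 3172), (12578, 19592), (8476, 20674), (17512, 6417), (7688, 8401),
  (21636, 2881)]
    n57 = some n59 := by decide +kernel

theorem run39 : run [
  (3114, 4305), (8624, 21064), (27264, 124), (5656, 10434), (2133, 1928), (13360, 838)]
    n36 = some n39 := by decide +kernel

end Pool.Agent.H49.TF
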