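import Pool.Agent.H49.TF.Bits
import Pool.Agent.H49.TF.Dat

/-!
Paths of triple flips between the 70 complexes.
-/

set_option autoImplicit false

namespace Pool.Agent.H49.TF

theorem run40 : run [
  (1712, 6466), (3172, 8585), (9496, 4294), (6417, 8838), (5253, 11072), (29760, 2078)]
    n36 = some n40 := by decide +kernel

theorem run55 : run [
  (16490, 11136), (22024, 419), (13408, 16918), (25860, 689), (18469, 12482), (3904, 20656),
  (12592, 16969)]
    n56 = some n55 := by decide +kernel

theorem run49 : run [
  (6338, 1585), (18569, 598), (30208, 2164), (3394, 12301), (5253, 11072), (16489, 14608),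
  (5656, 8387)]
    n59 = some n49 := by decide +kernel

theorem run54 : run [
  (21640, 8483), (12930, 1305), (25696, 662), (19009, 5254), (3680, 20626), (721, 7178),
  (16738, 10896)]
    n55 = some n54 := by decide +kernel

theorem run53 : run [
  (2849, 8222), (8866, 17736), (20770, 3720), (3109, 8600), (25094, 3176), (6665, 8432),
  (19588, 849)]
    n49 = some n53 := by decide +kernel

theorem run19 : run [
  (3114, 25348), (14346, 16804), (22538, 932), (6409, 662), (16568, 9223), (13088, 16585),
  (18474, 9092), (26629, 4546), (17800, 8739), (10896, 16738), (1414, 8312), (10282, 964),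
  (1305, 12930), (1592, 4546), (2441, 16918), (2339, 604), (21002, 421), (23041, 8312),
  (6410, 692), (2346, 724)]
    n54 = some n19 := by decide +kernel

theorem run41 : run [
  (22537, 9328), (11904, 4173), (10520, 16963), (8835, 17688), (29824, 2339), (8972, 3170),
  (1617, 14346)]
    n54 = some n41 := by decide +kernel

theorem run45 : run [
  (3114, 25348), (12810, 1361), (8739, 6228), (17218, 10392), (542, 6433), (1414, 8312),
  (8269, 3744)]
    n54 = some n45 := by decide +kernel

theorem run58 : run [
  (395, 2164), (1585, 6338), (16442, 11072), (18724, 8387), (1670, 14608), (598, 18569),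
  (12301, 3394)]
    n53 = some n58 := by decide +kernel

theorem run4 : run [
  (8298, 1924), (217, 3110), (20754, 8269), (8739, 17800), (12930, 1305)]
    n19 = some n4 := by decide +kernel

theorem run1 : run [
  (689, 25920), (16738, 10896), (29697, 724), (27776, 307), (10378, 17220)]
    n4 = some n1 := by decide +kernel

theorem run17 : run [
  (1113, 18470), (8300, 3968), (17688, 6244), (28944, 205), (17796, 6225)]
    n4 = some n17 := by decide +kernel

theorem run0 : run [
  (19009, 8504), (12640, 18569), (8485, 3664), (26629, 4546), (9223, 16568)]
    n1 = some n0 := by decide +kernel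

theorem run2 : run [
  (451, 26644), (421, 21002), (13408, 16918), (6920, 16564), (10520, 16963)]
    n1 = some n2 := by decide +kernel

theorem run16 : run [
  (20499, 8300), (13184, 1113), (8835, 17688), (17796, 6225), (28944, 205)]
    n1 = some n16 := by decide +kernel

theorem run20 : run [
  (29440, 3110), (22545, 1924), (12930, 18532), (8269, 20754), (8739, 6228)]
    n1 = some n20 := by decide +kernel

theorem run5 : run [
  (17220, 10378), (689, 6158), (10896, 16738), (2346, 724), (4684, 307)]
    n0 = some n5 := by decide +kernel

theorem run21 : run [
  (8298, 22545), (8269, 20754), (8739, 6228), (29440, 3110), (12930, 18532)]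
    n0 = some n21 := by decide +kernel

theorem run23 : run [
  (8300, 3968), (8746, 17796), (13184, 1113), (3618, 28944), (17688, 6244)]
    n0 = some n23 := by decide +kernel

theorem run3 : run [
  (689, 6158), (724, 29697), (4684, 307), (10896, 16738), (5169, 17220)]
    n2 = some n3 := by decide +kernel

end Pool.Agent.H49.TF
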