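import Pool.Agent.H49.TF.Bits
import Pool.Agent.H49.TF.Dat

/-!
Paths of triple flips between the 70 complexes.
-/

set_option autoImplicit false

namespace Pool.Agent.H49.TF

theorem run7 : run [
  (3618, 28944), (17688, 6244), (17796, 6225), (18470, 13184), (3968, 20499)]
    n2 = some n7 := by decide +kernel

theorem run22 : run [
  (17800, 8739), (18532, 1305), (3110, 217), (3744, 8269), (8298, 22545)]
    n2 = some n22 := by decide +kernel

theorem run6 : run [
  (12930, 18532), (8739, 6228), (3110, 217), (1924, 8298), (3744, 8269)]
    n5 = some n6 := by decide +kernel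

theorem run25 : run [
  (13184, 1113), (8835, 17688), (8746, 17796), (28944, 205), (20499, 8300)]
    n5 = some n25 := by decide +kernel

theorem run12 : run [
  (1113, 18470), (8300, 3968), (205, 3618), (17796, 6225), (8835, 17688)]
    n3 = some n12 := by decide +kernel

theorem run24 : run [
  (17800, 8739), (1924, 8298), (20754, 3744), (217, 29440), (18532, 1305)]
    n3 = some n24 := by decide +kernel

theorem run9 : run [
  (3094, 16585), (20626, 3680), (18469, 1816), (1414, 8312), (8711, 6480)]
    n22 = some n9 := by decide +kernel

theorem run8 : run [
  (1413, 14416), (4324, 25091), (18596, 13064), (20502, 9320), (203, 7712)]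
    n25 = some n8 := by decide +kernel

theorem run10 : run [
  (10520, 5284), (13408, 2441), (421, 11344), (451, 5672), (16564, 6920)]
    n9 = some n10 := by decide +kernel

theorem run13 : run [
  (4684, 307), (5133, 10896), (29697, 2346), (25920, 689), (5169, 17220)]
    n9 = some n13 := by decide +kernel

theorem run11 : run [
  (1592, 4546), (8504, 19009), (12640, 1558), (20618, 3664), (9223, 6976)]
    n8 = some n11 := by decide +kernel

theorem run14 : run [
  (16738, 10896), (5169, 10378), (25920, 6158), (2346, 29697), (4684, 27776)]
    n8 = some n14 := by decide +kernel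

theorem run18 : run [
  (10896, 16738), (10378, 5169), (27776, 4684), (2346, 724), (25920, 689)]
    n10 = some n18 := by decide +kernel

theorem run15 : run [
  (724, 2346), (5169, 10378), (4684, 27776), (25920, 6158), (10896, 5133)]
    n11 = some n15 := by decide +kernel

theorem run64 : run [
  (26629, 4546), (29697, 2346), (24837, 4298), (10378, 5169), (6282, 1585), (9223, 16568),
  (1047, 18600), (4306, 20000), (6226, 17960), (2402, 8852), (8546, 1684), (19009, 8504),
  (17481, 2342), (16972, 11394), (6182, 8849), (1101, 2850), (5314, 18977), (13057, 3094),
  (8780, 3458)]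
    n15 = some n64 := by decide +kernel

theorem run63 : run [
  (10278, 721), (10392, 5157)]
    n64 = some n63 := by decide +kernel

theorem run66 : run [
  (1684, 8546), (2850, 1101), (19840, 4209), (6282, 24900), (25091, 4324), (18980, 12568)]
    n63 = some n66 := by decide +kernel

theorem run65 : run [
  (5157, 10392), (721, 10278)]
    n66 = some n65 := by decide +kernel

theorem run60 : run [
  (1684, 22537), (17064, 12549), (1564, 30721), (18980, 1219), (2945, 9320), (19840, 8718),
  (26753, 370), (18977, 5314), (17064, 3154), (26768, 866), (8504, 19009), (3458, 8780),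
  (2945, 20502), (5284, 10520), (5508, 10328), (26704, 803), (16972, 4401), (26784, 4930),
  (17220, 5169), (16980, 13345), (12549, 3154), (4932, 1081), (2945, 9320), (17064, 3154),
  (13472, 2330), (20502, 9320)]
    n65 = some n60 := by decide +kernel

theorem run61 : run [
  (10278, 721), (1474, 8732)]
    n60 = some n61 := by decide +kernel

end Pool.Agent.H49.TF
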