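import Pool.Agent.H49.TF.Run
import Pool.Agent.H49.TF.Run1
import Pool.Agent.H49.TF.Run2
import Pool.Agent.H49.TF.Run3
import Pool.Agent.H49.TF.Run4

/-!
The 70 complexes lie in one component.
-/

set_option autoImplicit false

namespace Pool.Agent.H49.TF

theorem con30 : Relation.EqvGen Step (cx n30) (cx n30) := Relation.EqvGen.refl _

theorem con26 : Relation.EqvGen Step (cx n30) (cx n26) :=
  Relation.EqvGen.trans _ _ _ con30 (run_sound _ _ _ run26)

theorem con29 : Relation.EqvGen Step (cx n30) (cx n29) :=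
  Relation.EqvGen.trans _ _ _ con30 (run_sound _ _ _ run29)

theorem con27 : Relation.EqvGen Step (cx n30) (cx n27) :=
  Relation.EqvGen.trans _ _ _ con26 (run_sound _ _ _ run27)

theorem con33 : Relation.EqvGen Step (cx n30) (cx n33) :=
  Relation.EqvGen.trans _ _ _ con26 (run_sound _ _ _ run33)

theorem con35 : Relation.EqvGen Step (cx n30) (cx n35) :=
  Relation.EqvGen.trans _ _ _ con29 (run_sound _ _ _ run35)

theorem con48 : Relation.EqvGen Step (cx n30) (cx n48) :=
  Relation.EqvGen.trans _ _ _ con29 (run_sound _ _ _ run48)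

theorem con28 : Relation.EqvGen Step (cx n30) (cx n28) :=
  Relation.EqvGen.trans _ _ _ con27 (run_sound _ _ _ run28)

theorem con31 : Relation.EqvGen Step (cx n30) (cx n31) :=
  Relation.EqvGen.trans _ _ _ con27 (run_sound _ _ _ run31)

theorem con34 : Relation.EqvGen Step (cx n30) (cx n34) :=
  Relation.EqvGen.trans _ _ _ con27 (run_sound _ _ _ run34)

theorem con47 : Relation.EqvGen Step (cx n30) (cx n47) :=
  Relation.EqvGen.trans _ _ _ con48 (run_sound _ _ _ run47)

theorem con32 : Relation.EqvGen Step (cx n30) (cx n32) :=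
  Relation.EqvGen.trans _ _ _ con28 (run_sound _ _ _ run32)

theorem con38 : Relation.EqvGen Step (cx n30) (cx n38) :=
  Relation.EqvGen.trans _ _ _ con31 (run_sound _ _ _ run38)

theorem con50 : Relation.EqvGen Step (cx n30) (cx n50) :=
  Relation.EqvGen.trans _ _ _ con47 (run_sound _ _ _ run50)

theorem con42 : Relation.EqvGen Step (cx n30) (cx n42) :=
  Relation.EqvGen.trans _ _ _ con50 (run_sound _ _ _ run42)

theorem con43 : Relation.EqvGen Step (cx n30) (cx n43) :=
  Relation.EqvGen.trans _ _ _ con42 (run_sound _ _ _ run43)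

theorem con44 : Relation.EqvGen Step (cx n30) (cx n44) :=
  Relation.EqvGen.trans _ _ _ con43 (run_sound _ _ _ run44)

theorem con52 : Relation.EqvGen Step (cx n30) (cx n52) :=
  Relation.EqvGen.trans _ _ _ con43 (run_sound _ _ _ run52)

theorem con46 : Relation.EqvGen Step (cx n30) (cx n46) :=
  Relation.EqvGen.trans _ _ _ con44 (run_sound _ _ _ run46)

theorem con51 : Relation.EqvGen Step (cx n30) (cx n51) :=
  Relation.EqvGen.trans _ _ _ con46 (run_sound _ _ _ run51)

theorem con69 : Relation.EqvGen Step (cx n30) (cx n69) :=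
  Relation.EqvGen.trans _ _ _ con46 (run_sound _ _ _ run69)

theorem con62 : Relation.EqvGen Step (cx n30) (cx n62) :=
  Relation.EqvGen.trans _ _ _ con69 (run_sound _ _ _ run62)

theorem con68 : Relation.EqvGen Step (cx n30) (cx n68) :=
  Relation.EqvGen.trans _ _ _ con69 (run_sound _ _ _ run68)

theorem con67 : Relation.EqvGen Step (cx n30) (cx n67) :=
  Relation.EqvGen.trans _ _ _ con62 (run_sound _ _ _ run67)

theorem con37 : Relation.EqvGen Step (cx n30) (cx n37) :=
  Relation.EqvGen.trans _ _ _ con67 (run_sound _ _ _ run37)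

theorem con57 : Relation.EqvGen Step (cx n30) (cx n57) :=
  Relation.EqvGen.trans _ _ _ con67 (run_sound _ _ _ run57)

theorem con36 : Relation.EqvGen Step (cx n30) (cx n36) :=
  Relation.EqvGen.trans _ _ _ con37 (run_sound _ _ _ run36)

theorem con56 : Relation.EqvGen Step (cx n30) (cx n56) :=
  Relation.EqvGen.trans _ _ _ con57 (run_sound _ _ _ run56)

theorem con59 : Relation.EqvGen Step (cx n30) (cx n59) :=
  Relation.EqvGen.trans _ _ _ con57 (run_sound _ _ _ run59)

theorem con39 : Relation.EqvGen Step (cx n30) (cx n39) :=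
  Relation.EqvGen.trans _ _ _ con36 (run_sound _ _ _ run39)

theorem con40 : Relation.EqvGen Step (cx n30) (cx n40) :=
  Relation.EqvGen.trans _ _ _ con36 (run_sound _ _ _ run40)

theorem con55 : Relation.EqvGen Step (cx n30) (cx n55) :=
  Relation.EqvGen.trans _ _ _ con56 (run_sound _ _ _ run55)

theorem con49 : Relation.EqvGen Step (cx n30) (cx n49) :=
  Relation.EqvGen.trans _ _ _ con59 (run_sound _ _ _ run49)

theorem con54 : Relation.EqvGen Step (cx n30) (cx n54) :=
  Relation.EqvGen.trans _ _ _ con55 (run_sound _ _ _ run54)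

theorem con53 : Relation.EqvGen Step (cx n30) (cx n53) :=
  Relation.EqvGen.trans _ _ _ con49 (run_sound _ _ _ run53)

theorem con19 : Relation.EqvGen Step (cx n30) (cx n19) :=
  Relation.EqvGen.trans _ _ _ con54 (run_sound _ _ _ run19)

theorem con41 : Relation.EqvGen Step (cx n30) (cx n41) :=
  Relation.EqvGen.trans _ _ _ con54 (run_sound _ _ _ run41)

theorem con45 : Relation.EqvGen Step (cx n30) (cx n45) :=
  Relation.EqvGen.trans _ _ _ con54 (run_sound _ _ _ run45)

theorem con58 : Relation.EqvGen Step (cx n30) (cx n58) :=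
  Relation.EqvGen.trans _ _ _ con53 (run_sound _ _ _ run58)

theorem con4 : Relation.EqvGen Step (cx n30) (cx n4) :=
  Relation.EqvGen.trans _ _ _ con19 (run_sound _ _ _ run4)

theorem con1 : Relation.EqvGen Step (cx n30) (cx n1) :=
  Relation.EqvGen.trans _ _ _ con4 (run_sound _ _ _ run1)

theorem con17 : Relation.EqvGen Step (cx n30) (cx n17) :=
  Relation.EqvGen.trans _ _ _ con4 (run_sound _ _ _ run17)

theorem con0 : Relation.EqvGen Step (cx n30) (cx n0) :=
  Relation.EqvGen.trans _ _ _ con1 (run_sound _ _ _ run0)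

theorem con2 : Relation.EqvGen Step (cx n30) (cx n2) :=
  Relation.EqvGen.trans _ _ _ con1 (run_sound _ _ _ run2)

theorem con16 : Relation.EqvGen Step (cx n30) (cx n16) :=
  Relation.EqvGen.trans _ _ _ con1 (run_sound _ _ _ run16)

theorem con20 : Relation.EqvGen Step (cx n30) (cx n20) :=
  Relation.EqvGen.trans _ _ _ con1 (run_sound _ _ _ run20)

theorem con5 : Relation.EqvGen Step (cx n30) (cx n5) :=
  Relation.EqvGen.trans _ _ _ con0 (run_sound _ _ _ run5)

theorem con21 : Relation.EqvGen Step (cx n30) (cx n21) :=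
  Relation.EqvGen.trans _ _ _ con0 (run_sound _ _ _ run21)

theorem con23 : Relation.EqvGen Step (cx n30) (cx n23) :=
  Relation.EqvGen.trans _ _ _ con0 (run_sound _ _ _ run23)

theorem con3 : Relation.EqvGen Step (cx n30) (cx n3) :=
  Relation.EqvGen.trans _ _ _ con2 (run_sound _ _ _ run3)

theorem con7 : Relation.EqvGen Step (cx n30) (cx n7) :=
  Relation.EqvGen.trans _ _ _ con2 (run_sound _ _ _ run7)

theorem con22 : Relation.EqvGen Step (cx n30) (cx n22) :=
  Relation.EqvGen.trans _ _ _ con2 (run_sound _ _ _ run22)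

theorem con6 : Relation.EqvGen Step (cx n30) (cx n6) :=
  Relation.EqvGen.trans _ _ _ con5 (run_sound _ _ _ run6)

theorem con25 : Relation.EqvGen Step (cx n30) (cx n25) :=
  Relation.EqvGen.trans _ _ _ con5 (run_sound _ _ _ run25)

theorem con12 : Relation.EqvGen Step (cx n30) (cx n12) :=
  Relation.EqvGen.trans _ _ _ con3 (run_sound _ _ _ run12)

theorem con24 : Relation.EqvGen Step (cx n30) (cx n24) :=
  Relation.EqvGen.trans _ _ _ con3 (run_sound _ _ _ run24)

theorem con9 : Relation.EqvGen Step (cx n30) (cx n9) :=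
  Relation.EqvGen.trans _ _ _ con22 (run_sound _ _ _ run9)

theorem con8 : Relation.EqvGen Step (cx n30) (cx n8) :=
  Relation.EqvGen.trans _ _ _ con25 (run_sound _ _ _ run8)

theorem con10 : Relation.EqvGen Step (cx n30) (cx n10) :=
  Relation.EqvGen.trans _ _ _ con9 (run_sound _ _ _ run10)

theorem con13 : Relation.EqvGen Step (cx n30) (cx n13) :=
  Relation.EqvGen.trans _ _ _ con9 (run_sound _ _ _ run13)

theorem con11 : Relation.EqvGen Step (cx n30) (cx n11) :=
  Relation.EqvGen.trans _ _ _ con8 (run_sound _ _ _ run11)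

theorem con14 : Relation.EqvGen Step (cx n30) (cx n14) :=
  Relation.EqvGen.trans _ _ _ con8 (run_sound _ _ _ run14)

theorem con18 : Relation.EqvGen Step (cx n30) (cx n18) :=
  Relation.EqvGen.trans _ _ _ con10 (run_sound _ _ _ run18)

theorem con15 : Relation.EqvGen Step (cx n30) (cx n15) :=
  Relation.EqvGen.trans _ _ _ con11 (run_sound _ _ _ run15)

theorem con64 : Relation.EqvGen Step (cx n30) (cx n64) :=
  Relation.EqvGen.trans _ _ _ con15 (run_sound _ _ _ run64)

theorem con63 : Relation.EqvGen Step (cx n30) (cx n63) :=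
  Relation.EqvGen.trans _ _ _ con64 (run_sound _ _ _ run63)

theorem con66 : Relation.EqvGen Step (cx n30) (cx n66) :=
  Relation.EqvGen.trans _ _ _ con63 (run_sound _ _ _ run66)

theorem con65 : Relation.EqvGen Step (cx n30) (cx n65) :=
  Relation.EqvGen.trans _ _ _ con66 (run_sound _ _ _ run65)

theorem con60 : Relation.EqvGen Step (cx n30) (cx n60) :=
  Relation.EqvGen.trans _ _ _ con65 (run_sound _ _ _ run60)

theorem con61 : Relation.EqvGen Step (cx n30) (cx n61) :=
  Relation.EqvGen.trans _ _ _ con60 (run_sound _ _ _ run61)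

/-- the list of the 70 bitsets -/
def NL : List ℕ := [
  n0, n1, n2, n3, n4, n5, n6, n7, n8, n9, n10, n11, n12, n13,
  n14, n15, n16, n17, n18, n19, n20, n21, n22, n23, n24, n25, n26, n27,
  n28, n29, n30, n31, n32, n33, n34, n35, n36, n37, n38, n39, n40, n41,
  n42, n43, n44, n45, n46, n47, n48, n49, n50, n51, n52, n53, n54, n55,
  n56, n57, n58, n59, n60, n61, n62, n63, n64, n65, n66, n67, n68, n69]

theorem conAll : ∀ N ∈ NL, Relation.EqvGen Step (cx n30) (cx N) := by
  simp only [NL, List.forall_mem_cons]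
  exact ⟨con0, con1, con2, con3, con4, con5, con6, con7, con8, con9,
    con10, con11, con12, con13, con14, con15, con16, con17, con18, con19,
    con20, con21, con22, con23, con24, con25, con26, con27, con28, con29,
    con30, con31, con32, con33, con34, con35, con36, con37, con38, con39,
    con40, con41, con42, con43, con44, con45, con46, con47, con48, con49,
    con50, con51, con52, con53, con54, con55, con56, con57, con58, con59,
    con60, con61, con62, con63, con64, con65, con66, con67, con68, con69,
    by simp⟩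

end Pool.Agent.H49.TF
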