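import Mathlib

/-!
Triple flips of 15-vertex combinatorial 8-manifolds: definitions.
-/

set_option autoImplicit false

namespace Pool.Agent.H49.TF

open Finset

/-- A pure simplicial complex with vertices in `Fin 15`, given by the set of its facets. -/
abbrev Cx := Finset (Finset (Fin 15))

/-- The facets of the join `A * ∂B`: the sets `A ∪ (B without b)`, `b ∈ B`. -/
def joinBd (A B : Finset (Fin 15)) : Cx := B.image fun b => A ∪ B.erase b

/-- `link (A, K) = ∂B`: the facets of `K` containing `A` are the sets `A ∪ (B without b)`,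
`b ∈ B`. -/
def LinkIsBd (K : Cx) (A B : Finset (Fin 15)) : Prop := K.filter (fun f => A ⊆ f) = joinBd A B

/-- The combinatorial spheres of dimension `d`: the complexes obtained from the boundary of a
simplex with `d + 2` vertices by bistellar flips `A * ∂B → ∂A * B` (`A`, `B` disjoint and nonempty,
`d + 2` vertices together, `link (A) = ∂B`, `B` not a face). -/
inductive PLSphere (d : ℕ) : Cx → Prop
  | simplex (S : Finset (Fin 15)) (hS : S.card = d + 2) : PLSphere d (S.image fun s => S.erase s)
  | flip (K : Cx) (A B : Finset (Fin 15)) (hK : PLSphere d K) (hA : A.Nonempty) (hB : B.Nonempty)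
      (hd : Disjoint A B) (hc : A.card + B.card = d + 2) (hl : LinkIsBd K A B)
      (hn : ∀ f ∈ K, ¬ B ⊆ f) : PLSphere d ((K \ joinBd A B) ∪ joinBd B A)

/-- The link of the vertex `v`. -/
def vLink (v : Fin 15) (K : Cx) : Cx := (K.filter fun f => v ∈ f).image fun f => f.erase v

/-- The nonempty faces of `K`. -/
def faces (K : Cx) : Cx := (K.biUnion fun f => f.powerset).erase ∅

/-- The Euler characteristic of `K`. -/
def eulerChar (K : Cx) : ℤ := ∑ s ∈ faces K, (-1) ^ (s.card + 1)

/-- `K` is a combinatorial 8-manifold with 15 vertices and Euler characteristic 3. -/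
def InM (K : Cx) : Prop :=
  (∀ f ∈ K, f.card = 9) ∧ (∀ v, PLSphere 7 (vLink v K)) ∧ eulerChar K = 3

/-- Renaming the vertices. -/
def relabel (σ : Equiv.Perm (Fin 15)) (K : Cx) : Cx := K.image fun f => f.image σ

/-- `(A, B, C)` is a distinguished triple of `K`. -/
def IsTriple (K : Cx) (A B C : Finset (Fin 15)) : Prop :=
  A.card = 5 ∧ B.card = 5 ∧ C.card = 5 ∧ Disjoint A B ∧ Disjoint B C ∧ Disjoint A C ∧
    LinkIsBd K A B ∧ LinkIsBd K B C ∧ LinkIsBd K C A

/-- The triple flip at `(A, B, C)`. -/
def tripleFlip (K : Cx) (A B C : Finset (Fin 15)) : Cx :=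
  (K \ (joinBd A B ∪ joinBd B C ∪ joinBd C A)) ∪ (joinBd B A ∪ joinBd C B ∪ joinBd A C)

/-- One triple flip, or a renaming of the vertices. -/
def Step (K L : Cx) : Prop :=
  (∃ A B C, IsTriple K A B C ∧ L = tripleFlip K A B C) ∨ ∃ σ, L = relabel σ K

end Pool.Agent.H49.TF
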