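import Pool.Agent.H49.TF.Run

/-!
The Euler characteristic of a complex given by a bitset.
-/

set_option autoImplicit false

namespace Pool.Agent.H49.TF

open Finset

/-- the bitset of all faces (the empty one included) -/
def cloN (N : ℕ) : ℕ :=
  (List.range 15).foldl (fun D i => D ||| ((D &&& Mf i) >>> 2 ^ i)) N

/-- the alternating sum over the masks in a bitset of length `2 ^ k` -/
def altN : ℕ → ℕ → ℤ
  | 0, N => ((N % 2 : ℕ) : ℤ)
  | k + 1, N => altN k (N % 2 ^ (2 ^ k)) - altN k (N >>> 2 ^ k)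

/-- the vertices below `k` -/
def Vb (k : ℕ) : Finset (Fin 15) := univ.filter fun i => (i : ℕ) < k

theorem Vb_succ {k : ℕ} (hk : k < 15) : Vb (k + 1) = insert ⟨k, hk⟩ (Vb k) := by
  ext i
  simp only [Vb, mem_filter, mem_univ, true_and, mem_insert, Fin.ext_iff]
  omega

theorem altN_eq : ∀ (k N : ℕ), k ≤ 15 →
    altN k N = ∑ s ∈ (Vb k).powerset, if N.testBit (code s) then (-1 : ℤ) ^ s.card else 0
  | 0, N, _ => by
    have : Vb 0 = ∅ := by ext i; simp [Vb]
    rw [this]
    simp only [altN, powerset_empty, sum_singleton, card_empty, pow_zero]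
    have hc : code ∅ = 0 := by simp [code]
    rw [hc, Nat.testBit_zero]
    rcases Nat.mod_two_eq_zero_or_one N with h | h <;> simp [h]
  | k + 1, N, hk => by
    have hk' : k < 15 := by omega
    have hnot : (⟨k, hk'⟩ : Fin 15) ∉ Vb k := by simp [Vb]
    rw [Vb_succ hk', sum_powerset_insert hnot, altN, altN_eq k _ (by omega), altN_eq k _ (by omega),
      sub_eq_add_neg, ← sum_neg_distrib]
    congr 1
    · refine sum_congr rfl fun s hs => ?_
      have hlt : code s < 2 ^ k := code_lt_of fun i hi => by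
        have := mem_powerset.mp hs hi
        simpa [Vb] using this
      rw [Nat.testBit_mod_two_pow]
      simp [hlt]
    · refine sum_congr rfl fun s hs => ?_
      have hns : (⟨k, hk'⟩ : Fin 15) ∉ s := fun h => hnot (mem_powerset.mp hs h)
      have hc : code (insert ⟨k, hk'⟩ s) = 2 ^ k + code s := by
        simp only [code, sum_insert hns]
      rw [Nat.testBit_shiftRight, hc, card_insert_of_notMem hns, pow_succ]
      split_ifs <;> simp

theorem cloN_step {D : ℕ} (hD : D < 2 ^ 32768) (v : Fin 15) :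
    D ||| ((D &&& Mf v) >>> 2 ^ (v : ℕ)) < 2 ^ 32768 ∧
      cx (D ||| ((D &&& Mf v) >>> 2 ^ (v : ℕ))) = cx D ∪ vLink v (cx D) := by
  refine ⟨?_, ?_⟩
  · apply Nat.or_lt_two_pow hD
    rw [Nat.shiftRight_eq_div_pow]
    exact lt_of_le_of_lt (Nat.div_le_self _ _) (lt_of_le_of_lt Nat.and_le_left hD)
  · rw [cx_lor, vLink_cx hD]; rfl

theorem cloN_aux {N : ℕ} (hN : N < 2 ^ 32768) : ∀ k, k ≤ 15 →
    ((List.range k).foldl (fun D i => D ||| ((D &&& Mf i) >>> 2 ^ i)) N) < 2 ^ 32768 ∧
    ∀ g, g ∈ cx ((List.range k).foldl (fun D i => D ||| ((D &&& Mf i) >>> 2 ^ i)) N) ↔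
      ∃ f ∈ cx N, g ⊆ f ∧ ∀ i ∈ f, i ∉ g → (i : ℕ) < k
  | 0, _ => by
    refine ⟨by simpa using hN, fun g => ?_⟩
    simp only [List.range_zero, List.foldl_nil, not_lt_zero, imp_false, not_not]
    constructor
    · intro h; exact ⟨g, h, Subset.rfl, fun _ h => h⟩
    · rintro ⟨f, hf, h1, h2⟩
      have : g = f := Subset.antisymm h1 h2
      rw [this]; exact hf
  | k + 1, hk => by
    obtain ⟨h1, h2⟩ := cloN_aux hN k (by omega)
    have hk' : k < 15 := by omega
    rw [List.range_succ, List.foldl_append, List.foldl_cons, List.foldl_nil]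
    obtain ⟨h3, h4⟩ := cloN_step h1 ⟨k, hk'⟩
    simp only at h3 h4
    refine ⟨h3, fun g => ?_⟩
    rw [h4, mem_union, h2, mem_vLink]
    constructor
    · rintro (⟨f, hf, hs, hi⟩ | h)
      · exact ⟨f, hf, hs, fun i a b => lt_trans (hi i a b) (Nat.lt_succ_self k)⟩
      · obtain ⟨hv, hg⟩ := h
        rw [h2] at hg
        obtain ⟨f, hf, hs, hi⟩ := hg
        refine ⟨f, hf, (subset_insert _ _).trans hs, fun i a b => ?_⟩
        by_cases hik : (i : ℕ) = k
        · omega
        · exact lt_trans (hi i a fun hc => by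
            rcases mem_insert.mp hc with h | h
            · exact hik (by rw [h])
            · exact b h) (Nat.lt_succ_self k)
    · rintro ⟨f, hf, hs, hi⟩
      by_cases hv : (⟨k, hk'⟩ : Fin 15) ∈ f ∧ (⟨k, hk'⟩ : Fin 15) ∉ g
      · right
        refine ⟨hv.2, ?_⟩
        rw [h2]
        refine ⟨f, hf, insert_subset hv.1 hs, fun i a b => ?_⟩
        have h5 := hi i a fun h => b (mem_insert_of_mem h)
        have h6 : (i : ℕ) ≠ k := fun h => b (by
          rw [mem_insert]; left; exact Fin.ext h)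
        omega
      · left
        refine ⟨f, hf, hs, fun i a b => ?_⟩
        have h5 := hi i a b
        have h6 : (i : ℕ) ≠ k := fun h => hv (by
          have : i = ⟨k, hk'⟩ := Fin.ext h
          rw [← this]; exact ⟨a, b⟩)
        omega

theorem eulerChar_cx {N : ℕ} (hN : N < 2 ^ 32768) (h0 : (cloN N).testBit 0 = true) :
    eulerChar (cx N) = 1 - altN 15 (cloN N) := by
  have hV : (Vb 15).powerset = univ := by
    have : Vb 15 = univ := by ext i; simp [Vb, i.2]
    rw [this]; simp
  have hclo : cx (cloN N) = insert ∅ (faces (cx N)) := by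
    ext g
    rw [cloN, (cloN_aux hN 15 le_rfl).2, mem_insert, mem_faces]
    constructor
    · rintro ⟨f, hf, hs, -⟩
      by_cases hg : g = ∅
      · exact Or.inl hg
      · exact Or.inr ⟨hg, f, hf, hs⟩
    · rintro (rfl | ⟨-, f, hf, hs⟩)
      · have : (∅ : Finset (Fin 15)) ∈ cx (cloN N) := by
          rw [mem_cx]; simpa [code] using h0
        rw [cloN, (cloN_aux hN 15 le_rfl).2] at this
        exact this
      · exact ⟨f, hf, hs, fun i _ _ => i.2⟩
  have hsum : altN 15 (cloN N) = ∑ s ∈ cx (cloN N), (-1 : ℤ) ^ s.card := by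
    rw [altN_eq 15 _ le_rfl, hV, ← sum_filter]
    rfl
  have hne : (∅ : Finset (Fin 15)) ∉ faces (cx N) := by
    rw [mem_faces]; simp
  rw [hsum, hclo, sum_insert hne, eulerChar]
  simp only [card_empty, pow_zero, pow_succ, mul_neg, mul_one, sum_neg_distrib]
  ring

end Pool.Agent.H49.TF
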