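import Pool.Agent.H49.TF.Inv
import Pool.Agent.H49.TF.Dat

/-!
The invariant of the 70 complexes.
-/

set_option autoImplicit false
set_option maxRecDepth 100000

namespace Pool.Agent.H49.TF

theorem iv0 : inv3 (cx n0) = 31189313100 := by
  rw [inv3_cx]
  decide +kernel

theorem iv1 : inv3 (cx n1) = 31193119920 := by
  rw [inv3_cx]
  decide +kernel

theorem iv2 : inv3 (cx n2) = 31190773980 := by
  rw [inv3_cx]
  decide +kernel

theorem iv3 : inv3 (cx n3) = 31191546540 := by
  rw [inv3_cx]
  decide +kernel

theorem iv4 : inv3 (cx n4) = 31195417980 := by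
  rw [inv3_cx]
  decide +kernel

theorem iv5 : inv3 (cx n5) = 31192268880 := by
  rw [inv3_cx]
  decide +kernel

theorem iv6 : inv3 (cx n6) = 31194417900 := by
  rw [inv3_cx]
  decide +kernel

theorem iv7 : inv3 (cx n7) = 31178546760 := by
  rw [inv3_cx]
  decide +kernel

theorem iv8 : inv3 (cx n8) = 31192356360 := by
  rw [inv3_cx]
  decide +kernel

theorem iv9 : inv3 (cx n9) = 31187645400 := by
  rw [inv3_cx]
  decide +kernel

end Pool.Agent.H49.TF
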