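import Pool.Agent.H49.TF.Inv
import Pool.Agent.H49.TF.Dat
import Pool.Agent.H49.TF.Iv1

/-!
The invariant of the 70 complexes.
-/

set_option autoImplicit false
set_option maxRecDepth 100000

namespace Pool.Agent.H49.TF

theorem iv10 : inv3 (cx n10) = 31190302920 := by
  rw [inv3_cx]
  decide +kernel

theorem iv11 : inv3 (cx n11) = 31187524620 := by
  rw [inv3_cx]
  decide +kernel

theorem iv12 : inv3 (cx n12) = 31167932340 := by
  rw [inv3_cx]
  decide +kernel

theorem iv13 : inv3 (cx n13) = 31185197400 := by
  rw [inv3_cx]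
  decide +kernel

theorem iv14 : inv3 (cx n14) = 31186971840 := by
  rw [inv3_cx]
  decide +kernel

theorem iv15 : inv3 (cx n15) = 31182410640 := by
  rw [inv3_cx]
  decide +kernel

theorem iv16 : inv3 (cx n16) = 31192063680 := by
  rw [inv3_cx]
  decide +kernel

theorem iv17 : inv3 (cx n17) = 31183587120 := by
  rw [inv3_cx]
  decide +kernel

theorem iv18 : inv3 (cx n18) = 31189386900 := by
  rw [inv3_cx]
  decide +kernel

theorem iv19 : inv3 (cx n19) = 31196362620 := by
  rw [inv3_cx]
  decide +kernel

end Pool.Agent.H49.TF
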