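import Pool.Agent.H49.TF.Inv
import Pool.Agent.H49.TF.Dat
import Pool.Agent.H49.TF.Iv2

/-!
The invariant of the 70 complexes.
-/

set_option autoImplicit false
set_option maxRecDepth 100000

namespace Pool.Agent.H49.TF

theorem iv20 : inv3 (cx n20) = 31194889320 := by
  rw [inv3_cx]
  decide +kernel

theorem iv21 : inv3 (cx n21) = 31191645360 := by
  rw [inv3_cx]
  decide +kernel

theorem iv22 : inv3 (cx n22) = 31191103020 := by
  rw [inv3_cx]
  decide +kernel

theorem iv23 : inv3 (cx n23) = 31197632880 := by
  rw [inv3_cx]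
  decide +kernel

theorem iv24 : inv3 (cx n24) = 31191028140 := by
  rw [inv3_cx]
  decide +kernel

theorem iv25 : inv3 (cx n25) = 31190094300 := by
  rw [inv3_cx]
  decide +kernel

theorem iv26 : inv3 (cx n26) = 31189838772 := by
  rw [inv3_cx]
  decide +kernel

theorem iv27 : inv3 (cx n27) = 31194639408 := by
  rw [inv3_cx]
  decide +kernel

theorem iv28 : inv3 (cx n28) = 31175864076 := by
  rw [inv3_cx]
  decide +kernel

theorem iv29 : inv3 (cx n29) = 31190378700 := by
  rw [inv3_cx]
  decide +kernel

end Pool.Agent.H49.TF
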