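import Pool.Agent.H49.TF.Inv
import Pool.Agent.H49.TF.Dat
import Pool.Agent.H49.TF.Iv3

/-!
The invariant of the 70 complexes.
-/

set_option autoImplicit false
set_option maxRecDepth 100000

namespace Pool.Agent.H49.TF

theorem iv30 : inv3 (cx n30) = 31196005032 := by
  rw [inv3_cx]
  decide +kernel

theorem iv31 : inv3 (cx n31) = 31199345184 := by
  rw [inv3_cx]
  decide +kernel

theorem iv32 : inv3 (cx n32) = 31189840788 := by
  rw [inv3_cx]
  decide +kernel

theorem iv33 : inv3 (cx n33) = 31186406424 := by
  rw [inv3_cx]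
  decide +kernel

theorem iv34 : inv3 (cx n34) = 31192670676 := by
  rw [inv3_cx]
  decide +kernel

theorem iv35 : inv3 (cx n35) = 31191878928 := by
  rw [inv3_cx]
  decide +kernel

theorem iv36 : inv3 (cx n36) = 31191772476 := by
  rw [inv3_cx]
  decide +kernel

theorem iv37 : inv3 (cx n37) = 31191972168 := by
  rw [inv3_cx]
  decide +kernel

theorem iv38 : inv3 (cx n38) = 31184341068 := by
  rw [inv3_cx]
  decide +kernel

theorem iv39 : inv3 (cx n39) = 31178512020 := by
  rw [inv3_cx]
  decide +kernel

end Pool.Agent.H49.TF
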