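import Pool.Agent.H49.TF.Inv
import Pool.Agent.H49.TF.Dat
import Pool.Agent.H49.TF.Iv4

/-!
The invariant of the 70 complexes.
-/

set_option autoImplicit false
set_option maxRecDepth 100000

namespace Pool.Agent.H49.TF

theorem iv40 : inv3 (cx n40) = 31194703056 := by
  rw [inv3_cx]
  decide +kernel

theorem iv41 : inv3 (cx n41) = 31196920608 := by
  rw [inv3_cx]
  decide +kernel

theorem iv42 : inv3 (cx n42) = 31193305920 := by
  rw [inv3_cx]
  decide +kernel

theorem iv43 : inv3 (cx n43) = 31186408176 := by
  rw [inv3_cx]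
  decide +kernel

theorem iv44 : inv3 (cx n44) = 31184744976 := by
  rw [inv3_cx]
  decide +kernel

theorem iv45 : inv3 (cx n45) = 31181431428 := by
  rw [inv3_cx]
  decide +kernel

theorem iv46 : inv3 (cx n46) = 31201257024 := by
  rw [inv3_cx]
  decide +kernel

theorem iv47 : inv3 (cx n47) = 31195460520 := by
  rw [inv3_cx]
  decide +kernel

theorem iv48 : inv3 (cx n48) = 31183055316 := by
  rw [inv3_cx]
  decide +kernel

theorem iv49 : inv3 (cx n49) = 31196174940 := by
  rw [inv3_cx]
  decide +kernel

end Pool.Agent.H49.TF
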