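import Pool.Agent.H49.TF.Inv
import Pool.Agent.H49.TF.Dat
import Pool.Agent.H49.TF.Iv5

/-!
The invariant of the 70 complexes.
-/

set_option autoImplicit false
set_option maxRecDepth 100000

namespace Pool.Agent.H49.TF

theorem iv50 : inv3 (cx n50) = 31195711764 := by
  rw [inv3_cx]
  decide +kernel

theorem iv51 : inv3 (cx n51) = 31203904284 := by
  rw [inv3_cx]
  decide +kernel

theorem iv52 : inv3 (cx n52) = 31189783212 := by
  rw [inv3_cx]
  decide +kernel

theorem iv53 : inv3 (cx n53) = 31195400796 := by
  rw [inv3_cx]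
  decide +kernel

theorem iv54 : inv3 (cx n54) = 31205006028 := by
  rw [inv3_cx]
  decide +kernel

theorem iv55 : inv3 (cx n55) = 31193603028 := by
  rw [inv3_cx]
  decide +kernel

theorem iv56 : inv3 (cx n56) = 31181180436 := by
  rw [inv3_cx]
  decide +kernel

theorem iv57 : inv3 (cx n57) = 31195598868 := by
  rw [inv3_cx]
  decide +kernel

theorem iv58 : inv3 (cx n58) = 31186905120 := by
  rw [inv3_cx]
  decide +kernel

theorem iv59 : inv3 (cx n59) = 31196058768 := by
  rw [inv3_cx]
  decide +kernel

end Pool.Agent.H49.TF
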