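import Pool.Agent.H49.TF.Inv
import Pool.Agent.H49.TF.Dat
import Pool.Agent.H49.TF.Iv6

/-!
The invariant of the 70 complexes.
-/

set_option autoImplicit false
set_option maxRecDepth 100000

namespace Pool.Agent.H49.TF

theorem iv60 : inv3 (cx n60) = 31183338528 := by
  rw [inv3_cx]
  decide +kernel

theorem iv61 : inv3 (cx n61) = 31182801408 := by
  rw [inv3_cx]
  decide +kernel

theorem iv62 : inv3 (cx n62) = 31180401252 := by
  rw [inv3_cx]
  decide +kernel

theorem iv63 : inv3 (cx n63) = 31191315948 := by
  rw [inv3_cx]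
  decide +kernel

theorem iv64 : inv3 (cx n64) = 31185067788 := by
  rw [inv3_cx]
  decide +kernel

theorem iv65 : inv3 (cx n65) = 31180041324 := by
  rw [inv3_cx]
  decide +kernel

theorem iv66 : inv3 (cx n66) = 31179308868 := by
  rw [inv3_cx]
  decide +kernel

theorem iv67 : inv3 (cx n67) = 31178629476 := by
  rw [inv3_cx]
  decide +kernel

theorem iv68 : inv3 (cx n68) = 31192323516 := by
  rw [inv3_cx]
  decide +kernel

theorem iv69 : inv3 (cx n69) = 31183542324 := by
  rw [inv3_cx]
  decide +kernel

end Pool.Agent.H49.TF
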