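import Pool.Agent.H49.TF.Assem
import Pool.Agent.H49.TF.BaseM
import Pool.Agent.H49.TF.Conn
import Pool.Agent.H49.TF.Aut1
import Pool.Agent.H49.TF.Aut2
import Pool.Agent.H49.TF.Aut3
import Pool.Agent.H49.TF.Aut4
import Pool.Agent.H49.TF.Iv1
import Pool.Agent.H49.TF.Iv2
import Pool.Agent.H49.TF.Iv3
import Pool.Agent.H49.TF.Iv4
import Pool.Agent.H49.TF.Iv5
import Pool.Agent.H49.TF.Iv6
import Pool.Agent.H49.TF.Iv7

/-!
The 70 complexes: assembly.
-/

set_option autoImplicit false
set_option maxRecDepth 100000

namespace Pool.Agent.H49.TF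

theorem autAll : ∀ N ∈ NL,
    3 < Nat.card {σ : Equiv.Perm (Fin 15) // relabel σ (cx N) = cx N} := by
  simp only [NL, List.forall_mem_cons]
  exact ⟨aut0, aut1, aut2, aut3, aut4, aut5, aut6, aut7, aut8, aut9,
    aut10, aut11, aut12, aut13, aut14, aut15, aut16, aut17, aut18, aut19,
    aut20, aut21, aut22, aut23, aut24, aut25, aut26, aut27, aut28, aut29,
    aut30, aut31, aut32, aut33, aut34, aut35, aut36, aut37, aut38, aut39,
    aut40, aut41, aut42, aut43, aut44, aut45, aut46, aut47, aut48, aut49,
    aut50, aut51, aut52, aut53, aut54, aut55, aut56, aut57, aut58, aut59,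
    aut60, aut61, aut62, aut63, aut64, aut65, aut66, aut67, aut68, aut69,
    by simp⟩

/-- the values of the invariant -/
def IL : List ℕ := [
  31189313100, 31193119920, 31190773980, 31191546540, 31195417980, 31192268880, 31194417900,
  31178546760, 31192356360, 31187645400, 31190302920, 31187524620, 31167932340, 31185197400,
  31186971840, 31182410640, 31192063680, 31183587120, 31189386900, 31196362620, 31194889320,
  31191645360, 31191103020, 31197632880, 31191028140, 31190094300, 31189838772, 31194639408,
  31175864076, 31190378700, 31196005032, 31199345184, 31189840788, 31186406424, 31192670676,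
  31191878928, 31191772476, 31191972168, 31184341068, 31178512020, 31194703056, 31196920608,
  31193305920, 31186408176, 31184744976, 31181431428, 31201257024, 31195460520, 31183055316,
  31196174940, 31195711764, 31203904284, 31189783212, 31195400796, 31205006028, 31193603028,
  31181180436, 31195598868, 31186905120, 31196058768, 31183338528, 31182801408, 31180401252,
  31191315948, 31185067788, 31180041324, 31179308868, 31178629476, 31192323516, 31183542324]

theorem invAll : NL.map (fun N => inv3 (cx N)) = IL := by
  simp only [NL, IL, List.map_cons, List.map_nil,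
    iv0, iv1, iv2, iv3, iv4, iv5, iv6, iv7, iv8, iv9, iv10, iv11,
    iv12, iv13, iv14, iv15, iv16, iv17, iv18, iv19, iv20, iv21, iv22, iv23,
    iv24, iv25, iv26, iv27, iv28, iv29, iv30, iv31, iv32, iv33, iv34, iv35,
    iv36, iv37, iv38, iv39, iv40, iv41, iv42, iv43, iv44, iv45, iv46, iv47,
    iv48, iv49, iv50, iv51, iv52, iv53, iv54, iv55, iv56, iv57, iv58, iv59,
    iv60, iv61, iv62, iv63, iv64, iv65, iv66, iv67, iv68, iv69]

theorem nodupIL : IL.Nodup := by decide +kernel

theorem len_NL : NL.length = 70 := by
  simp only [NL, List.length_cons, List.length_nil]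

theorem final : ∃ K : Fin 70 → Cx,
    (∀ i, InM (K i) ∧ 3 < Nat.card {σ : Equiv.Perm (Fin 15) // relabel σ (K i) = K i}) ∧
    (∀ i j, i ≠ j → ∀ σ : Equiv.Perm (Fin 15), relabel σ (K i) ≠ K j) ∧
    ∀ i j, Relation.EqvGen Step (K i) (K j) :=
  assemble NL 70 len_NL n30 inM_base conAll autAll IL invAll nodupIL

end Pool.Agent.H49.TF
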