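import Pool.Agent.H49.TF.Defs

/-!
A triple flip preserves the property that all vertex links are combinatorial spheres.
-/

set_option autoImplicit false

namespace Pool.Agent.H49.TF

open Finset

theorem mem_joinBd {A B f : Finset (Fin 15)} :
    f ∈ joinBd A B ↔ ∃ b ∈ B, A ∪ B.erase b = f := by
  simp [joinBd]

theorem mem_vLink {v : Fin 15} {K : Cx} {g : Finset (Fin 15)} :
    g ∈ vLink v K ↔ v ∉ g ∧ insert v g ∈ K := by
  simp only [vLink, mem_image, mem_filter]
  constructor
  · rintro ⟨f, ⟨hf, hv⟩, rfl⟩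
    exact ⟨notMem_erase v f, by rwa [insert_erase hv]⟩
  · rintro ⟨hv, hg⟩
    exact ⟨insert v g, ⟨hg, mem_insert_self v g⟩, erase_insert hv⟩

theorem vLink_union (v : Fin 15) (K L : Cx) : vLink v (K ∪ L) = vLink v K ∪ vLink v L := by
  ext g
  simp only [mem_union, mem_vLink]
  tauto

theorem vLink_sdiff (v : Fin 15) (K L : Cx) : vLink v (K \ L) = vLink v K \ vLink v L := by
  ext g
  simp only [mem_sdiff, mem_vLink]
  tauto

theorem vLink_joinBd_left {v : Fin 15} {A B : Finset (Fin 15)} (hA : v ∈ A) (hB : v ∉ B) :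
    vLink v (joinBd A B) = joinBd (A.erase v) B := by
  ext g
  simp only [mem_vLink, mem_joinBd]
  constructor
  · rintro ⟨hv, b, hb, h⟩
    refine ⟨b, hb, ?_⟩
    have h1 : (insert v g).erase v = g := erase_insert hv
    rw [← h1, ← h, erase_union_distrib]
    congr 1
    exact (erase_eq_of_notMem fun h' => hB (mem_of_mem_erase h')).symm
  · rintro ⟨b, hb, rfl⟩
    refine ⟨?_, b, hb, ?_⟩
    · simp only [mem_union, mem_erase, not_or]
      exact ⟨fun h => h.1 rfl, fun h => hB h.2⟩
    · rw [← insert_union, insert_erase hA]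

theorem vLink_joinBd_right {v : Fin 15} {A B : Finset (Fin 15)} (hA : v ∉ A) (hB : v ∈ B) :
    vLink v (joinBd A B) = joinBd A (B.erase v) := by
  ext g
  simp only [mem_vLink, mem_joinBd]
  constructor
  · rintro ⟨hv, b, hb, h⟩
    have h1 : (insert v g).erase v = g := erase_insert hv
    have hbv : b ≠ v := by
      rintro rfl
      have h2 : b ∈ A ∪ B.erase b := by rw [h]; exact mem_insert_self b g
      rcases mem_union.1 h2 with h3 | h3
      · exact hA h3
      · exact notMem_erase b B h3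
    refine ⟨b, mem_erase.2 ⟨hbv, hb⟩, ?_⟩
    rw [← h1, ← h, erase_union_distrib, erase_eq_of_notMem hA, erase_right_comm]
  · rintro ⟨b, hb, rfl⟩
    have hb' := mem_erase.1 hb
    refine ⟨?_, b, hb'.2, ?_⟩
    · simp only [mem_union, mem_erase, not_or]
      exact ⟨hA, fun h => h.2.1 rfl⟩
    · rw [← union_insert, erase_right_comm]
      congr 1
      exact (insert_erase (mem_erase.2 ⟨hb'.1.symm, hB⟩)).symm

theorem vLink_joinBd_none {v : Fin 15} {A B : Finset (Fin 15)} (hA : v ∉ A) (hB : v ∉ B) :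
    vLink v (joinBd A B) = ∅ := by
  rw [eq_empty_iff_forall_notMem]
  intro g hg
  obtain ⟨hv, hg⟩ := mem_vLink.1 hg
  obtain ⟨b, hb, h⟩ := mem_joinBd.1 hg
  have h2 : v ∈ A ∪ B.erase b := by rw [h]; exact mem_insert_self v g
  rcases mem_union.1 h2 with h3 | h3
  · exact hA h3
  · exact hB (mem_of_mem_erase h3)

/-- The cyclic symmetry of the notion of a distinguished triple. -/
theorem IsTriple.rot {K : Cx} {A B C : Finset (Fin 15)} (h : IsTriple K A B C) :
    IsTriple K B C A := by
  obtain ⟨h1, h2, h3, h4, h5, h6, h7, h8, h9⟩ := h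
  exact ⟨h2, h3, h1, h5, h6.symm, h4.symm, h8, h9, h7⟩

theorem tripleFlip_rot (K : Cx) (A B C : Finset (Fin 15)) :
    tripleFlip K B C A = tripleFlip K A B C := by
  unfold tripleFlip
  congr 1
  · congr 1
    ext g
    simp only [mem_union]
    tauto
  · ext g
    simp only [mem_union]
    tauto

theorem card_joinBd {A B f : Finset (Fin 15)} (hA : A.card = 5) (hB : B.card = 5)
    (hd : Disjoint A B) (hf : f ∈ joinBd A B) : f.card = 9 := by
  obtain ⟨b, hb, rfl⟩ := mem_joinBd.1 hf
  rw [card_union_of_disjoint (hd.mono_right (erase_subset b B)), card_erase_of_mem hb, hA, hB]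

/-- The link of a vertex of the first simplex. -/
theorem vLink_flip_aux {K : Cx} {A B C : Finset (Fin 15)} (h : IsTriple K A B C) {v : Fin 15}
    (hv : v ∈ A) (hl : PLSphere 7 (vLink v K)) : PLSphere 7 (vLink v (tripleFlip K A B C)) := by
  obtain ⟨hA, hB, hC, hAB, hBC, hAC, lAB, lBC, lCA⟩ := h
  have hvB : v ∉ B := fun h => disjoint_left.1 hAB hv h
  have hvC : v ∉ C := fun h => disjoint_left.1 hAC hv h
  set t := A.erase v with ht
  have htc : t.card = 4 := by rw [ht, card_erase_of_mem hv, hA]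
  have htne : t.Nonempty := card_pos.1 (by omega)
  have hBne : B.Nonempty := card_pos.1 (by omega)
  have hCne : C.Nonempty := card_pos.1 (by omega)
  have hit : insert v t = A := insert_erase hv
  have htB : Disjoint t B := hAB.mono_left (erase_subset v A)
  have htC : Disjoint t C := hAC.mono_left (erase_subset v A)
  -- facets of `K` containing `A`, `B`, `C`
  have kA : ∀ f, f ∈ K → A ⊆ f → f ∈ joinBd A B := fun f h1 h2 => by
    rw [← lAB]; exact mem_filter.2 ⟨h1, h2⟩
  have kA' : ∀ f, f ∈ joinBd A B → f ∈ K := fun f h1 => by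
    rw [← lAB] at h1; exact (mem_filter.1 h1).1
  have kB : ∀ f, f ∈ K → B ⊆ f → f ∈ joinBd B C := fun f h1 h2 => by
    rw [← lBC]; exact mem_filter.2 ⟨h1, h2⟩
  have kC : ∀ f, f ∈ K → C ⊆ f → f ∈ joinBd C A := fun f h1 h2 => by
    rw [← lCA]; exact mem_filter.2 ⟨h1, h2⟩
  have kC' : ∀ f, f ∈ joinBd C A → f ∈ K := fun f h1 => by
    rw [← lCA] at h1; exact (mem_filter.1 h1).1
  -- the first flip
  have l1 : LinkIsBd (vLink v K) t B := by
    unfold LinkIsBd
    rw [ht, ← vLink_joinBd_left hv hvB]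
    ext g
    simp only [mem_filter, mem_vLink]
    constructor
    · rintro ⟨⟨h1, h2⟩, h3⟩
      refine ⟨h1, kA _ h2 ?_⟩
      rw [← hit]
      exact insert_subset_insert v h3
    · rintro ⟨h1, h2⟩
      refine ⟨⟨h1, kA' _ h2⟩, ?_⟩
      obtain ⟨b, hb, h3⟩ := mem_joinBd.1 h2
      intro x hx
      have hx1 : x ∈ insert v g := by
        rw [← h3]; exact mem_union_left _ (mem_of_mem_erase hx)
      rcases mem_insert.1 hx1 with h4 | h4
      · exact absurd h4 (ne_of_mem_erase hx)
      · exact h4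
  have n1 : ∀ f ∈ vLink v K, ¬ B ⊆ f := by
    intro f hf hBf
    obtain ⟨h1, h2⟩ := mem_vLink.1 hf
    have h3 := kB _ h2 (hBf.trans (subset_insert v f))
    obtain ⟨c, hc, h4⟩ := mem_joinBd.1 h3
    have h5 : v ∈ B ∪ C.erase c := by rw [h4]; exact mem_insert_self v f
    rcases mem_union.1 h5 with h6 | h6
    · exact hvB h6
    · exact hvC (mem_of_mem_erase h6)
  have s1 := PLSphere.flip (vLink v K) t B hl htne hBne htB (by omega) l1 n1
  -- the second flip
  have c1 : ∀ g ∈ joinBd B t, ¬ C ⊆ g := by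
    intro g hg hCg
    obtain ⟨a, ha, rfl⟩ := mem_joinBd.1 hg
    obtain ⟨c, hc⟩ := hCne
    rcases mem_union.1 (hCg hc) with h6 | h6
    · exact disjoint_left.1 hBC h6 hc
    · exact disjoint_left.1 htC (mem_of_mem_erase h6) hc
  have c2 : ∀ g ∈ joinBd C t, C ⊆ g ∧ ¬ t ⊆ g := by
    intro g hg
    obtain ⟨a, ha, rfl⟩ := mem_joinBd.1 hg
    refine ⟨subset_union_left, fun h6 => ?_⟩
    rcases mem_union.1 (h6 ha) with h7 | h7
    · exact disjoint_left.1 htC ha h7
    · exact notMem_erase a t h7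
  have c3 : ∀ g ∈ joinBd t B, t ⊆ g := by
    intro g hg
    obtain ⟨a, ha, rfl⟩ := mem_joinBd.1 hg
    exact subset_union_left
  have c4 : ∀ g ∈ joinBd B t, ¬ t ⊆ g := by
    intro g hg h6
    obtain ⟨a, ha, rfl⟩ := mem_joinBd.1 hg
    rcases mem_union.1 (h6 ha) with h7 | h7
    · exact disjoint_left.1 htB ha h7
    · exact notMem_erase a t h7
  have c5 : vLink v (joinBd C A) = joinBd C t := vLink_joinBd_right hvC hv
  have l2 : LinkIsBd (vLink v K \ joinBd t B ∪ joinBd B t) C t := by
    unfold LinkIsBd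
    ext g
    simp only [mem_filter, mem_union, mem_sdiff]
    constructor
    · rintro ⟨⟨h1, h2⟩ | h1, h3⟩
      · rw [← c5]
        obtain ⟨h4, h5⟩ := mem_vLink.1 h1
        exact mem_vLink.2 ⟨h4, kC _ h5 (h3.trans (subset_insert v g))⟩
      · exact absurd h3 (c1 g h1)
    · intro h1
      obtain ⟨h2, h3⟩ := c2 g h1
      refine ⟨Or.inl ⟨?_, fun h4 => h3 (c3 g h4)⟩, h2⟩
      rw [← c5] at h1
      obtain ⟨h4, h5⟩ := mem_vLink.1 h1
      exact mem_vLink.2 ⟨h4, kC' _ h5⟩
  have n2 : ∀ f ∈ vLink v K \ joinBd t B ∪ joinBd B t, ¬ t ⊆ f := by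
    intro f hf htf
    rcases mem_union.1 hf with h1 | h1
    · obtain ⟨h2, h3⟩ := mem_sdiff.1 h1
      apply h3
      unfold LinkIsBd at l1
      rw [← l1]
      exact mem_filter.2 ⟨h2, htf⟩
    · exact c4 f h1 htf
  have s2 := PLSphere.flip _ C t s1 hCne htne htC.symm (by omega) l2 n2
  have e : vLink v (tripleFlip K A B C) =
      ((vLink v K \ joinBd t B ∪ joinBd B t) \ joinBd C t) ∪ joinBd t C := by
    unfold tripleFlip
    rw [vLink_union, vLink_sdiff, vLink_union, vLink_union, vLink_union, vLink_union,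
      vLink_joinBd_left hv hvB, vLink_joinBd_none hvB hvC, vLink_joinBd_right hvC hv,
      vLink_joinBd_right hvB hv, vLink_joinBd_none hvC hvB, vLink_joinBd_left hv hvC, ← ht]
    ext g
    simp only [mem_union, mem_sdiff, notMem_empty, or_false]
    have := c1 g
    have := c2 g
    tauto
  rw [e]
  exact s2

/-- A triple flip keeps the dimension of the facets and keeps all vertex links combinatorial
spheres. -/
theorem vLink_flip {K : Cx} {A B C : Finset (Fin 15)} (hc : ∀ f ∈ K, f.card = 9)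
    (h : IsTriple K A B C) (hl : ∀ v, PLSphere 7 (vLink v K)) :
    (∀ f ∈ tripleFlip K A B C, f.card = 9) ∧ ∀ v, PLSphere 7 (vLink v (tripleFlip K A B C)) := by
  have h' := h
  obtain ⟨hA, hB, hC, hAB, hBC, hAC, -, -, -⟩ := h'
  constructor
  · intro f hf
    unfold tripleFlip at hf
    rcases mem_union.1 hf with h1 | h1
    · exact hc f (mem_sdiff.1 h1).1
    · rcases mem_union.1 h1 with h2 | h2
      · rcases mem_union.1 h2 with h3 | h3
        · exact card_joinBd hB hA hAB.symm h3
        · exact card_joinBd hC hB hBC.symm h3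
      · exact card_joinBd hA hC hAC h2
  · intro v
    have hu : v ∈ A ∨ v ∈ B ∨ v ∈ C := by
      have h1 : (A ∪ B ∪ C).card = 15 := by
        rw [card_union_of_disjoint (disjoint_union_left.2 ⟨hAC, hBC⟩),
          card_union_of_disjoint hAB, hA, hB, hC]
      have h2 : A ∪ B ∪ C = univ := by
        rw [← card_eq_iff_eq_univ]
        rw [h1]; rfl
      have h3 : v ∈ A ∪ B ∪ C := by rw [h2]; exact mem_univ v
      simpa [or_assoc] using h3
    rcases hu with h1 | h1 | h1
    · exact vLink_flip_aux h h1 (hl v)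
    · rw [← tripleFlip_rot]
      exact vLink_flip_aux h.rot h1 (hl v)
    · rw [← tripleFlip_rot, ← tripleFlip_rot]
      exact vLink_flip_aux h.rot.rot h1 (hl v)

end Pool.Agent.H49.TF
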