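import Pool.Agent.H49.TF.Pres

/-!
The class of complexes is closed under renaming the vertices and under triple flips, and a triple
flip can be undone by a triple flip.
-/

set_option autoImplicit false

namespace Pool.Agent.H49.TF

open Finset

/-! ### Renaming -/

theorem mem_relabel {σ : Equiv.Perm (Fin 15)} {K : Cx} {f : Finset (Fin 15)} :
    f ∈ relabel σ K ↔ f.image σ.symm ∈ K := by
  unfold relabel
  simp only [mem_image]
  constructor
  · rintro ⟨g, hg, rfl⟩
    rwa [image_image, Equiv.symm_comp_self, image_id]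
  · intro h
    exact ⟨_, h, by rw [image_image, Equiv.self_comp_symm, image_id]⟩

theorem image_mem_relabel {σ : Equiv.Perm (Fin 15)} {K : Cx} {f : Finset (Fin 15)} :
    f.image σ ∈ relabel σ K ↔ f ∈ K := by
  rw [mem_relabel, image_image, Equiv.symm_comp_self, image_id]

theorem relabel_union (σ : Equiv.Perm (Fin 15)) (K L : Cx) :
    relabel σ (K ∪ L) = relabel σ K ∪ relabel σ L := image_union K L

theorem relabel_sdiff (σ : Equiv.Perm (Fin 15)) (K L : Cx) :
    relabel σ (K \ L) = relabel σ K \ relabel σ L :=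
  image_sdiff K L (image_injective σ.injective)

theorem relabel_joinBd (σ : Equiv.Perm (Fin 15)) (A B : Finset (Fin 15)) :
    relabel σ (joinBd A B) = joinBd (A.image σ) (B.image σ) := by
  ext f
  unfold relabel joinBd
  simp only [mem_image]
  constructor
  · rintro ⟨_, ⟨b, hb, rfl⟩, rfl⟩
    exact ⟨σ b, ⟨b, hb, rfl⟩, by rw [image_union, image_erase σ.injective]⟩
  · rintro ⟨_, ⟨b, hb, rfl⟩, rfl⟩
    exact ⟨_, ⟨b, hb, rfl⟩, by rw [image_union, image_erase σ.injective]⟩

theorem image_subset_image_perm {σ : Equiv.Perm (Fin 15)} {A B : Finset (Fin 15)} :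
    A.image σ ⊆ B.image σ ↔ A ⊆ B := image_subset_image_iff σ.injective

theorem LinkIsBd.relabel (σ : Equiv.Perm (Fin 15)) {K : Cx} {A B : Finset (Fin 15)}
    (h : LinkIsBd K A B) : LinkIsBd (relabel σ K) (A.image σ) (B.image σ) := by
  unfold LinkIsBd at h ⊢
  rw [← relabel_joinBd, ← h]
  ext f
  have hf : f = (f.image σ.symm).image σ := by
    rw [image_image, Equiv.self_comp_symm, image_id]
  rw [hf]
  generalize f.image σ.symm = g
  rw [mem_filter, image_mem_relabel, image_mem_relabel, mem_filter, image_subset_image_perm]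

theorem relabel_simplex (σ : Equiv.Perm (Fin 15)) (S : Finset (Fin 15)) :
    relabel σ (S.image fun s => S.erase s) = (S.image σ).image fun s => (S.image σ).erase s := by
  have h := relabel_joinBd σ ∅ S
  unfold joinBd at h
  simpa using h

theorem PLSphere.relabel (σ : Equiv.Perm (Fin 15)) {d : ℕ} {K : Cx} (h : PLSphere d K) :
    PLSphere d (relabel σ K) := by
  induction h with
  | simplex S hS =>
      rw [relabel_simplex]
      exact PLSphere.simplex _ (by rw [card_image_of_injective _ σ.injective, hS])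
  | flip K A B hK hA hB hd hc hl hn ih =>
      rw [relabel_union, relabel_sdiff, relabel_joinBd, relabel_joinBd]
      refine PLSphere.flip _ _ _ ih (hA.image σ) (hB.image σ) ?_ ?_ (hl.relabel σ) ?_
      · exact (disjoint_image σ.injective).2 hd
      · rw [card_image_of_injective _ σ.injective, card_image_of_injective _ σ.injective, hc]
      · intro f hf hBf
        obtain ⟨g, hg, rfl⟩ := mem_image.1 hf
        exact hn g hg (image_subset_image_perm.1 hBf)

theorem vLink_relabel (σ : Equiv.Perm (Fin 15)) (v : Fin 15) (K : Cx) :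
    vLink (σ v) (relabel σ K) = relabel σ (vLink v K) := by
  ext f
  have hf : f = (f.image σ.symm).image σ := by
    rw [image_image, Equiv.self_comp_symm, image_id]
  rw [hf]
  generalize f.image σ.symm = g
  rw [mem_vLink, image_mem_relabel, mem_vLink, ← image_insert, image_mem_relabel]
  have : σ v ∈ g.image σ ↔ v ∈ g := by
    rw [mem_image]
    exact ⟨fun ⟨a, ha, h⟩ => σ.injective h ▸ ha, fun h => ⟨v, h, rfl⟩⟩
  rw [this]

theorem mem_faces {K : Cx} {s : Finset (Fin 15)} :
    s ∈ faces K ↔ s ≠ ∅ ∧ ∃ f ∈ K, s ⊆ f := by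
  unfold faces
  simp only [mem_erase, mem_biUnion, mem_powerset]

theorem faces_relabel (σ : Equiv.Perm (Fin 15)) (K : Cx) :
    faces (relabel σ K) = relabel σ (faces K) := by
  ext f
  have hf : f = (f.image σ.symm).image σ := by
    rw [image_image, Equiv.self_comp_symm, image_id]
  rw [hf]
  generalize f.image σ.symm = g
  rw [mem_faces, image_mem_relabel, mem_faces]
  constructor
  · rintro ⟨h1, h, h2, h3⟩
    refine ⟨fun h4 => h1 (by rw [h4, image_empty]), ?_⟩
    obtain ⟨k, hk, rfl⟩ := mem_image.1 h2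
    exact ⟨k, hk, image_subset_image_perm.1 h3⟩
  · rintro ⟨h1, h, h2, h3⟩
    exact ⟨fun h4 => h1 (image_eq_empty.1 h4), h.image σ, image_mem_relabel.2 h2,
      image_subset_image_perm.2 h3⟩

theorem eulerChar_relabel (σ : Equiv.Perm (Fin 15)) (K : Cx) :
    eulerChar (relabel σ K) = eulerChar K := by
  unfold eulerChar
  rw [faces_relabel]
  unfold relabel
  rw [sum_image fun a _ b _ h => image_injective σ.injective h]
  refine sum_congr rfl fun s _ => ?_
  rw [card_image_of_injective _ σ.injective]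

theorem InM.relabel (σ : Equiv.Perm (Fin 15)) {K : Cx} (h : InM K) : InM (relabel σ K) := by
  obtain ⟨h1, h2, h3⟩ := h
  refine ⟨?_, ?_, ?_⟩
  · intro f hf
    obtain ⟨g, hg, rfl⟩ := mem_image.1 hf
    rw [card_image_of_injective _ σ.injective, h1 g hg]
  · intro v
    have h4 := vLink_relabel σ (σ.symm v) K
    rw [Equiv.apply_symm_apply] at h4
    rw [h4]
    exact (h2 _).relabel σ
  · rw [eulerChar_relabel, h3]

theorem relabel_relabel (σ τ : Equiv.Perm (Fin 15)) (K : Cx) :
    relabel σ (relabel τ K) = relabel (τ.trans σ) K := by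
  ext f
  rw [mem_relabel, mem_relabel, mem_relabel, image_image]
  rfl

theorem relabel_symm (σ : Equiv.Perm (Fin 15)) (K : Cx) : relabel σ.symm (relabel σ K) = K := by
  ext f
  rw [relabel_relabel, mem_relabel]
  simp

/-! ### Undoing a triple flip -/

theorem joinBd_sup {A B f : Finset (Fin 15)} (h : f ∈ joinBd A B) : A ⊆ f := by
  obtain ⟨b, hb, rfl⟩ := mem_joinBd.1 h
  exact subset_union_left

theorem joinBd_not_sup {A B f : Finset (Fin 15)} (hd : Disjoint A B) (h : f ∈ joinBd A B) :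
    ¬ B ⊆ f := by
  obtain ⟨b, hb, rfl⟩ := mem_joinBd.1 h
  intro h1
  rcases mem_union.1 (h1 hb) with h2 | h2
  · exact disjoint_left.1 hd h2 hb
  · exact notMem_erase b B h2

theorem joinBd_not_other {A B C f : Finset (Fin 15)} (hC : C.Nonempty) (hAC : Disjoint A C)
    (hBC : Disjoint B C) (h : f ∈ joinBd A B) : ¬ C ⊆ f := by
  obtain ⟨b, hb, rfl⟩ := mem_joinBd.1 h
  intro h1
  obtain ⟨c, hc⟩ := hC
  rcases mem_union.1 (h1 hc) with h2 | h2
  · exact disjoint_left.1 hAC h2 hc
  · exact disjoint_left.1 hBC (mem_of_mem_erase h2) hc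

theorem IsTriple.nonempty {K : Cx} {A B C : Finset (Fin 15)} (h : IsTriple K A B C) :
    A.Nonempty ∧ B.Nonempty ∧ C.Nonempty := by
  obtain ⟨h1, h2, h3, -⟩ := h
  exact ⟨card_pos.1 (by omega), card_pos.1 (by omega), card_pos.1 (by omega)⟩

theorem IsTriple.link_flip {K : Cx} {A B C : Finset (Fin 15)} (h : IsTriple K A B C) :
    LinkIsBd (tripleFlip K A B C) A C := by
  obtain ⟨nA, nB, nC⟩ := h.nonempty
  obtain ⟨h1, h2, h3, hAB, hBC, hAC, lAB, lBC, lCA⟩ := h
  unfold LinkIsBd tripleFlip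
  ext f
  simp only [mem_filter, mem_union, mem_sdiff]
  constructor
  · rintro ⟨⟨h4, h5⟩ | (h4 | h4) | h4, h6⟩
    · refine absurd ?_ h5
      left; left
      rw [← lAB]
      exact mem_filter.2 ⟨h4, h6⟩
    · exact absurd h6 (joinBd_not_sup hAB.symm h4)
    · exact absurd h6 (joinBd_not_other nA hAC.symm hAB.symm h4)
    · exact h4
  · intro h4
    exact ⟨Or.inr (Or.inr h4), joinBd_sup h4⟩

/-- The reverse operation is again a triple flip. -/
theorem IsTriple.flip {K : Cx} {A B C : Finset (Fin 15)} (h : IsTriple K A B C) :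
    IsTriple (tripleFlip K A B C) A C B := by
  have l1 := h.link_flip
  have l2 := h.rot.link_flip
  have l3 := h.rot.rot.link_flip
  rw [tripleFlip_rot] at l2
  rw [tripleFlip_rot, tripleFlip_rot] at l3
  obtain ⟨h1, h2, h3, hAB, hBC, hAC, -, -, -⟩ := h
  exact ⟨h1, h3, h2, hAC, hBC.symm, hAB, l1, l3, l2⟩

theorem tripleFlip_flip {K : Cx} {A B C : Finset (Fin 15)} (h : IsTriple K A B C) :
    tripleFlip (tripleFlip K A B C) A C B = K := by
  obtain ⟨nA, nB, nC⟩ := h.nonempty
  obtain ⟨h1, h2, h3, hAB, hBC, hAC, lAB, lBC, lCA⟩ := h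
  have kAB : ∀ f ∈ joinBd A B, f ∈ K := fun f hf => by
    rw [← lAB] at hf; exact (mem_filter.1 hf).1
  have kBC : ∀ f ∈ joinBd B C, f ∈ K := fun f hf => by
    rw [← lBC] at hf; exact (mem_filter.1 hf).1
  have kCA : ∀ f ∈ joinBd C A, f ∈ K := fun f hf => by
    rw [← lCA] at hf; exact (mem_filter.1 hf).1
  have rBA : ∀ f ∈ joinBd B A, f ∉ K := fun f hf hK => by
    have h4 : f ∈ joinBd B C := by rw [← lBC]; exact mem_filter.2 ⟨hK, joinBd_sup hf⟩
    obtain ⟨b, hb, h5⟩ := mem_joinBd.1 hf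
    exact joinBd_not_sup hBC h4 (by
      exfalso
      have h6 : (5 : ℕ) ≤ 0 := by
        have h7 : Disjoint f C := by
          rw [← h5]
          exact disjoint_union_left.2 ⟨hBC, hAC.mono_left (erase_subset b A)⟩
        obtain ⟨c, hc, h8⟩ := mem_joinBd.1 h4
        have h9 : C.erase c ⊆ f := by rw [← h8]; exact subset_union_right
        have h10 : Disjoint (C.erase c) C := h7.mono_left h9
        have h11 : C.erase c = ∅ := by
          rw [← disjoint_self_iff_empty]
          exact h10.mono_right (erase_subset c C)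
        have h12 := card_erase_of_mem hc
        rw [h11, h3] at h12
        simp at h12
      omega)
  have rCB : ∀ f ∈ joinBd C B, f ∉ K := fun f hf hK => by
    have h4 : f ∈ joinBd C A := by rw [← lCA]; exact mem_filter.2 ⟨hK, joinBd_sup hf⟩
    obtain ⟨b, hb, h5⟩ := mem_joinBd.1 hf
    have h7 : Disjoint f A := by
      rw [← h5]
      exact disjoint_union_left.2 ⟨hAC.symm, hAB.symm.mono_left (erase_subset b B)⟩
    obtain ⟨c, hc, h8⟩ := mem_joinBd.1 h4
    have h9 : A.erase c ⊆ f := by rw [← h8]; exact subset_union_right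
    have h10 : Disjoint (A.erase c) A := h7.mono_left h9
    have h11 : A.erase c = ∅ := by
      rw [← disjoint_self_iff_empty]
      exact h10.mono_right (erase_subset c A)
    have h12 := card_erase_of_mem hc
    rw [h11, h1] at h12
    simp at h12
  have rAC : ∀ f ∈ joinBd A C, f ∉ K := fun f hf hK => by
    have h4 : f ∈ joinBd A B := by rw [← lAB]; exact mem_filter.2 ⟨hK, joinBd_sup hf⟩
    obtain ⟨b, hb, h5⟩ := mem_joinBd.1 hf
    have h7 : Disjoint f B := by
      rw [← h5]
      exact disjoint_union_left.2 ⟨hAB, hBC.symm.mono_left (erase_subset b C)⟩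
    obtain ⟨c, hc, h8⟩ := mem_joinBd.1 h4
    have h9 : B.erase c ⊆ f := by rw [← h8]; exact subset_union_right
    have h10 : Disjoint (B.erase c) B := h7.mono_left h9
    have h11 : B.erase c = ∅ := by
      rw [← disjoint_self_iff_empty]
      exact h10.mono_right (erase_subset c B)
    have h12 := card_erase_of_mem hc
    rw [h11, h2] at h12
    simp at h12
  unfold tripleFlip
  ext f
  have a1 := kAB f
  have a2 := kBC f
  have a3 := kCA f
  have a4 := rBA f
  have a5 := rCB f
  have a6 := rAC f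
  simp only [mem_union, mem_sdiff]
  tauto

/-! ### The Euler characteristic -/

theorem sum_faces_sup {K : Cx} {A B : Finset (Fin 15)} (hA : A.card = 5) (hB : B.card = 5)
    (hd : Disjoint A B) (hl : LinkIsBd K A B) :
    ∑ s ∈ (faces K).filter (fun s => A ⊆ s), (-1 : ℤ) ^ (s.card + 1) = 1 := by
  have hBne : B.Nonempty := card_pos.1 (by omega)
  have hAne : A.Nonempty := card_pos.1 (by omega)
  have e : (faces K).filter (fun s => A ⊆ s) = (B.powerset.erase B).image fun S => A ∪ S := by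
    ext s
    simp only [mem_filter, mem_faces, mem_image, mem_erase, mem_powerset]
    constructor
    · rintro ⟨⟨h1, f, h2, h3⟩, h4⟩
      have h5 : f ∈ joinBd A B := by
        rw [← hl]; exact mem_filter.2 ⟨h2, h4.trans h3⟩
      obtain ⟨b, hb, rfl⟩ := mem_joinBd.1 h5
      refine ⟨s \ A, ⟨?_, ?_⟩, union_sdiff_of_subset h4⟩
      · intro h6
        rw [← h6] at hb
        obtain ⟨h7, h8⟩ := mem_sdiff.1 hb
        rcases mem_union.1 (h3 h7) with h9 | h9
        · exact h8 h9
        · rw [← h6] at h9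
          exact notMem_erase _ _ h9
      · intro x hx
        obtain ⟨h7, h8⟩ := mem_sdiff.1 hx
        rcases mem_union.1 (h3 h7) with h9 | h9
        · exact absurd h9 h8
        · exact mem_of_mem_erase h9
    · rintro ⟨S, ⟨h1, h2⟩, rfl⟩
      obtain ⟨b, hb, hbS⟩ := exists_of_ssubset (Finset.ssubset_iff_subset_ne.2 ⟨h2, h1⟩)
      refine ⟨⟨?_, A ∪ B.erase b, ?_, ?_⟩, subset_union_left⟩
      · obtain ⟨a, ha⟩ := hAne
        exact ne_empty_of_mem (mem_union_left _ ha)
      · have h3 : A ∪ B.erase b ∈ joinBd A B := mem_joinBd.2 ⟨b, hb, rfl⟩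
        rw [← hl] at h3
        exact (mem_filter.1 h3).1
      · refine union_subset_union_right fun x hx => mem_erase.2 ⟨?_, h2 hx⟩
        rintro rfl
        exact hbS hx
  rw [e, sum_image]
  · have h1 : ∀ S ∈ B.powerset.erase B, (-1 : ℤ) ^ ((A ∪ S).card + 1) = (-1) ^ S.card := by
      intro S hS
      have h2 : S ⊆ B := mem_powerset.1 (mem_of_mem_erase hS)
      rw [card_union_of_disjoint (hd.mono_right h2), hA, show 5 + S.card + 1 = S.card + 6 by ring,
        pow_add]
      norm_num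
    rw [sum_congr rfl h1]
    have h3 := sum_powerset_neg_one_pow_card_of_nonempty hBne
    rw [← add_sum_erase _ _ (mem_powerset.2 (Subset.refl B)), hB] at h3
    linarith
  · intro S hS T hT h
    have hS' : S ⊆ B := mem_powerset.1 (mem_of_mem_erase (mem_coe.1 hS))
    have hT' : T ⊆ B := mem_powerset.1 (mem_of_mem_erase (mem_coe.1 hT))
    have h' : A ∪ S = A ∪ T := h
    have h4 : (A ∪ S) \ A = (A ∪ T) \ A := by rw [h']
    rwa [union_sdiff_cancel_left (hd.mono_right hS'), union_sdiff_cancel_left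
      (hd.mono_right hT')] at h4

theorem no_two_sup {K : Cx} {A B C : Finset (Fin 15)} (hC : C.Nonempty) (hAB : Disjoint A B)
    (hAC : Disjoint A C) (hBC : Disjoint B C) (hl : LinkIsBd K A B) {s : Finset (Fin 15)}
    (hs : s ∈ faces K) (hA : A ⊆ s) : ¬ B ⊆ s ∧ ¬ C ⊆ s := by
  obtain ⟨-, f, hf, hsf⟩ := mem_faces.1 hs
  have h5 : f ∈ joinBd A B := by
    rw [← hl]; exact mem_filter.2 ⟨hf, hA.trans hsf⟩
  exact ⟨fun h => joinBd_not_sup hAB h5 (h.trans hsf),
    fun h => joinBd_not_other hC hAC hBC h5 (h.trans hsf)⟩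

theorem sum_add_triple {s : Cx} {f g h k : Finset (Fin 15) → ℤ} (e1 : ∑ x ∈ s, f x = 1)
    (e2 : ∑ x ∈ s, g x = 1) (e3 : ∑ x ∈ s, h x = 1) :
    ∑ x ∈ s, (f x + g x + h x + k x) = (1 + 1 + 1) + ∑ x ∈ s, k x := by
  rw [sum_add_distrib, sum_add_distrib, sum_add_distrib, e1, e2, e3]

theorem eulerChar_split {K : Cx} {A B C : Finset (Fin 15)} (h : IsTriple K A B C) :
    eulerChar K = 3 + ∑ s ∈ (faces K).filter (fun s => ¬ A ⊆ s ∧ ¬ B ⊆ s ∧ ¬ C ⊆ s),
      (-1 : ℤ) ^ (s.card + 1) := by
  obtain ⟨nA, nB, nC⟩ := h.nonempty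
  obtain ⟨h1, h2, h3, hAB, hBC, hAC, lAB, lBC, lCA⟩ := h
  have e1 := sum_faces_sup h1 h2 hAB lAB
  have e2 := sum_faces_sup h2 h3 hBC lBC
  have e3 := sum_faces_sup h3 h1 hAC.symm lCA
  rw [sum_filter] at e1 e2 e3 ⊢
  unfold eulerChar
  have e5 : ∀ X : ℤ, 3 + X = (1 + 1 + 1) + X := fun X => by ring
  rw [e5, ← sum_add_triple e1 e2 e3]
  refine sum_congr rfl fun s hs => ?_
  have b1 := no_two_sup nC hAB hAC hBC lAB hs
  have b2 := no_two_sup nA hBC hAB.symm hAC.symm lBC hs
  have b3 := no_two_sup nB hAC.symm hBC.symm hAB lCA hs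
  by_cases c1 : A ⊆ s
  · simp [c1, (b1 c1).1, (b1 c1).2]
  · by_cases c2 : B ⊆ s
    · simp [c1, c2, (b2 c2).1]
    · by_cases c3 : C ⊆ s
      · simp [c1, c2, c3]
      · simp [c1, c2, c3]

theorem faces_flip_sub {K : Cx} {A B C : Finset (Fin 15)} (_h : IsTriple K A B C)
    {s : Finset (Fin 15)} (hs : s ∈ faces K) (hA : ¬ A ⊆ s) (hB : ¬ B ⊆ s) (hC : ¬ C ⊆ s) :
    s ∈ faces (tripleFlip K A B C) := by
  obtain ⟨hne, f, hf, hsf⟩ := mem_faces.1 hs
  refine mem_faces.2 ⟨hne, ?_⟩
  -- a face below `A ∪ B.erase b` which does not contain `A` is below `B ∪ A.erase a`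
  have key : ∀ X Y : Finset (Fin 15), f ∈ joinBd X Y → ¬ X ⊆ s → ∃ g ∈ joinBd Y X, s ⊆ g := by
    intro X Y h1 h2
    obtain ⟨y, hy, h3⟩ := mem_joinBd.1 h1
    obtain ⟨x, hx, hxs⟩ := not_subset.1 h2
    refine ⟨Y ∪ X.erase x, mem_joinBd.2 ⟨x, hx, rfl⟩, fun z hz => ?_⟩
    have h4 := hsf hz
    rw [← h3] at h4
    rcases mem_union.1 h4 with h5 | h5
    · refine mem_union_right _ (mem_erase.2 ⟨?_, h5⟩)
      rintro rfl
      exact hxs hz
    · exact mem_union_left _ (mem_of_mem_erase h5)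
  unfold tripleFlip
  by_cases c1 : f ∈ joinBd A B
  · obtain ⟨g, hg, h6⟩ := key A B c1 hA
    exact ⟨g, mem_union_right _ (mem_union_left _ (mem_union_left _ hg)), h6⟩
  · by_cases c2 : f ∈ joinBd B C
    · obtain ⟨g, hg, h6⟩ := key B C c2 hB
      exact ⟨g, mem_union_right _ (mem_union_left _ (mem_union_right _ hg)), h6⟩
    · by_cases c3 : f ∈ joinBd C A
      · obtain ⟨g, hg, h6⟩ := key C A c3 hC
        exact ⟨g, mem_union_right _ (mem_union_right _ hg), h6⟩
      · refine ⟨f, mem_union_left _ (mem_sdiff.2 ⟨hf, ?_⟩), hsf⟩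
        simp only [mem_union, not_or]
        exact ⟨⟨c1, c2⟩, c3⟩

/-- A triple flip does not change the Euler characteristic. -/
theorem eulerChar_flip {K : Cx} {A B C : Finset (Fin 15)} (h : IsTriple K A B C) :
    eulerChar (tripleFlip K A B C) = eulerChar K := by
  have h' := h.flip
  rw [eulerChar_split h, eulerChar_split h']
  congr 1
  refine sum_congr ?_ fun _ _ => rfl
  ext s
  simp only [mem_filter]
  constructor
  · rintro ⟨h1, h2, h3, h4⟩
    refine ⟨?_, h2, h4, h3⟩
    have h5 := faces_flip_sub h' h1 h2 h3 h4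
    rwa [tripleFlip_flip h] at h5
  · rintro ⟨h1, h2, h3, h4⟩
    exact ⟨faces_flip_sub h h1 h2 h3 h4, h2, h4, h3⟩

/-- The class is closed under triple flips. -/
theorem InM.tripleFlip {K : Cx} {A B C : Finset (Fin 15)} (h : IsTriple K A B C) (hM : InM K) :
    InM (tripleFlip K A B C) := by
  obtain ⟨h1, h2, h3⟩ := hM
  obtain ⟨h4, h5⟩ := vLink_flip h1 h h2
  exact ⟨h4, h5, by rw [eulerChar_flip h, h3]⟩

theorem InM.step {K L : Cx} (hM : InM K) (h : Step K L) : InM L := by
  rcases h with ⟨A, B, C, h, rfl⟩ | ⟨σ, rfl⟩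
  · exact InM.tripleFlip h hM
  · exact hM.relabel σ

theorem Step.symm {K L : Cx} (h : Step K L) : Step L K := by
  rcases h with ⟨A, B, C, h, rfl⟩ | ⟨σ, rfl⟩
  · exact Or.inl ⟨A, C, B, h.flip, (tripleFlip_flip h).symm⟩
  · exact Or.inr ⟨σ.symm, (relabel_symm σ K).symm⟩

end Pool.Agent.H49.TF
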