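import Pool.Agent.H49.TF.Base
import Pool.Agent.H49.TF.Relab

/-!
Soundness of the bitset checks: triple flips and bistellar flips.
-/

set_option autoImplicit false

namespace Pool.Agent.H49.TF

open Finset

theorem cx_land (N M : ℕ) : cx (N &&& M) = cx N ∩ cx M := by
  ext f; simp [mem_cx, Nat.testBit_and]

theorem cx_lor (N M : ℕ) : cx (N ||| M) = cx N ∪ cx M := by
  ext f; simp [mem_cx, Nat.testBit_or]

theorem cx_xor {N M : ℕ} (h : cx M ⊆ cx N) : cx (N ^^^ M) = cx N \ cx M := by
  ext f
  have := @h f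
  simp only [mem_cx] at this
  simp only [mem_cx, Nat.testBit_xor, mem_sdiff]
  cases h1 : N.testBit (code f) <;> cases h2 : M.testBit (code f) <;> simp_all

theorem foldl_land (A m : ℕ) (l : List ℕ) (x : ℕ) :
    (l.foldl (fun acc i => if A.testBit i then acc &&& Mf i else acc) x).testBit m = true ↔
      x.testBit m = true ∧ ∀ i ∈ l, A.testBit i = true → (Mf i).testBit m = true := by
  induction l generalizing x with
  | nil => simp
  | cons a l ih =>
    rw [List.foldl_cons, ih]
    by_cases ha : A.testBit a = true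
    · simp [ha, Nat.testBit_and, and_assoc]
    · simp [ha]

theorem mem_cx_supM {A : ℕ} {f : Finset (Fin 15)} : f ∈ cx (supM A) ↔ dec A ⊆ f := by
  rw [mem_cx, supM, foldl_land, Nat.testBit_two_pow_sub_one]
  have h0 := code_lt f
  constructor
  · rintro ⟨-, h⟩ i hi
    have := h i (List.mem_range.mpr i.2) (mem_dec.mp hi)
    rw [testBit_Mf i.2, testBit_code] at this
    simpa using (Bool.and_eq_true_iff.mp this).2
  · intro h
    refine ⟨by simpa using h0, fun i hi hA => ?_⟩
    have hi' := List.mem_range.mp hi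
    rw [testBit_Mf hi']
    have := testBit_code f ⟨i, hi'⟩
    simp only at this
    rw [this]
    simp only [Bool.and_eq_true, decide_eq_true_eq]
    exact ⟨h0, h (mem_dec.mpr hA)⟩

theorem foldl_lor (A B m : ℕ) (l : List ℕ) (x : ℕ) :
    (l.foldl (fun acc i => if B.testBit i then acc ||| (1 <<< (A + (B - 2 ^ i))) else acc)
      x).testBit m = true ↔
      x.testBit m = true ∨ ∃ i ∈ l, B.testBit i = true ∧ m = A + (B - 2 ^ i) := by
  induction l generalizing x with
  | nil => simp
  | cons a l ih =>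
    rw [List.foldl_cons, ih]
    by_cases ha : B.testBit a = true
    · simp only [ha, if_true, Nat.testBit_or, Bool.or_eq_true, List.mem_cons, exists_eq_or_imp,
        true_and, Nat.one_shiftLeft, Nat.testBit_two_pow, decide_eq_true_eq]
      rw [or_assoc, eq_comm (a := A + (B - 2 ^ a))]
    · simp [ha]

theorem land_zero_iff {A B : ℕ} : A &&& B = 0 → Disjoint (dec A) (dec B) := by
  intro h
  rw [Finset.disjoint_left]
  intro i hA hB
  rw [mem_dec] at hA hB
  have := congrArg (fun x => x.testBit (i : ℕ)) h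
  simp [Nat.testBit_and, hA, hB] at this

theorem code_union {s t : Finset (Fin 15)} (h : Disjoint s t) : code (s ∪ t) = code s + code t := by
  simp only [code, sum_union h]

theorem code_erase {s : Finset (Fin 15)} {i : Fin 15} (h : i ∈ s) :
    code (s.erase i) = code s - 2 ^ (i : ℕ) := by
  have : code (s.erase i) + 2 ^ (i : ℕ) = code s := by
    simp only [code]
    rw [sum_erase_add _ _ h]
  omega

theorem cx_jb {A B : ℕ} (hA : A < 32768) (hB : B < 32768) (hd : Disjoint (dec A) (dec B)) :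
    cx (jb A B) = joinBd (dec A) (dec B) := by
  ext f
  rw [mem_cx, jb, foldl_lor, joinBd, mem_image]
  have key : ∀ i : Fin 15, i ∈ dec B →
      code (dec A ∪ (dec B).erase i) = A + (B - 2 ^ (i : ℕ)) := by
    intro i hi
    rw [code_union (hd.mono_right (erase_subset _ _)), code_erase hi, code_dec hA, code_dec hB]
  constructor
  · rintro (h | ⟨i, hi, hBi, hf⟩)
    · simp at h
    · have hi' := List.mem_range.mp hi
      refine ⟨⟨i, hi'⟩, mem_dec.mpr hBi, ?_⟩
      rw [← code_inj, key _ (mem_dec.mpr hBi), hf]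
  · rintro ⟨i, hi, rfl⟩
    exact Or.inr ⟨i, List.mem_range.mpr i.2, mem_dec.mp hi, key i hi⟩

theorem pop_eq (A : ℕ) : pop A = (dec A).card := by
  have : (dec A).map Fin.valEmbedding = (Finset.range 15).filter fun i => A.testBit i := by
    ext i
    simp only [mem_map, mem_dec, Fin.valEmbedding_apply, mem_filter, Finset.mem_range]
    constructor
    · rintro ⟨j, hj, rfl⟩; exact ⟨j.2, hj⟩
    · rintro ⟨hi, h⟩; exact ⟨⟨i, hi⟩, h, rfl⟩
  rw [← card_map Fin.valEmbedding, this, pop, Finset.card_def, Finset.filter_val,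
    Finset.range_val, Multiset.range, Multiset.filter_coe, Multiset.coe_card]
  congr 2
  funext i
  simp

theorem link_of {K A B : ℕ} (hA : A < 32768) (hB : B < 32768) (hd : Disjoint (dec A) (dec B))
    (h : K &&& supM A = jb A B) : LinkIsBd (cx K) (dec A) (dec B) := by
  rw [LinkIsBd, ← cx_jb hA hB hd, ← h, cx_land]
  ext f
  rw [mem_filter, mem_inter, mem_cx_supM]

theorem tripleOk_sound {N A B C : ℕ} (h : tripleOk N A B C = true) :
    IsTriple (cx N) (dec A) (dec B) (dec C) ∧
      cx (flipN N A B C) = tripleFlip (cx N) (dec A) (dec B) (dec C) := by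
  simp only [tripleOk, Bool.and_eq_true, decide_eq_true_eq, beq_iff_eq] at h
  obtain ⟨⟨⟨⟨⟨⟨⟨⟨⟨⟨⟨hA, hB⟩, hC⟩, pA⟩, pB⟩, pC⟩, dAB⟩, dBC⟩, dAC⟩, lA⟩, lB⟩, lC⟩ := h
  have dAB := land_zero_iff dAB
  have dBC := land_zero_iff dBC
  have dAC := land_zero_iff dAC
  rw [pop_eq] at pA pB pC
  have LA := link_of hA hB dAB lA
  have LB := link_of hB hC dBC lB
  have LC := link_of hC hA dAC.symm lC
  refine ⟨⟨pA, pB, pC, dAB, dBC, dAC, LA, LB, LC⟩, ?_⟩
  rw [flipN, cx_lor, cx_xor]
  · simp only [cx_lor, cx_jb hA hB dAB, cx_jb hB hC dBC, cx_jb hC hA dAC.symm,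
      cx_jb hB hA dAB.symm, cx_jb hC hB dBC.symm, cx_jb hA hC dAC, tripleFlip]
  · simp only [cx_lor, ← lA, ← lB, ← lC, cx_land]
    intro f hf
    simp only [mem_union, mem_inter] at hf
    tauto

theorem run_sound : ∀ (l : List (ℕ × ℕ)) (N N' : ℕ), run l N = some N' →
    Relation.EqvGen Step (cx N) (cx N')
  | [], N, N', h => by
    simp only [run, Option.some.injEq] at h
    subst h
    exact Relation.EqvGen.refl _
  | (A, B) :: l, N, N', h => by
    simp only [run] at h
    split_ifs at h with ht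
    obtain ⟨h1, h2⟩ := tripleOk_sound ht
    exact Relation.EqvGen.trans _ _ _ (Relation.EqvGen.rel _ _ (Or.inl ⟨_, _, _, h1, h2⟩))
      (run_sound l _ _ h)

theorem InM.eqvGen {K L : Cx} (h : Relation.EqvGen Step K L) : InM K ↔ InM L := by
  induction h with
  | rel x y h => exact ⟨fun hM => hM.step h, fun hM => hM.step h.symm⟩
  | refl x => exact Iff.rfl
  | symm x y _ ih => exact ih.symm
  | trans x y z _ _ ih1 ih2 => exact ih1.trans ih2

theorem bistOk_sound {L A B : ℕ} (h : bistOk L A B = true) (hL : PLSphere 7 (cx L)) :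
    PLSphere 7 (cx ((L ^^^ jb A B) ||| jb B A)) := by
  simp only [bistOk, Bool.and_eq_true, decide_eq_true_eq, beq_iff_eq, bne_iff_ne, ne_eq] at h
  obtain ⟨⟨⟨⟨⟨⟨⟨hA, hB⟩, nA⟩, nB⟩, dAB⟩, hc⟩, lA⟩, lB⟩ := h
  have dAB := land_zero_iff dAB
  rw [pop_eq, pop_eq] at hc
  have LA := link_of hA hB dAB lA
  have neA : (dec A).Nonempty := by
    rw [Finset.nonempty_iff_ne_empty]
    intro h0
    apply nA
    rw [← code_dec hA, h0]; rfl
  have neB : (dec B).Nonempty := by
    rw [Finset.nonempty_iff_ne_empty]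
    intro h0
    apply nB
    rw [← code_dec hB, h0]; rfl
  have hnf : ∀ f ∈ cx L, ¬ dec B ⊆ f := by
    intro f hf hs
    have : f ∈ cx (L &&& supM B) := by
      rw [cx_land, mem_inter, mem_cx_supM]; exact ⟨hf, hs⟩
    rw [lB] at this
    simp [mem_cx] at this
  have := PLSphere.flip (cx L) (dec A) (dec B) hL neA neB dAB hc LA hnf
  rw [cx_lor, cx_xor, cx_jb hA hB dAB, cx_jb hB hA dAB.symm]
  · exact this
  · rw [← lA, cx_land]; exact inter_subset_left

theorem runB_sound : ∀ (l : List (ℕ × ℕ)) (L L' : ℕ), runB l L = some L' →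
    PLSphere 7 (cx L) → PLSphere 7 (cx L')
  | [], L, L', h, hL => by
    simp only [runB, Option.some.injEq] at h
    subst h
    exact hL
  | (A, B) :: l, L, L', h, hL => by
    simp only [runB] at h
    split_ifs at h with ht
    exact runB_sound l _ _ h (bistOk_sound ht hL)

theorem simplex_sound {S : ℕ} (hS : S < 32768) (hp : pop S = 9) : PLSphere 7 (cx (jb 0 S)) := by
  have h0 : dec 0 = ∅ := by
    ext i; simp [mem_dec]
  rw [cx_jb (by norm_num) hS (by rw [h0]; exact disjoint_empty_left _), h0]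
  rw [pop_eq] at hp
  have := PLSphere.simplex (d := 7) (dec S) hp
  simpa [joinBd] using this

/-- links of vertices -/
theorem vLink_cx {N : ℕ} (hN : N < 2 ^ 32768) (v : Fin 15) : vLink v (cx N) = cx (lkN v N) := by
  ext g
  have key : ∀ m, (lkN v N).testBit m = (N.testBit (2 ^ (v : ℕ) + m) &&
      (2 ^ (v : ℕ) + m).testBit v) := by
    intro m
    rw [lkN, Nat.testBit_shiftRight, Nat.testBit_and, testBit_Mf v.2]
    by_cases hm : 2 ^ (v : ℕ) + m < 32768
    · simp [hm]
    · have : N.testBit (2 ^ (v : ℕ) + m) = false := by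
        apply Nat.testBit_lt_two_pow
        exact lt_of_lt_of_le hN (Nat.pow_le_pow_right (by norm_num) (not_lt.mp hm))
      simp [this]
  rw [mem_cx, key]
  simp only [vLink, mem_image, mem_filter, mem_cx, Bool.and_eq_true]
  have hbit : (2 ^ (v : ℕ) + code g).testBit v = true ↔ v ∉ g := by
    rw [Nat.testBit_two_pow_add_eq, testBit_code]
    simp
  rw [hbit]
  constructor
  · rintro ⟨f, ⟨hf, hv⟩, rfl⟩
    refine ⟨?_, notMem_erase _ _⟩
    rw [code_erase hv]
    have : 2 ^ (v : ℕ) ≤ code f := by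
      simp only [code]
      exact single_le_sum (f := fun i : Fin 15 => 2 ^ (i : ℕ)) (fun _ _ => Nat.zero_le _) hv
    rw [Nat.add_sub_cancel' this]
    exact hf
  · rintro ⟨h1, h2⟩
    refine ⟨insert v g, ⟨?_, mem_insert_self _ _⟩, erase_insert h2⟩
    have : code (insert v g) = 2 ^ (v : ℕ) + code g := by
      simp only [code, sum_insert h2]
    rw [this]; exact h1

end Pool.Agent.H49.TF
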