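import Pool.Agent.H49.TF.Base

/-!
Exchanging two vertices on bitsets, and automorphisms.
-/

set_option autoImplicit false

namespace Pool.Agent.H49.TF

open Finset

theorem image_swap_swap (i j : Fin 15) (f : Finset (Fin 15)) :
    (f.image (Equiv.swap i j)).image (Equiv.swap i j) = f := by
  rw [Finset.image_image]
  have : (Equiv.swap i j : Fin 15 → Fin 15) ∘ (Equiv.swap i j) = id := by
    funext x
    simp
  rw [this, Finset.image_id]

theorem mem_image_swap (i j x : Fin 15) (f : Finset (Fin 15)) :
    x ∈ f.image (Equiv.swap i j) ↔ Equiv.swap i j x ∈ f := by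
  constructor
  · intro h
    obtain ⟨y, hy, rfl⟩ := Finset.mem_image.1 h
    simpa using hy
  · intro h
    exact Finset.mem_image.2 ⟨_, h, by simp⟩

theorem code_injS {f g : Finset (Fin 15)} (h : code f = code g) : f = g := by
  rw [← dec_code f, ← dec_code g, h]

/-- the code of the image, when the smaller vertex is in the set and the larger one is not -/
theorem code_image {i j : Fin 15} (hij : i < j) {g : Finset (Fin 15)} (hi : i ∈ g) (hj : j ∉ g) :
    code (g.image (Equiv.swap i j)) = code g + (2 ^ (j : ℕ) - 2 ^ (i : ℕ)) := by
  have e : g.image (Equiv.swap i j) = insert j (g.erase i) := by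
    ext x
    rw [mem_image_swap]
    by_cases h1 : x = i
    · subst h1
      simp only [Equiv.swap_apply_left, mem_insert, mem_erase, ne_eq, not_true_eq_false, false_and,
        or_false]
      constructor
      · intro h
        exact absurd h hj
      · intro h
        exact absurd h (ne_of_lt hij)
    · by_cases h2 : x = j
      · subst h2
        simp [hi]
      · rw [Equiv.swap_apply_of_ne_of_ne h1 h2]
        simp [h1, h2]
  have hn : j ∉ g.erase i := fun h => hj (Finset.mem_of_mem_erase h)
  have e1 : code (insert j (g.erase i)) = 2 ^ (j : ℕ) + code (g.erase i) := by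
    unfold code
    rw [Finset.sum_insert hn]
  have e2 : code g = 2 ^ (i : ℕ) + code (g.erase i) := by
    unfold code
    rw [Finset.add_sum_erase g (fun x : Fin 15 => 2 ^ (x : ℕ)) hi]
  have hlt : 2 ^ (i : ℕ) < 2 ^ (j : ℕ) := Nat.pow_lt_pow_right (by norm_num) hij
  rw [e, e1, e2]
  omega

theorem testBit_swapN {i j : Fin 15} (hij : i < j) (N : ℕ) (f : Finset (Fin 15)) :
    (swapN i j N).testBit (code f) = N.testBit (code (f.image (Equiv.swap i j))) := by
  have hm := code_lt f
  set d : ℕ := 2 ^ (j : ℕ) - 2 ^ (i : ℕ) with hd
  -- the two shifted parts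
  have h2 : ((N &&& (Mf i ^^^ (Mf i &&& Mf j))) <<< d).testBit (code f) = true ↔
      (j ∈ f ∧ i ∉ f ∧ N.testBit (code (f.image (Equiv.swap i j))) = true) := by
    rw [Nat.testBit_shiftLeft, Nat.testBit_and, Nat.testBit_xor, Nat.testBit_and,
      testBit_Mf i.2, testBit_Mf j.2]
    constructor
    · intro h
      have h' : d ≤ code f ∧ N.testBit (code f - d) = true ∧ code f - d < 32768 ∧
          (code f - d).testBit i = true ∧ (code f - d).testBit j = false := by
        rcases hA : decide (code f ≥ d) with _ | _
        · simp [hA] at h
        · have hA' : d ≤ code f := by simpa using hA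
          have hB : code f - d < 32768 := by omega
          rcases hC : N.testBit (code f - d) with _ | _ <;>
          rcases hD : (code f - d).testBit (i : ℕ) with _ | _ <;>
          rcases hE : (code f - d).testBit (j : ℕ) with _ | _ <;>
          simp_all
      obtain ⟨a1, a2, a3, a4, a5⟩ := h'
      set g := dec (code f - d) with hg
      have hcg : code g = code f - d := code_dec a3
      have hig : i ∈ g := by
        have := testBit_code g i
        rw [hcg, a4] at this
        simpa using this.symm
      have hjg : j ∉ g := by
        have := testBit_code g j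
        rw [hcg, a5] at this
        simpa using this.symm
      have hc := code_image hij hig hjg
      rw [hcg, ← hd, Nat.sub_add_cancel a1] at hc
      have hf : g.image (Equiv.swap i j) = f := code_injS hc
      refine ⟨?_, ?_, ?_⟩
      · rw [← hf, mem_image_swap]
        simpa using hig
      · rw [← hf, mem_image_swap]
        simpa using hjg
      · rw [← hf, image_swap_swap, hcg]
        exact a2
    · rintro ⟨b1, b2, b3⟩
      set g := f.image (Equiv.swap i j) with hg
      have hig : i ∈ g := by
        rw [hg, mem_image_swap]
        simpa using b1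
      have hjg : j ∉ g := by
        rw [hg, mem_image_swap]
        simpa using b2
      have hc := code_image hij hig hjg
      rw [hg, image_swap_swap, ← hg, ← hd] at hc
      have hsub : code f - d = code g := by omega
      have hle : d ≤ code f := by omega
      have t1 := testBit_code g i
      have t2 := testBit_code g j
      have hlt := code_lt g
      rw [hsub, b3, t1, t2]
      simp [hle, hig, hjg, hlt]
  have h3 : ((N &&& (Mf j ^^^ (Mf i &&& Mf j))) >>> d).testBit (code f) = true ↔
      (i ∈ f ∧ j ∉ f ∧ N.testBit (code (f.image (Equiv.swap i j))) = true) := by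
    rw [Nat.testBit_shiftRight, Nat.testBit_and, Nat.testBit_xor, Nat.testBit_and,
      testBit_Mf i.2, testBit_Mf j.2]
    constructor
    · intro h
      have h' : N.testBit (d + code f) = true ∧ d + code f < 32768 ∧
          (d + code f).testBit j = true ∧ (d + code f).testBit i = false := by
        rcases hA : decide (d + code f < 32768) with _ | _
        · simp [hA] at h
        · have hA' : d + code f < 32768 := by simpa using hA
          rcases hC : N.testBit (d + code f) with _ | _ <;>
          rcases hD : (d + code f).testBit (i : ℕ) with _ | _ <;>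
          rcases hE : (d + code f).testBit (j : ℕ) with _ | _ <;>
          simp_all
      obtain ⟨a2, a3, a4, a5⟩ := h'
      set g := dec (d + code f) with hg
      have hcg : code g = d + code f := code_dec a3
      have hjg : j ∈ g := by
        have := testBit_code g j
        rw [hcg, a4] at this
        simpa using this.symm
      have hig : i ∉ g := by
        have := testBit_code g i
        rw [hcg, a5] at this
        simpa using this.symm
      have hig' : i ∈ g.image (Equiv.swap i j) := by
        rw [mem_image_swap]
        simpa using hjg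
      have hjg' : j ∉ g.image (Equiv.swap i j) := by
        rw [mem_image_swap]
        simpa using hig
      have hc := code_image hij hig' hjg'
      rw [image_swap_swap, hcg, ← hd] at hc
      have hf : g.image (Equiv.swap i j) = f := code_injS (by omega)
      refine ⟨?_, ?_, ?_⟩
      · rw [← hf]
        exact hig'
      · rw [← hf]
        exact hjg'
      · rw [← hf, image_swap_swap, hcg]
        exact a2
    · rintro ⟨b1, b2, b3⟩
      have hc := code_image hij b1 b2
      rw [← hd] at hc
      have hsub : d + code f = code (f.image (Equiv.swap i j)) := by omega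
      have t1 := testBit_code (f.image (Equiv.swap i j)) i
      have t2 := testBit_code (f.image (Equiv.swap i j)) j
      have hlt := code_lt (f.image (Equiv.swap i j))
      have c1 : i ∉ f.image (Equiv.swap i j) := by
        rw [mem_image_swap]
        simpa using b2
      have c2 : j ∈ f.image (Equiv.swap i j) := by
        rw [mem_image_swap]
        simpa using b1
      rw [hsub, b3, t1, t2]
      simp [c1, c2, hlt]
  have h1 : (N ^^^ (N &&& (Mf i ^^^ Mf j))).testBit (code f) = true ↔
      ((i ∈ f ↔ j ∈ f) ∧ N.testBit (code f) = true) := by
    rw [Nat.testBit_xor, Nat.testBit_and, Nat.testBit_xor, testBit_Mf i.2, testBit_Mf j.2,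
      testBit_code f i, testBit_code f j]
    by_cases a : i ∈ f <;> by_cases b : j ∈ f <;> simp [a, b, hm]
  have key : (swapN i j N).testBit (code f) = true ↔
      N.testBit (code (f.image (Equiv.swap i j))) = true := by
    unfold swapN
    rw [Nat.testBit_or, Nat.testBit_or, Bool.or_eq_true, Bool.or_eq_true, ← hd, h1, h2, h3]
    by_cases a : i ∈ f
    · by_cases b : j ∈ f
      · have hs : f.image (Equiv.swap i j) = f := by
          ext x
          rw [mem_image_swap]
          by_cases h1 : x = i
          · subst h1; simp [a, b]
          · by_cases h2 : x = j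
            · subst h2; simp [a, b]
            · rw [Equiv.swap_apply_of_ne_of_ne h1 h2]
        rw [hs]
        simp [a, b]
      · simp [a, b]
    · by_cases b : j ∈ f
      · simp [a, b]
      · have hs : f.image (Equiv.swap i j) = f := by
          ext x
          rw [mem_image_swap]
          by_cases h1 : x = i
          · subst h1; simp [a, b]
          · by_cases h2 : x = j
            · subst h2; simp [a, b]
            · rw [Equiv.swap_apply_of_ne_of_ne h1 h2]
        rw [hs]
        simp [a, b]
  rw [Bool.eq_iff_iff]
  exact key

theorem mem_relabel_swap {i j : Fin 15} {K : Cx} {f : Finset (Fin 15)} :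
    f ∈ relabel (Equiv.swap i j) K ↔ f.image (Equiv.swap i j) ∈ K := by
  unfold relabel
  rw [Finset.mem_image]
  constructor
  · rintro ⟨g, hg, rfl⟩
    rwa [image_swap_swap]
  · intro h
    exact ⟨_, h, image_swap_swap i j f⟩

theorem relabel_swap {i j : Fin 15} (hij : i < j) (N : ℕ) :
    relabel (Equiv.swap i j) (cx N) = cx (swapN i j N) := by
  ext f
  rw [mem_relabel_swap, mem_cx, mem_cx, testBit_swapN hij]

/-- the product of the exchanges of a list, the first one first -/
def permOf : List (ℕ × ℕ) → Equiv.Perm (Fin 15)
  | [] => 1
  | (i, j) :: l => permOf l * Equiv.swap (Fin.ofNat 15 i) (Fin.ofNat 15 j)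

/-- all pairs are increasing and below 15 -/
def pairsOk (l : List (ℕ × ℕ)) : Bool := l.all fun p => decide (p.1 < p.2) && decide (p.2 < 15)

theorem relabel_mul (σ τ : Equiv.Perm (Fin 15)) (K : Cx) :
    relabel (σ * τ) K = relabel σ (relabel τ K) := by
  unfold relabel
  rw [Finset.image_image]
  congr 1
  funext f
  simp only [Function.comp_apply, Finset.image_image]
  rfl

theorem relabel_one' (K : Cx) : relabel 1 K = K := by
  unfold relabel
  have : (fun f : Finset (Fin 15) => f.image (1 : Equiv.Perm (Fin 15))) = id := by
    funext f
    simp
  rw [this, Finset.image_id]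

theorem relabel_permOf (l : List (ℕ × ℕ)) (N : ℕ) (h : pairsOk l = true) :
    relabel (permOf l) (cx N) = cx (swapsN l N) := by
  induction l generalizing N with
  | nil => exact relabel_one' _
  | cons p l ih =>
    obtain ⟨i, j⟩ := p
    have h' : (i < j ∧ j < 15) ∧ pairsOk l = true := by
      simpa [pairsOk, List.all_cons] using h
    obtain ⟨⟨h1, h2⟩, h3⟩ := h'
    have e1 : ((Fin.ofNat 15 i : Fin 15) : ℕ) = i := Nat.mod_eq_of_lt (by omega)
    have e2 : ((Fin.ofNat 15 j : Fin 15) : ℕ) = j := Nat.mod_eq_of_lt h2
    have hlt : (Fin.ofNat 15 i : Fin 15) < Fin.ofNat 15 j := by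
      rw [Fin.lt_def, e1, e2]
      exact h1
    change relabel (permOf l * Equiv.swap (Fin.ofNat 15 i) (Fin.ofNat 15 j)) (cx N) =
      cx (swapsN l (swapN i j N))
    rw [relabel_mul, relabel_swap hlt, e1, e2, ih _ h3]

theorem card_aut (N : ℕ) (l1 l2 l3 : List (ℕ × ℕ))
    (h : (pairsOk l1 && pairsOk l2 && pairsOk l3) = true)
    (h1 : swapsN l1 N = N) (h2 : swapsN l2 N = N) (h3 : swapsN l3 N = N)
    (hd : [1, permOf l1, permOf l2, permOf l3].Nodup) :
    3 < Nat.card {σ : Equiv.Perm (Fin 15) // relabel σ (cx N) = cx N} := by
  have h' : (pairsOk l1 = true ∧ pairsOk l2 = true) ∧ pairsOk l3 = true := by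
    simpa using h
  obtain ⟨⟨a1, a2⟩, a3⟩ := h'
  have b1 : relabel (permOf l1) (cx N) = cx N := by rw [relabel_permOf l1 N a1, h1]
  have b2 : relabel (permOf l2) (cx N) = cx N := by rw [relabel_permOf l2 N a2, h2]
  have b3 : relabel (permOf l3) (cx N) = cx N := by rw [relabel_permOf l3 N a3, h3]
  have hall : ∀ k : Fin 4, relabel ([1, permOf l1, permOf l2, permOf l3].get k) (cx N) = cx N := by
    intro k
    fin_cases k
    · exact relabel_one' _
    · exact b1
    · exact b2
    · exact b3
  have hinj : Function.Injective (fun k : Fin 4 =>
      (⟨[1, permOf l1, permOf l2, permOf l3].get k, hall k⟩ :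
        {σ : Equiv.Perm (Fin 15) // relabel σ (cx N) = cx N})) := by
    intro k k' hk
    have hk' := congrArg Subtype.val hk
    exact (List.nodup_iff_injective_get.1 hd) hk'
  have := Nat.card_le_card_of_injective _ hinj
  simp only [Nat.card_eq_fintype_card, Fintype.card_fin] at this
  rw [Nat.card_eq_fintype_card]
  omega

end Pool.Agent.H49.TF
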